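import Pool.Agent.SmIso.GapF
import Pool.Agent.EStab.PiLie
import Pool.Agent.EinS.Prod

/-!
# Diagonal subalgebras have small Casimir operator

An orthonormal family `a_i` of the diagonal copy of `h` in `g^n` is `a_i = (y_i, ..., y_i)` with
`n Qf y_i y_j = δ_ij` (`killing_pi`), so `√n y_i` is an orthonormal family in `g`, and for `x = (x_1, ..., x_n)`:
`∑ i, Qf ⁅a_i, x⁆ ⁅a_i, x⁆ = ∑ j, ∑ i, Qf ⁅y_i, x_j⁆ ⁅y_i, x_j⁆ ≤ (1/n) ∑ j, Qf x_j x_j`, since
`∑ i, Qf ⁅z_i, x⁆ ⁅z_i, x⁆ ≤ Qf x x` for every orthonormal family `z_i` of `g` (with a frame `e` of `g`: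
`∑ i, Qf ⁅z_i, x⁆ ⁅z_i, x⁆ = ∑ l, ∑ i, (Qf z_i ⁅x, e_l⁆)² ≤ ∑ l, Qf ⁅x, e_l⁆ ⁅x, e_l⁆ = Qf x x`; `bessel_fam`,
`IsFrame.killing`, `IsFrame.parseval`).
-/

namespace Pool.Agent.SmIso

open Matrix Pool.Agent.EStab Pool.Agent.EinS

/-- The diagonal copy of `h` in `g^n`. -/
def diagSub {g : Type} [LieRing g] [LieAlgebra ℝ g] (n : ℕ) (h : LieSubalgebra ℝ g) :
    LieSubalgebra ℝ (Fin n → g) where
  carrier := {x | ∃ y ∈ h, ∀ i, x i = y}
  add_mem' := by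
    rintro x x' ⟨y, hy, hx⟩ ⟨y', hy', hx'⟩
    exact ⟨y + y', h.add_mem hy hy', fun i => by rw [Pi.add_apply, hx, hx']⟩
  zero_mem' := ⟨0, h.zero_mem, fun _ => rfl⟩
  smul_mem' := by
    rintro t x ⟨y, hy, hx⟩
    exact ⟨t • y, h.smul_mem t hy, fun i => by rw [Pi.smul_apply, hx]⟩
  lie_mem' := by
    rintro x x' ⟨y, hy, hx⟩ ⟨y', hy', hx'⟩
    exact ⟨⁅y, y'⁆, h.lie_mem hy hy', fun i => by rw [pi_lie_apply, hx, hx']⟩

theorem diag_casimir {g : Type} [LieRing g] [LieAlgebra ℝ g] [Module.Finite ℝ g]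
    (hg : CompactSemisimple g) {n : ℕ} (hn : 0 < n) (h : LieSubalgebra ℝ g) :
    CasimirSmall (diagSub n h) (1 / n) := by
  intro m a ha ho x
  choose y hy hay using ha
  have hn0 : (0 : ℝ) < n := by exact_mod_cast hn
  have hs0 : Real.sqrt n * Real.sqrt n = n := Real.mul_self_sqrt hn0.le
  have hpi : ∀ u v : Fin n → g, -killingForm ℝ (Fin n → g) u v = ∑ k, Qf g (u k) (v k) :=
    fun u v => Qf_pi (L := fun _ : Fin n => g) u v
  have horth : ∀ i j, (n : ℝ) * Qf g (y i) (y j) = if i = j then 1 else 0 := by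
    intro i j
    have h1 := hpi (a i) (a j)
    rw [ho] at h1
    simp only [hay, Finset.sum_const, Finset.card_univ, Fintype.card_fin, nsmul_eq_mul] at h1
    rw [← h1]
    split_ifs <;> norm_num
  let z : Fin m → g := fun i => Real.sqrt n • y i
  have hz : ∀ i j, Qf g (z i) (z j) = if i = j then 1 else 0 := by
    intro i j
    show Qf g (Real.sqrt n • y i) (Real.sqrt n • y j) = _
    rw [map_smul, map_smul, LinearMap.smul_apply, smul_eq_mul, smul_eq_mul, ← mul_assoc, hs0]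
    exact horth i j
  obtain ⟨d, e, he⟩ := exists_frame hg (⊤ : LieSubalgebra ℝ g).toSubmodule
  have he' : IsFrame (⊤ : Submodule ℝ g) e := he
  have key : ∀ w : g, (n : ℝ) * ∑ i, Qf g ⁅y i, w⁆ ⁅y i, w⁆ ≤ Qf g w w := by
    intro w
    have h1 := casimir_aux hg he z (fun j => LieSubalgebra.mem_top _) (fun v => by
      refine le_trans (le_of_eq ?_) (bessel_fam hg hz v)
      exact Finset.sum_congr rfl fun i _ => by rw [Qf_symm]) w
    have h2 : ∑ i, Qf g ⁅e i, w⁆ ⁅e i, w⁆ = Qf g w w := by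
      rw [he'.killing w w]
      refine Finset.sum_congr rfl fun i _ => ?_
      rw [← lie_skew w (e i)]
      simp only [map_neg, LinearMap.neg_apply, neg_neg]
    have h3 : ∑ i, Qf g ⁅z i, w⁆ ⁅z i, w⁆ = (n : ℝ) * ∑ i, Qf g ⁅y i, w⁆ ⁅y i, w⁆ := by
      rw [Finset.mul_sum]
      refine Finset.sum_congr rfl fun i _ => ?_
      show Qf g ⁅Real.sqrt n • y i, w⁆ ⁅Real.sqrt n • y i, w⁆ = _
      rw [smul_lie, map_smul, map_smul, LinearMap.smul_apply, smul_eq_mul, smul_eq_mul,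
        ← mul_assoc, hs0]
    rw [h2, h3] at h1
    exact h1
  have hL : ∑ i, -killingForm ℝ (Fin n → g) ⁅a i, x⁆ ⁅a i, x⁆ =
      ∑ k, ∑ i, Qf g ⁅y i, x k⁆ ⁅y i, x k⁆ := by
    rw [Finset.sum_comm]
    refine Finset.sum_congr rfl fun i _ => ?_
    rw [hpi]
    refine Finset.sum_congr rfl fun k _ => ?_
    rw [pi_lie_apply, hay]
  rw [hL, hpi, Finset.mul_sum]
  refine Finset.sum_le_sum fun k _ => ?_
  rw [one_div, inv_mul_eq_div, le_div_iff₀ hn0, mul_comm]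
  exact key (x k)

end Pool.Agent.SmIso
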