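import Pool.Agent.SmIso.Base

/-!
# Irreducible normaliser

* `scalar_of_comm`: a symmetric real matrix has an eigenvalue `c` (e.g. `LinearMap.IsSymmetric.eigenvalues`,
  `Matrix.IsHermitian.eigenvalues`, or a maximum of `x ⬝ᵥ (M *ᵥ x)` on the unit sphere); the eigenspace
  `{v | M *ᵥ v = c • v}` is invariant under the `Q`, not `⊥`, so it is `⊤`.
* `exists_conj`: `x ↦ Q x Qᵀ` is an automorphism of `so(N)`; it maps `h` injectively into `h`, hence onto `h` (finite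
  dimension).
-/

namespace Pool.Agent.SmIso

open Matrix Pool.Agent.EStab Pool.Agent.EinS LieAlgebra.Orthogonal

variable {N : ℕ}

/-- A symmetric matrix which commutes with an irreducible set of matrices is scalar. -/
theorem scalar_of_irr (hN : 0 < N) {S : Set (Matrix (Fin N) (Fin N) ℝ)}
    (hirr : ∀ U : Submodule ℝ (Fin N → ℝ), (∀ Q ∈ S, ∀ v ∈ U, Q *ᵥ v ∈ U) → U = ⊥ ∨ U = ⊤)
    {M : Matrix (Fin N) (Fin N) ℝ} (hM : M.IsSymm) (hc : ∀ Q ∈ S, Q * M = M * Q) :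
    ∃ c : ℝ, M = c • (1 : Matrix (Fin N) (Fin N) ℝ) := by
  have hH : M.IsHermitian := by
    rw [Matrix.IsHermitian, Matrix.conjTranspose_eq_transpose_of_trivial]
    exact hM
  let i0 : Fin N := ⟨0, hN⟩
  have he := hH.mulVec_eigenvectorBasis i0
  set c : ℝ := hH.eigenvalues i0 with hcdef
  set v : Fin N → ℝ := (hH.eigenvectorBasis i0).ofLp with hvdef
  have hv0 : v ≠ 0 := by
    intro h0
    have h1 : hH.eigenvectorBasis i0 = 0 := by
      ext j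
      exact congrFun h0 j
    have h2 := hH.eigenvectorBasis.norm_eq_one i0
    rw [h1, norm_zero] at h2
    exact zero_ne_one h2
  refine ⟨c, ?_⟩
  let U : Submodule ℝ (Fin N → ℝ) := LinearMap.ker (M.mulVecLin - c • LinearMap.id)
  have hmem : ∀ w, w ∈ U ↔ M *ᵥ w = c • w := by
    intro w
    simp only [U, LinearMap.mem_ker, LinearMap.sub_apply, Matrix.mulVecLin_apply,
      LinearMap.smul_apply, LinearMap.id_apply, sub_eq_zero]
  rcases hirr U (fun Q hQ w hw => by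
    rw [hmem] at hw ⊢
    rw [Matrix.mulVec_mulVec, ← hc Q hQ, ← Matrix.mulVec_mulVec, hw, Matrix.mulVec_smul])
    with hU | hU
  · exfalso
    have : v ∈ U := (hmem v).2 he
    rw [hU, Submodule.mem_bot] at this
    exact hv0 this
  · ext i j
    have h1 : (Pi.single j 1 : Fin N → ℝ) ∈ U := by rw [hU]; exact Submodule.mem_top
    rw [hmem] at h1
    have h2 := congrFun h1 i
    rw [Matrix.mulVec_single_one] at h2
    simp only [Matrix.col_apply, Pi.smul_apply, smul_eq_mul] at h2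
    rw [h2, Matrix.smul_apply, smul_eq_mul, Matrix.one_apply, Pi.single_apply]

theorem scalar_of_comm (hN : 0 < N) {h : LieSubalgebra ℝ (so (Fin N) ℝ)}
    (hirr : NormalizerIrreducible h) {M : Matrix (Fin N) (Fin N) ℝ} (hM : M.IsSymm)
    (hc : ∀ Q : Matrix (Fin N) (Fin N) ℝ, Q * Qᵀ = 1 →
      (∀ u ∈ h, ∃ u' ∈ h, Q * (u : Matrix (Fin N) (Fin N) ℝ) * Qᵀ =
        (u' : Matrix (Fin N) (Fin N) ℝ)) → Q * M = M * Q) :
    ∃ c : ℝ, M = c • (1 : Matrix (Fin N) (Fin N) ℝ) :=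
  scalar_of_irr hN (S := {Q | Q * Qᵀ = 1 ∧
    ∀ u ∈ h, ∃ u' ∈ h, Q * (u : Matrix (Fin N) (Fin N) ℝ) * Qᵀ =
      (u' : Matrix (Fin N) (Fin N) ℝ)})
    (fun U hU => hirr U fun Q hQ hQh => hU Q ⟨hQ, hQh⟩) hM fun Q hQ => hc Q hQ.1 hQ.2

private theorem irr_mem {Q : Matrix (Fin N) (Fin N) ℝ} (x : so (Fin N) ℝ) :
    Q * (x : Matrix (Fin N) (Fin N) ℝ) * Qᵀ ∈ so (Fin N) ℝ := by
  have hx := (LieAlgebra.Orthogonal.mem_so (Fin N) ℝ _).1 x.2
  rw [LieAlgebra.Orthogonal.mem_so, Matrix.transpose_mul, Matrix.transpose_mul,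
    Matrix.transpose_transpose, hx]
  simp only [Matrix.mul_neg, Matrix.neg_mul, Matrix.mul_assoc]

theorem exists_conj {h : LieSubalgebra ℝ (so (Fin N) ℝ)} {Q : Matrix (Fin N) (Fin N) ℝ}
    (hQ : Q * Qᵀ = 1) (hh : ∀ u ∈ h, ∃ u' ∈ h, Q * (u : Matrix (Fin N) (Fin N) ℝ) * Qᵀ =
      (u' : Matrix (Fin N) (Fin N) ℝ)) :
    ∃ δ : so (Fin N) ℝ ≃ₗ⁅ℝ⁆ so (Fin N) ℝ,
      h.map (δ : so (Fin N) ℝ →ₗ⁅ℝ⁆ so (Fin N) ℝ) = h ∧
      ∀ x, (δ x : Matrix (Fin N) (Fin N) ℝ) = Q * (x : Matrix (Fin N) (Fin N) ℝ) * Qᵀ := by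
  have hQ' : Qᵀ * Q = 1 := mul_eq_one_comm.1 hQ
  let δ : so (Fin N) ℝ ≃ₗ⁅ℝ⁆ so (Fin N) ℝ :=
    { toFun := fun x => ⟨Q * (x : Matrix (Fin N) (Fin N) ℝ) * Qᵀ, irr_mem x⟩
      invFun := fun x => ⟨Qᵀ * (x : Matrix (Fin N) (Fin N) ℝ) * Q, by
        have := irr_mem (Q := Qᵀ) x
        rwa [Matrix.transpose_transpose] at this⟩
      map_add' := fun x y => by
        apply Subtype.ext
        change Q * ((x : Matrix (Fin N) (Fin N) ℝ) + y) * Qᵀ =
          Q * (x : Matrix (Fin N) (Fin N) ℝ) * Qᵀ + Q * (y : Matrix (Fin N) (Fin N) ℝ) * Qᵀ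
        rw [Matrix.mul_add, Matrix.add_mul]
      map_smul' := fun r x => by
        apply Subtype.ext
        change Q * (r • (x : Matrix (Fin N) (Fin N) ℝ)) * Qᵀ =
          r • (Q * (x : Matrix (Fin N) (Fin N) ℝ) * Qᵀ)
        rw [Matrix.mul_smul, Matrix.smul_mul]
      map_lie' := fun {x y} => by
        apply Subtype.ext
        change Q * (⁅(x : Matrix (Fin N) (Fin N) ℝ), (y : Matrix (Fin N) (Fin N) ℝ)⁆) * Qᵀ =
          ⁅Q * (x : Matrix (Fin N) (Fin N) ℝ) * Qᵀ, Q * (y : Matrix (Fin N) (Fin N) ℝ) * Qᵀ⁆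
        have h1 : ∀ a b : Matrix (Fin N) (Fin N) ℝ,
            Q * a * Qᵀ * (Q * b * Qᵀ) = Q * (a * b) * Qᵀ := by
          intro a b
          calc Q * a * Qᵀ * (Q * b * Qᵀ) = Q * a * (Qᵀ * Q) * b * Qᵀ := by
                simp only [Matrix.mul_assoc]
            _ = Q * (a * b) * Qᵀ := by
                rw [hQ', Matrix.mul_one]; simp only [Matrix.mul_assoc]
        rw [Ring.lie_def, Ring.lie_def, h1, h1, Matrix.mul_sub, Matrix.sub_mul]
      left_inv := fun x => by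
        apply Subtype.ext
        change Qᵀ * (Q * (x : Matrix (Fin N) (Fin N) ℝ) * Qᵀ) * Q = x
        calc Qᵀ * (Q * (x : Matrix (Fin N) (Fin N) ℝ) * Qᵀ) * Q
            = (Qᵀ * Q) * x * (Qᵀ * Q) := by simp only [Matrix.mul_assoc]
          _ = x := by rw [hQ', Matrix.one_mul, Matrix.mul_one]
      right_inv := fun x => by
        apply Subtype.ext
        change Q * (Qᵀ * (x : Matrix (Fin N) (Fin N) ℝ) * Q) * Qᵀ = x
        calc Q * (Qᵀ * (x : Matrix (Fin N) (Fin N) ℝ) * Q) * Qᵀ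
            = (Q * Qᵀ) * x * (Q * Qᵀ) := by simp only [Matrix.mul_assoc]
          _ = x := by rw [hQ, Matrix.one_mul, Matrix.mul_one] }
  have hδ : ∀ x, (δ x : Matrix (Fin N) (Fin N) ℝ) = Q * (x : Matrix (Fin N) (Fin N) ℝ) * Qᵀ :=
    fun x => rfl
  refine ⟨δ, ?_, hδ⟩
  have hle : (h.map (δ : so (Fin N) ℝ →ₗ⁅ℝ⁆ so (Fin N) ℝ)).toSubmodule ≤ h.toSubmodule := by
    intro y hy
    obtain ⟨u, hu, rfl⟩ := hy
    obtain ⟨u', hu', he⟩ := hh u hu
    have : δ u = u' := Subtype.ext he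
    change δ u ∈ h
    rw [this]
    exact hu'
  have heq : (h.map (δ : so (Fin N) ℝ →ₗ⁅ℝ⁆ so (Fin N) ℝ)).toSubmodule = h.toSubmodule := by
    apply Submodule.eq_of_le_of_finrank_eq hle
    exact LinearEquiv.finrank_map_eq δ.toLinearEquiv h.toSubmodule
  exact LieSubalgebra.toSubmodule_injective heq

end Pool.Agent.SmIso
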