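import Pool.Agent.SmIso.GapF
import Pool.Agent.EStab.SoN

/-!
# The operator `Θ` on `so(N)`

`F a b = E_ab - E_ba`; an endomorphism `T` of `so(N)` has the tensor `tn T a b c d = (T (F a b)) c d`; conversely
`opT t x = (1/2) ∑ a b, x a b t a b c d` (skew in `c, d` after antisymmetrisation).
The proof of `so_rigid` in `EStab/SoN.lean` contains all computations (`SoN_trace`, `SoN_killing`, `hkill`,
`SoN_FF`, `SoN_Fbr`, `hA`, `hmain` before `heq` is used): copy them.  In particular for symmetric `T`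
`TH T (F a b) (F c d) = δ_bd ρ a c - δ_bc ρ a d - δ_ad ρ b c + δ_ac ρ b d - 2 t a d c b + 2 t a c d b`,
`ρ a c = ∑ j, t a j c j` (the sign: `- trace`; cf. `hmain`, where `(N-2) t a b c d` is
`-(1/2) K(T x, y) = - trace (..)`), and `x = (1/2) ∑ a b, x a b F a b`.
-/

set_option linter.all false

namespace Pool.Agent.SmIso

open Matrix Pool.Agent.EStab Pool.Agent.EinS LieAlgebra.Orthogonal

variable {N : ℕ}

/-- The elementary skew-symmetric matrices. -/
def Fm (a b : Fin N) : so (Fin N) ℝ :=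
  ⟨Matrix.single a b 1 - Matrix.single b a 1, by
    rw [mem_so, Matrix.transpose_sub, Matrix.transpose_single, Matrix.transpose_single]
    abel⟩

/-- The tensor of an endomorphism. -/
def tn (T : so (Fin N) ℝ →ₗ[ℝ] so (Fin N) ℝ) (a b c d : Fin N) : ℝ := (T (Fm a b)).1 c d

/-- The symmetries of the tensor of a symmetric endomorphism. -/
structure TSym (t : Fin N → Fin N → Fin N → Fin N → ℝ) : Prop where
  s1 : ∀ a b c d, t b a c d = -t a b c d
  s2 : ∀ a b c d, t a b d c = -t a b c d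
  s3 : ∀ a b c d, t c d a b = t a b c d

/-- the projection onto the skew-symmetric matrices -/
private noncomputable def SoT_p : Matrix (Fin N) (Fin N) ℝ →ₗ[ℝ] so (Fin N) ℝ where
  toFun X := ⟨(1 / 2 : ℝ) • (X - Xᵀ), by
    rw [mem_so, Matrix.transpose_smul, Matrix.transpose_sub, Matrix.transpose_transpose,
      ← smul_neg, neg_sub]⟩
  map_add' X Y := by
    apply Subtype.ext
    show (1 / 2 : ℝ) • (X + Y - (X + Y)ᵀ) = (1 / 2 : ℝ) • (X - Xᵀ) + (1 / 2 : ℝ) • (Y - Yᵀ)
    rw [Matrix.transpose_add, ← smul_add]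
    congr 1
    abel
  map_smul' c X := by
    apply Subtype.ext
    show (1 / 2 : ℝ) • (c • X - (c • X)ᵀ) = c • ((1 / 2 : ℝ) • (X - Xᵀ))
    rw [Matrix.transpose_smul, ← smul_sub, smul_comm]

private theorem SoT_p_single (i j : Fin N) :
    SoT_p (Matrix.single i j (1 : ℝ)) = (1 / 2 : ℝ) • Fm i j := by
  apply Subtype.ext
  show (1 / 2 : ℝ) • (Matrix.single i j (1 : ℝ) - (Matrix.single i j (1 : ℝ))ᵀ) =
    (1 / 2 : ℝ) • (Matrix.single i j (1 : ℝ) - Matrix.single j i 1)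
  rw [Matrix.transpose_single]

private theorem SoT_p_id (x : so (Fin N) ℝ) : SoT_p x.1 = x := by
  apply Subtype.ext
  show (1 / 2 : ℝ) • (x.1 - x.1ᵀ) = x.1
  have h := (mem_so (Fin N) ℝ x.1).1 x.2
  rw [h, sub_neg_eq_add, ← two_smul ℝ x.1, smul_smul]
  norm_num

private theorem SoT_sum (x : so (Fin N) ℝ) :
    x = (1 / 2 : ℝ) • ∑ i, ∑ j, x.1 i j • Fm i j := by
  conv_lhs => rw [← SoT_p_id x, Matrix.matrix_eq_sum_single x.1]
  rw [map_sum, Finset.smul_sum]
  refine Finset.sum_congr rfl fun i _ => ?_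
  rw [map_sum, Finset.smul_sum]
  refine Finset.sum_congr rfl fun j _ => ?_
  have h : Matrix.single i j (x.1 i j) = x.1 i j • Matrix.single i j (1 : ℝ) := by
    rw [Matrix.smul_single, smul_eq_mul, mul_one]
  rw [h, map_smul, SoT_p_single, smul_comm]

private theorem SoT_trace (M : so (Fin N) ℝ →ₗ[ℝ] so (Fin N) ℝ) :
    LinearMap.trace ℝ _ M = (1 / 2) * ∑ i, ∑ j, (M (Fm i j)).1 i j := by
  let ι : so (Fin N) ℝ →ₗ[ℝ] Matrix (Fin N) (Fin N) ℝ :=
    { toFun := fun x => x.1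
      map_add' := fun _ _ => rfl
      map_smul' := fun _ _ => rfl }
  have h1 : M = (M ∘ₗ SoT_p) ∘ₗ ι := by
    ext x : 1
    show M x = M (SoT_p x.1)
    rw [SoT_p_id]
  have h2 : LinearMap.trace ℝ _ M = LinearMap.trace ℝ _ (ι ∘ₗ (M ∘ₗ SoT_p)) := by
    conv_lhs => rw [h1]
    exact LinearMap.trace_comp_comm' ι (M ∘ₗ SoT_p)
  rw [h2, LinearMap.trace_eq_matrix_trace ℝ (Matrix.stdBasis ℝ (Fin N) (Fin N))]
  unfold Matrix.trace
  rw [Fintype.sum_prod_type, Finset.mul_sum]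
  refine Finset.sum_congr rfl fun i _ => ?_
  rw [Finset.mul_sum]
  refine Finset.sum_congr rfl fun j _ => ?_
  rw [Matrix.diag_apply, LinearMap.toMatrix_apply, Matrix.stdBasis_eq_single]
  have h3 : ∀ X : Matrix (Fin N) (Fin N) ℝ,
      (Matrix.stdBasis ℝ (Fin N) (Fin N)).repr X (i, j) = X i j := by
    intro X
    simp [Matrix.stdBasis]
  rw [h3]
  show (M (SoT_p (Matrix.single i j (1 : ℝ)))).1 i j = _
  rw [SoT_p_single, map_smul]
  rfl

private theorem SoT_F_apply (a b i j : Fin N) : (Fm a b).1 i j =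
    (if a = i ∧ b = j then 1 else 0) - (if b = i ∧ a = j then 1 else 0) := by
  show (Matrix.single a b (1 : ℝ) - Matrix.single b a 1 : Matrix (Fin N) (Fin N) ℝ) i j = _
  rw [Matrix.sub_apply, Matrix.single_apply, Matrix.single_apply]

private theorem SoT_bracket (x y : so (Fin N) ℝ) : (⁅x, y⁆ : so (Fin N) ℝ).1 =
    x.1 * y.1 - y.1 * x.1 := rfl

private theorem SoT_skew (x : so (Fin N) ℝ) (i j : Fin N) : x.1 i j = - x.1 j i := by
  have h := (mem_so (Fin N) ℝ x.1).1 x.2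
  have h2 := congrFun (congrFun h j) i
  rw [Matrix.transpose_apply, Matrix.neg_apply] at h2
  exact h2

private theorem SoT_diag (x : so (Fin N) ℝ) (i : Fin N) : x.1 i i = 0 := by
  have h := SoT_skew x i i
  linarith

private theorem SoT_lr (A B : Matrix (Fin N) (Fin N) ℝ) (a b i j : Fin N) :
    (A * (Matrix.single a b (1 : ℝ) * B)) i j = A i a * B b j := by
  rw [Matrix.mul_apply, Finset.sum_eq_single a]
  · rw [Matrix.single_mul_apply_same, one_mul]
  · intro k _ hk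
    rw [Matrix.single_mul_apply_of_ne _ _ _ _ _ hk, mul_zero]
  · intro h
    exact absurd (Finset.mem_univ a) h

private theorem SoT_entry (x y : so (Fin N) ℝ) (i j : Fin N) :
    (⁅x, ⁅y, Fm i j⁆⁆ : so (Fin N) ℝ).1 i j =
      (x.1 * y.1) i i - (x.1 * y.1) i j * (if i = j then 1 else 0) -
        (x.1 i i * y.1 j j - x.1 i j * y.1 i j) - (y.1 i i * x.1 j j - y.1 i j * x.1 i j) +
        ((y.1 * x.1) j j - (if i = j then 1 else 0) * (y.1 * x.1) i j) := by
  have e : (⁅x, ⁅y, Fm i j⁆⁆ : so (Fin N) ℝ).1 =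
      ((x.1 * y.1) * (Matrix.single i j (1 : ℝ) * 1) - (x.1 * y.1) * (Matrix.single j i (1 : ℝ) * 1))
      - (x.1 * (Matrix.single i j (1 : ℝ) * y.1) - x.1 * (Matrix.single j i (1 : ℝ) * y.1))
      - (y.1 * (Matrix.single i j (1 : ℝ) * x.1) - y.1 * (Matrix.single j i (1 : ℝ) * x.1))
      + (1 * (Matrix.single i j (1 : ℝ) * (y.1 * x.1)) -
        1 * (Matrix.single j i (1 : ℝ) * (y.1 * x.1))) := by
    rw [SoT_bracket, SoT_bracket]
    show x.1 * (y.1 * (Matrix.single i j (1 : ℝ) - Matrix.single j i 1) -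
      (Matrix.single i j (1 : ℝ) - Matrix.single j i 1) * y.1) -
      (y.1 * (Matrix.single i j (1 : ℝ) - Matrix.single j i 1) -
      (Matrix.single i j (1 : ℝ) - Matrix.single j i 1) * y.1) * x.1 = _
    noncomm_ring
  rw [e]
  simp only [Matrix.add_apply, Matrix.sub_apply, SoT_lr]
  simp only [Matrix.one_apply, if_true]
  ring_nf

private theorem SoT_tr (x y : so (Fin N) ℝ) :
    (x.1 * y.1).trace = - ∑ i, ∑ j, x.1 i j * y.1 i j := by
  unfold Matrix.trace
  rw [← Finset.sum_neg_distrib]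
  refine Finset.sum_congr rfl fun i _ => ?_
  rw [Matrix.diag_apply, Matrix.mul_apply, ← Finset.sum_neg_distrib]
  refine Finset.sum_congr rfl fun j _ => ?_
  rw [SoT_skew y j i]
  ring

private theorem SoT_killing (x y : so (Fin N) ℝ) :
    killingForm ℝ (so (Fin N) ℝ) x y = ((N : ℝ) - 2) * (x.1 * y.1).trace := by
  rw [killingForm_apply_apply, SoT_trace]
  have h1 : ∀ i j, (((LieAlgebra.ad ℝ (so (Fin N) ℝ)) x ∘ₗ (LieAlgebra.ad ℝ (so (Fin N) ℝ)) y)
      (Fm i j)).1 i j = (⁅x, ⁅y, Fm i j⁆⁆ : so (Fin N) ℝ).1 i j := fun i j => rfl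
  have h2 : ∑ i, ∑ j, x.1 i j * y.1 i j = - (x.1 * y.1).trace := by
    rw [SoT_tr, neg_neg]
  have h3 : ∀ A : Matrix (Fin N) (Fin N) ℝ, ∑ i, ∑ _j : Fin N, A i i = N * A.trace := by
    intro A
    simp only [Finset.sum_const, Finset.card_univ, Fintype.card_fin, nsmul_eq_mul]
    rw [← Finset.mul_sum]
    rfl
  have h4 : ∀ A : Matrix (Fin N) (Fin N) ℝ, ∑ _i : Fin N, ∑ j, A j j = N * A.trace := by
    intro A
    rw [Finset.sum_const, Finset.card_univ, Fintype.card_fin, nsmul_eq_mul]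
    rfl
  have h5 : ∀ A : Matrix (Fin N) (Fin N) ℝ,
      ∑ i, ∑ j, A i j * (if i = j then (1 : ℝ) else 0) = A.trace := by
    intro A
    simp only [mul_ite, mul_one, mul_zero, Finset.sum_ite_eq, Finset.mem_univ, if_true]
    rfl
  have h6 : (y.1 * x.1).trace = (x.1 * y.1).trace := Matrix.trace_mul_comm _ _
  have h7 : ∀ i j, (⁅x, ⁅y, Fm i j⁆⁆ : so (Fin N) ℝ).1 i j =
      (x.1 * y.1) i i + (y.1 * x.1) j j - (x.1 * y.1) i j * (if i = j then 1 else 0) -
        (y.1 * x.1) i j * (if i = j then 1 else 0) + 2 * (x.1 i j * y.1 i j) := by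
    intro i j
    rw [SoT_entry, SoT_diag, SoT_diag, SoT_diag y]
    ring
  simp only [h1, h7, Finset.sum_add_distrib, Finset.sum_sub_distrib, ← Finset.mul_sum]
  rw [h2, h3, h4, h5, h5, h6]
  ring

private theorem SoT_swap (a b : Fin N) : Fm b a = - Fm a b := by
  apply Subtype.ext
  show Matrix.single b a (1 : ℝ) - Matrix.single a b 1 =
    - (Matrix.single a b (1 : ℝ) - Matrix.single b a 1)
  abel

private theorem SoT_FF (c d i j : Fin N) : ⁅Fm c d, Fm i j⁆ =
    (if d = i then (1 : ℝ) else 0) • Fm c j - (if c = i then (1 : ℝ) else 0) • Fm d j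
    - (if d = j then (1 : ℝ) else 0) • Fm c i + (if c = j then (1 : ℝ) else 0) • Fm d i := by
  apply Subtype.ext
  rw [SoT_bracket]
  show (Matrix.single c d (1 : ℝ) - Matrix.single d c 1) *
      (Matrix.single i j (1 : ℝ) - Matrix.single j i 1) -
      (Matrix.single i j (1 : ℝ) - Matrix.single j i 1) *
      (Matrix.single c d (1 : ℝ) - Matrix.single d c 1) =
      (if d = i then (1 : ℝ) else 0) • (Matrix.single c j (1 : ℝ) - Matrix.single j c 1)
      - (if c = i then (1 : ℝ) else 0) • (Matrix.single d j (1 : ℝ) - Matrix.single j d 1)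
      - (if d = j then (1 : ℝ) else 0) • (Matrix.single c i (1 : ℝ) - Matrix.single i c 1)
      + (if c = j then (1 : ℝ) else 0) • (Matrix.single d i (1 : ℝ) - Matrix.single i d 1)
  have hs : ∀ p q r s : Fin N, Matrix.single p q (1 : ℝ) * Matrix.single r s 1 =
      (if q = r then (1 : ℝ) else 0) • Matrix.single p s 1 := by
    intro p q r s
    by_cases h : q = r
    · subst h
      rw [Matrix.single_mul_single_same, if_pos rfl, one_smul, mul_one]
    · rw [Matrix.single_mul_single_of_ne _ _ _ _ h, if_neg h, zero_smul]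
  simp only [sub_mul, mul_sub, hs]
  simp only [eq_comm (a := i) (b := d), eq_comm (a := j) (b := d), eq_comm (a := i) (b := c),
    eq_comm (a := j) (b := c), smul_sub]
  abel

private theorem SoT_Fbr (a b : Fin N) (Z : so (Fin N) ℝ) (i j : Fin N) :
    (⁅Fm a b, Z⁆ : so (Fin N) ℝ).1 i j =
      (if a = i then 1 else 0) * Z.1 b j - (if b = i then 1 else 0) * Z.1 a j
      - (if b = j then 1 else 0) * Z.1 i a + (if a = j then 1 else 0) * Z.1 i b := by
  rw [SoT_bracket]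
  show ((Matrix.single a b (1 : ℝ) - Matrix.single b a 1) * Z.1 -
    Z.1 * (Matrix.single a b (1 : ℝ) - Matrix.single b a 1) : Matrix (Fin N) (Fin N) ℝ) i j = _
  have e : (Matrix.single a b (1 : ℝ) - Matrix.single b a 1) * Z.1 -
    Z.1 * (Matrix.single a b (1 : ℝ) - Matrix.single b a 1) =
    (1 * (Matrix.single a b (1 : ℝ) * Z.1) - 1 * (Matrix.single b a (1 : ℝ) * Z.1)) -
    (Z.1 * (Matrix.single a b (1 : ℝ) * 1) - Z.1 * (Matrix.single b a (1 : ℝ) * 1)) := by
    noncomm_ring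
  rw [e]
  simp only [Matrix.sub_apply, SoT_lr, Matrix.one_apply]
  simp only [eq_comm (a := i) (b := a), eq_comm (a := i) (b := b)]
  ring

theorem Qf_so (x y : so (Fin N) ℝ) : Qf (so (Fin N) ℝ) x y
    = ((N : ℝ) - 2) * ∑ a, ∑ b, x.1 a b * y.1 a b := by
  rw [Qf_apply, SoT_killing, SoT_tr]
  ring

/-- The components of an endomorphism. -/
theorem apply_tn (T : so (Fin N) ℝ →ₗ[ℝ] so (Fin N) ℝ) (x : so (Fin N) ℝ) (c d : Fin N) :
    (T x).1 c d = (1 / 2) * ∑ a, ∑ b, x.1 a b * tn T a b c d := by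
  have h1 : T x = (1 / 2 : ℝ) • ∑ i, ∑ j, x.1 i j • T (Fm i j) := by
    conv_lhs => rw [SoT_sum x]
    rw [map_smul, map_sum]
    congr 1
    refine Finset.sum_congr rfl fun i _ => ?_
    rw [map_sum]
    refine Finset.sum_congr rfl fun j _ => ?_
    rw [map_smul]
  have h2 : ∀ (f : Fin N → so (Fin N) ℝ), (∑ i, f i : so (Fin N) ℝ).1 = ∑ i, (f i).1 := by
    intro f
    let ι : so (Fin N) ℝ →ₗ[ℝ] Matrix (Fin N) (Fin N) ℝ :=
      { toFun := fun x => x.1
        map_add' := fun _ _ => rfl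
        map_smul' := fun _ _ => rfl }
    exact map_sum ι f Finset.univ
  rw [h1]
  show ((1 / 2 : ℝ) • (∑ i, ∑ j, x.1 i j • T (Fm i j) : so (Fin N) ℝ).1) c d = _
  rw [Matrix.smul_apply, smul_eq_mul, h2, Matrix.sum_apply]
  congr 1
  refine Finset.sum_congr rfl fun i _ => ?_
  rw [h2, Matrix.sum_apply]
  refine Finset.sum_congr rfl fun j _ => ?_
  rfl

private theorem SoT_Qf_F (Z : so (Fin N) ℝ) (c d : Fin N) :
    Qf (so (Fin N) ℝ) Z (Fm c d) = (2 * ((N : ℝ) - 2)) * Z.1 c d := by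
  rw [Qf_so]
  have h1 : ∑ i, ∑ j, Z.1 i j * (Fm c d).1 i j = 2 * Z.1 c d := by
    simp only [SoT_F_apply, mul_sub, Finset.sum_sub_distrib, mul_ite, mul_one, mul_zero,
      ite_and]
    have h2 : ∀ (p q : Fin N), ∑ i, ∑ j, (if p = i then (if q = j then Z.1 i j else 0) else 0) =
        Z.1 p q := by
      intro p q
      rw [Finset.sum_eq_single p]
      · simp
      · intro i _ hi
        simp [Ne.symm hi]
      · intro h
        exact absurd (Finset.mem_univ p) h
    rw [h2, h2, SoT_skew Z d c]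
    ring
  rw [h1]
  ring

theorem tn_sym (hN : 3 ≤ N) {T : so (Fin N) ℝ →ₗ[ℝ] so (Fin N) ℝ} (hT : QSym T) : TSym (tn T) := by
  have hN3 : (3 : ℝ) ≤ N := by exact_mod_cast hN
  have hN2 : (2 * ((N : ℝ) - 2)) ≠ 0 := by
    intro h
    linarith
  refine ⟨?_, ?_, ?_⟩
  · intro a b c d
    unfold tn
    rw [SoT_swap, map_neg]
    rfl
  · intro a b c d
    unfold tn
    rw [SoT_skew]
  · intro a b c d
    have h1 := hT (Fm a b) (Fm c d)
    rw [Qf_symm (Fm a b) (T (Fm c d)), SoT_Qf_F, SoT_Qf_F] at h1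
    exact (mul_left_cancel₀ hN2 h1).symm

/-- Every tensor with the symmetries comes from a symmetric endomorphism. -/
theorem exists_op {t : Fin N → Fin N → Fin N → Fin N → ℝ} (ht : TSym t) :
    ∃ T : so (Fin N) ℝ →ₗ[ℝ] so (Fin N) ℝ, QSym T ∧ tn T = t := by
  let T : so (Fin N) ℝ →ₗ[ℝ] so (Fin N) ℝ :=
    { toFun := fun x => ⟨Matrix.of fun c d => (1 / 2 : ℝ) * ∑ a, ∑ b, x.1 a b * t a b c d, by
        rw [mem_so]
        ext c d
        rw [Matrix.transpose_apply, Matrix.neg_apply, Matrix.of_apply, Matrix.of_apply,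
          ← mul_neg, ← Finset.sum_neg_distrib]
        congr 1
        refine Finset.sum_congr rfl fun a _ => ?_
        rw [← Finset.sum_neg_distrib]
        refine Finset.sum_congr rfl fun b _ => ?_
        rw [ht.s2 a b c d]
        ring⟩
      map_add' := by
        intro x y
        apply Subtype.ext
        ext c d
        show (1 / 2 : ℝ) * ∑ a, ∑ b, (x.1 a b + y.1 a b) * t a b c d =
          (1 / 2 : ℝ) * ∑ a, ∑ b, x.1 a b * t a b c d + (1 / 2 : ℝ) * ∑ a, ∑ b, y.1 a b * t a b c d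
        simp only [add_mul, Finset.sum_add_distrib]
        ring
      map_smul' := by
        intro r x
        apply Subtype.ext
        ext c d
        show (1 / 2 : ℝ) * ∑ a, ∑ b, (r * x.1 a b) * t a b c d =
          r * ((1 / 2 : ℝ) * ∑ a, ∑ b, x.1 a b * t a b c d)
        simp only [mul_assoc, ← Finset.mul_sum]
        ring }
  have hTe : ∀ x c d, (T x).1 c d = (1 / 2 : ℝ) * ∑ a, ∑ b, x.1 a b * t a b c d :=
    fun x c d => rfl
  refine ⟨T, ?_, ?_⟩
  · intro x y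
    rw [Qf_so, Qf_so]
    congr 1
    have e1 : ∑ c, ∑ d, (T x).1 c d * y.1 c d =
        (1 / 2) * ∑ a, ∑ b, ∑ c, ∑ d, x.1 a b * y.1 c d * t a b c d := by
      simp only [hTe]
      have : ∀ c d, (1 / 2 : ℝ) * (∑ a, ∑ b, x.1 a b * t a b c d) * y.1 c d =
          (1 / 2) * ∑ a, ∑ b, x.1 a b * y.1 c d * t a b c d := by
        intro c d
        rw [mul_assoc, Finset.sum_mul]
        congr 1
        refine Finset.sum_congr rfl fun a _ => ?_
        rw [Finset.sum_mul]
        refine Finset.sum_congr rfl fun b _ => ?_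
        ring
      simp only [this, ← Finset.mul_sum]
      congr 1
      calc ∑ c, ∑ d, ∑ a, ∑ b, x.1 a b * y.1 c d * t a b c d
          = ∑ c, ∑ a, ∑ d, ∑ b, x.1 a b * y.1 c d * t a b c d :=
            Finset.sum_congr rfl fun c _ => Finset.sum_comm
        _ = ∑ a, ∑ c, ∑ d, ∑ b, x.1 a b * y.1 c d * t a b c d := Finset.sum_comm
        _ = ∑ a, ∑ c, ∑ b, ∑ d, x.1 a b * y.1 c d * t a b c d :=
            Finset.sum_congr rfl fun a _ => Finset.sum_congr rfl fun c _ => Finset.sum_comm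
        _ = ∑ a, ∑ b, ∑ c, ∑ d, x.1 a b * y.1 c d * t a b c d :=
            Finset.sum_congr rfl fun a _ => Finset.sum_comm
    have e2 : ∑ a, ∑ b, x.1 a b * (T y).1 a b =
        (1 / 2) * ∑ a, ∑ b, ∑ c, ∑ d, x.1 a b * y.1 c d * t a b c d := by
      simp only [hTe, Finset.mul_sum]
      refine Finset.sum_congr rfl fun a _ => Finset.sum_congr rfl fun b _ =>
        Finset.sum_congr rfl fun c _ => Finset.sum_congr rfl fun d _ => ?_
      rw [ht.s3 a b c d]
      ring
    rw [e1, e2]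
  · funext a b c d
    show (T (Fm a b)).1 c d = t a b c d
    rw [hTe]
    have h2 : ∀ (p q : Fin N), ∑ i, ∑ j, (if p = i then (if q = j then t i j c d else 0) else 0) =
        t p q c d := by
      intro p q
      rw [Finset.sum_eq_single p]
      · simp
      · intro i _ hi
        simp [Ne.symm hi]
      · intro h
        exact absurd (Finset.mem_univ p) h
    simp only [SoT_F_apply, sub_mul, Finset.sum_sub_distrib, ite_mul, one_mul, zero_mul, ite_and]
    rw [h2, h2, ht.s1 a b c d]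
    ring

private theorem SoT_TH_F (hN : 3 ≤ N) {T : so (Fin N) ℝ →ₗ[ℝ] so (Fin N) ℝ} (hT : QSym T)
    (a b c d : Fin N) : TH T (Fm a b) (Fm c d) =
      (if b = d then (1 : ℝ) else 0) * (∑ j, tn T a j c j)
      - (if b = c then (1 : ℝ) else 0) * (∑ j, tn T a j d j)
      - (if a = d then (1 : ℝ) else 0) * (∑ j, tn T b j c j)
      + (if a = c then (1 : ℝ) else 0) * (∑ j, tn T b j d j)
      - 2 * tn T a d c b + 2 * tn T a c d b := by
  obtain ⟨s1, s2, s3⟩ := tn_sym hN hT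
  have ht : ∀ a b c d, tn T a b c d = (T (Fm a b)).1 c d := fun _ _ _ _ => rfl
  generalize tn T = t at s1 s2 s3 ht ⊢
  have hZ : ∀ c d i j k l, (T ⁅Fm c d, Fm i j⁆).1 k l =
      (if d = i then (1 : ℝ) else 0) * t c j k l - (if c = i then (1 : ℝ) else 0) * t d j k l
      - (if d = j then (1 : ℝ) else 0) * t c i k l + (if c = j then (1 : ℝ) else 0) * t d i k l := by
    intro c d i j k l
    rw [SoT_FF, map_add, map_sub, map_sub, map_smul, map_smul, map_smul, map_smul, ht, ht, ht, ht]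
    rfl
  obtain ⟨ρ, hρ⟩ : ∃ ρ : Fin N → Fin N → ℝ, ∀ a c, ρ a c = ∑ j, t a j c j := ⟨_, fun _ _ => rfl⟩
  have hρs : ∀ a c, ρ c a = ρ a c := by
    intro a c
    rw [hρ, hρ]
    refine Finset.sum_congr rfl fun j _ => ?_
    rw [s3]
  have hA : ∀ a b c d, ∑ j, (T ⁅Fm c d, Fm a j⁆).1 b j =
      (if d = a then (1 : ℝ) else 0) * ρ c b - (if c = a then (1 : ℝ) else 0) * ρ d b
        - t c a b d + t d a b c := by
    intro a b c d
    simp only [hZ, Finset.sum_add_distrib, Finset.sum_sub_distrib,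
      ite_mul, one_mul, zero_mul, Finset.sum_ite_eq, Finset.mem_univ, if_true]
    rw [hρ, hρ]
    split_ifs <;> simp
  unfold TH
  rw [SoT_trace]
  have h2 : ∀ i j, (((LieAlgebra.ad ℝ (so (Fin N) ℝ)) (Fm a b) ∘ₗ T ∘ₗ
      (LieAlgebra.ad ℝ (so (Fin N) ℝ)) (Fm c d)) (Fm i j)).1 i j =
      (⁅Fm a b, T ⁅Fm c d, Fm i j⁆⁆ : so (Fin N) ℝ).1 i j := fun i j => rfl
  have h3 : ∑ i, ∑ j, (⁅Fm a b, T ⁅Fm c d, Fm i j⁆⁆ : so (Fin N) ℝ).1 i j =
      2 * ∑ j, (T ⁅Fm c d, Fm a j⁆).1 b j - 2 * ∑ j, (T ⁅Fm c d, Fm b j⁆).1 a j := by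
    have h4 : ∀ p q i, (T ⁅Fm c d, Fm i p⁆).1 i q = (T ⁅Fm c d, Fm p i⁆).1 q i := by
      intro p q i
      rw [SoT_swap p i, lie_neg, map_neg, SoT_skew _ i q]
      show - - _ = _
      rw [neg_neg]
    simp only [SoT_Fbr, Finset.sum_add_distrib, Finset.sum_sub_distrib, ite_mul, one_mul,
      zero_mul, Finset.sum_ite_eq, Finset.mem_univ, if_true, h4]
    have h5 : ∀ (p q : Fin N), ∑ i, ∑ j, (if p = i then (T ⁅Fm c d, Fm i j⁆).1 q j else 0)
        = ∑ j, (T ⁅Fm c d, Fm p j⁆).1 q j := by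
      intro p q
      rw [Finset.sum_eq_single p]
      · simp
      · intro i _ hi
        simp [Ne.symm hi]
      · intro h
        exact absurd (Finset.mem_univ p) h
    rw [h5, h5]
    ring
  simp only [h2]
  rw [h3, hA, hA]
  have e1 : t c a b d = t a c d b := by rw [s1 a c b d, s2 a c b d]
  have e2 : t d a b c = t a d c b := by rw [s1 a d b c, s2 a d b c]
  have e3 : t c b a d = t a d c b := s3 a d c b
  have e4 : t d b a c = t a c d b := s3 a c d b
  rw [e1, e2, e3, e4, ← hρ, ← hρ, ← hρ, ← hρ, hρs b c, hρs b d, hρs a c, hρs a d]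
  simp only [eq_comm (a := d) (b := a), eq_comm (a := c) (b := a), eq_comm (a := d) (b := b),
    eq_comm (a := c) (b := b)]
  ring

/-- the form of `Θ T` is bilinear -/
private noncomputable def SoT_B (T : so (Fin N) ℝ →ₗ[ℝ] so (Fin N) ℝ) :
    so (Fin N) ℝ →ₗ[ℝ] so (Fin N) ℝ →ₗ[ℝ] ℝ :=
  LinearMap.mk₂ ℝ (TH T)
    (by
      intro x y z
      unfold TH
      rw [map_add, LinearMap.add_comp, map_add]
      ring)
    (by
      intro c x z
      unfold TH
      rw [map_smul, LinearMap.smul_comp, map_smul, smul_eq_mul, smul_eq_mul]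
      ring)
    (by
      intro x y z
      unfold TH
      rw [map_add, LinearMap.comp_add, LinearMap.comp_add, map_add]
      ring)
    (by
      intro c x z
      unfold TH
      rw [map_smul, LinearMap.comp_smul, LinearMap.comp_smul, map_smul, smul_eq_mul, smul_eq_mul]
      ring)

private theorem SoT_B_apply (T : so (Fin N) ℝ →ₗ[ℝ] so (Fin N) ℝ) (x y : so (Fin N) ℝ) :
    SoT_B T x y = TH T x y := rfl

private theorem SoT_expand (T : so (Fin N) ℝ →ₗ[ℝ] so (Fin N) ℝ) (x y : so (Fin N) ℝ) :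
    TH T x y = (1 / 4) * ∑ a, ∑ b, ∑ c, ∑ d, x.1 a b * y.1 c d * TH T (Fm a b) (Fm c d) := by
  have h1 : ∀ z, TH T z y = (1 / 2) * ∑ c, ∑ d, y.1 c d * TH T z (Fm c d) := by
    intro z
    rw [← SoT_B_apply]
    conv_lhs => rw [SoT_sum y]
    rw [map_smul, map_sum, smul_eq_mul]
    congr 1
    refine Finset.sum_congr rfl fun i _ => ?_
    rw [map_sum]
    refine Finset.sum_congr rfl fun j _ => ?_
    rw [map_smul, smul_eq_mul, SoT_B_apply]
  have h2 : ∀ z, TH T x z = (1 / 2) * ∑ a, ∑ b, x.1 a b * TH T (Fm a b) z := by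
    intro z
    rw [← SoT_B_apply]
    conv_lhs => rw [SoT_sum x]
    rw [map_smul, map_sum, LinearMap.smul_apply, LinearMap.sum_apply, smul_eq_mul]
    congr 1
    refine Finset.sum_congr rfl fun i _ => ?_
    rw [map_sum, LinearMap.sum_apply]
    refine Finset.sum_congr rfl fun j _ => ?_
    rw [map_smul, LinearMap.smul_apply, smul_eq_mul, SoT_B_apply]
  rw [h2]
  have h3 : ∀ a b, x.1 a b * TH T (Fm a b) y =
      (1 / 2) * ∑ c, ∑ d, x.1 a b * y.1 c d * TH T (Fm a b) (Fm c d) := by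
    intro a b
    rw [h1, mul_left_comm, Finset.mul_sum]
    congr 1
    refine Finset.sum_congr rfl fun c _ => ?_
    rw [Finset.mul_sum]
    refine Finset.sum_congr rfl fun d _ => ?_
    ring
  simp only [h3, ← Finset.mul_sum]
  ring

/-- The form of `Θ T`. -/
theorem TH_so (hN : 3 ≤ N) {T : so (Fin N) ℝ →ₗ[ℝ] so (Fin N) ℝ} (hT : QSym T)
    (x : so (Fin N) ℝ) :
    TH T x x = ∑ a, ∑ b, ∑ c, x.1 a b * x.1 c b * (∑ j, tn T a j c j)
      + (1 / 2) * ∑ a, ∑ b, ∑ c, ∑ d, x.1 a b * x.1 c d * (tn T a c d b - tn T a d c b) := by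
  rw [SoT_expand]
  obtain ⟨ρ, hρ⟩ : ∃ ρ : Fin N → Fin N → ℝ, ∀ a c, ρ a c = ∑ j, tn T a j c j :=
    ⟨_, fun _ _ => rfl⟩
  simp only [SoT_TH_F hN hT, ← hρ]
  obtain ⟨S, hS⟩ : ∃ S : ℝ, S = ∑ a, ∑ b, ∑ c, x.1 a b * x.1 c b * ρ a c := ⟨_, rfl⟩
  rw [← hS]
  have e1 : ∑ a, ∑ b, ∑ c, ∑ d, x.1 a b * x.1 c d * ((if b = d then (1 : ℝ) else 0) * ρ a c) = S := by
    rw [hS]
    refine Finset.sum_congr rfl fun a _ => Finset.sum_congr rfl fun b _ =>
      Finset.sum_congr rfl fun c _ => ?_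
    simp only [ite_mul, one_mul, zero_mul, mul_ite, mul_zero, Finset.sum_ite_eq,
      Finset.mem_univ, if_true]
  have e2 : ∑ a, ∑ b, ∑ c, ∑ d, x.1 a b * x.1 c d * ((if b = c then (1 : ℝ) else 0) * ρ a d) = -S := by
    rw [hS, ← Finset.sum_neg_distrib]
    refine Finset.sum_congr rfl fun a _ => ?_
    rw [← Finset.sum_neg_distrib]
    refine Finset.sum_congr rfl fun b _ => ?_
    rw [← Finset.sum_neg_distrib, Finset.sum_comm]
    refine Finset.sum_congr rfl fun d _ => ?_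
    simp only [ite_mul, one_mul, zero_mul, mul_ite, mul_zero, Finset.sum_ite_eq,
      Finset.mem_univ, if_true]
    rw [SoT_skew x b d]
    ring
  have e3 : ∑ a, ∑ b, ∑ c, ∑ d, x.1 a b * x.1 c d * ((if a = d then (1 : ℝ) else 0) * ρ b c) = -S := by
    rw [hS, Finset.sum_comm, ← Finset.sum_neg_distrib]
    refine Finset.sum_congr rfl fun a _ => ?_
    rw [← Finset.sum_neg_distrib]
    refine Finset.sum_congr rfl fun b _ => ?_
    rw [← Finset.sum_neg_distrib]
    refine Finset.sum_congr rfl fun c _ => ?_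
    simp only [ite_mul, one_mul, zero_mul, mul_ite, mul_zero, Finset.sum_ite_eq,
      Finset.mem_univ, if_true]
    rw [SoT_skew x b a]
    ring
  have e4 : ∑ a, ∑ b, ∑ c, ∑ d, x.1 a b * x.1 c d * ((if a = c then (1 : ℝ) else 0) * ρ b d) = S := by
    rw [hS, Finset.sum_comm]
    refine Finset.sum_congr rfl fun a _ => ?_
    refine Finset.sum_congr rfl fun b _ => ?_
    rw [Finset.sum_comm]
    refine Finset.sum_congr rfl fun d _ => ?_
    simp only [ite_mul, one_mul, zero_mul, mul_ite, mul_zero, Finset.sum_ite_eq,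
      Finset.mem_univ, if_true]
    rw [SoT_skew x b a, SoT_skew x b d]
    ring
  have e5 : ∑ a, ∑ b, ∑ c, ∑ d, x.1 a b * x.1 c d *
      ((if b = d then (1 : ℝ) else 0) * ρ a c - (if b = c then (1 : ℝ) else 0) * ρ a d
      - (if a = d then (1 : ℝ) else 0) * ρ b c + (if a = c then (1 : ℝ) else 0) * ρ b d
      - 2 * tn T a d c b + 2 * tn T a c d b) =
      ∑ a, ∑ b, ∑ c, ∑ d, x.1 a b * x.1 c d * ((if b = d then (1 : ℝ) else 0) * ρ a c)
      - ∑ a, ∑ b, ∑ c, ∑ d, x.1 a b * x.1 c d * ((if b = c then (1 : ℝ) else 0) * ρ a d)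
      - ∑ a, ∑ b, ∑ c, ∑ d, x.1 a b * x.1 c d * ((if a = d then (1 : ℝ) else 0) * ρ b c)
      + ∑ a, ∑ b, ∑ c, ∑ d, x.1 a b * x.1 c d * ((if a = c then (1 : ℝ) else 0) * ρ b d)
      + 2 * ∑ a, ∑ b, ∑ c, ∑ d, x.1 a b * x.1 c d * (tn T a c d b - tn T a d c b) := by
    simp only [Finset.mul_sum, ← Finset.sum_sub_distrib, ← Finset.sum_add_distrib]
    refine Finset.sum_congr rfl fun a _ => Finset.sum_congr rfl fun b _ =>
      Finset.sum_congr rfl fun c _ => Finset.sum_congr rfl fun d _ => ?_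
    ring
  rw [e5, e1, e2, e3, e4]
  ring

end Pool.Agent.SmIso
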