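import Pool.Agent.SmIso.Nrm

/-!
# From the Lie algebra to matrices

* `CF_sym`: `Qf_lie'`, `lie_skew`.
* `UU_CF_one`: `IsFrame.killing`: `Qf ⁅x, y⁆`-sums; `UU (CF e) 1 1` at `(x, y)` is
  `∑ i, ∑ j, Qf ⁅e x, e i⁆ (e j) * Qf ⁅e y, e i⁆ (e j) = ∑ i, Qf ⁅e x, e i⁆ ⁅e y, e i⁆ = Qf (e x) (e y)`.
* `TH_frame`: for a full frame `e`, `TH T x y = ∑ i, Qf (T ⁅y, e i⁆) ⁅x, e i⁆` (`IsFrame.trace_eq`, `Qf_lie'`).
* `CF_inv`: `mat_orth`, `adm_equiv`, `apply_frame`, `adm_sum` (as in `Setup.sym`, `EinS/Inv.lean`).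
* `fullGap`: for symmetric `α` let `T x = ∑ i, (α *ᵥ co e x) i • e i`; then `Qf (T x) y = co e y ⬝ᵥ (α *ᵥ co e x)`,
  `TH T x x = co e x ⬝ᵥ (UU (CF e) 1 α *ᵥ co e x)` (`TH_frame`, `UU_quad`, `lc_CF`); invariance under `mat δ e`
  gives `T (δ x) = δ (T x)` (`co_equiv`).  Apply `Gap` with `s = ‖α - 2 UU (CF e) 1 α‖` (`quad_le_norm`,
  `Qf x x = co e x ⬝ᵥ co e x` by `IsFrame.parseval`), then `norm_le_of_quad`.
* `cas_frame`: let `f` be a frame of `h` and `e` a frame of `perp h`; the form of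
  `UU (CF (Sum.elim f e)) 1 (fromBlocks 1 0 0 0)` at `v` (with `x` the element with coordinates `v`) is
  `∑ i, ∑ j, (Qf ⁅x, ê i⁆ (f j))² = ∑ j, ∑ i, (Qf ⁅f j, x⁆ (ê i))² = ∑ j, Qf ⁅f j, x⁆ ⁅f j, x⁆ ≤ δ Qf x x`.
-/

namespace Pool.Agent.SmIso

open Matrix Pool.Agent.EStab Pool.Agent.EinS
open scoped Matrix.Norms.L2Operator

variable {L : Type*} [LieRing L] [LieAlgebra ℝ L] {ι κ : Type*} [Fintype ι] [DecidableEq ι]
  [Fintype κ] [DecidableEq κ]

private theorem GapF_trace_UU (C : ι → Matrix ι ι ℝ) (x y : ι) :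
    UU C 1 1 x y = ∑ i, ∑ j, C x i j * C y i j := by
  unfold UU
  rw [Matrix.of_apply, Matrix.mul_one, Matrix.mul_one]
  unfold trace
  refine Finset.sum_congr rfl fun i _ => ?_
  rw [Matrix.diag_apply, Matrix.mul_apply]
  refine Finset.sum_congr rfl fun j _ => ?_
  rw [Matrix.transpose_apply]

theorem CF_sym (e : ι → L) : CSym (CF e) := by
  refine ⟨fun x => ?_, fun x y z => ?_⟩
  · ext y z
    rw [Matrix.transpose_apply, Matrix.neg_apply]
    change Qf L ⁅e x, e z⁆ (e y) = -(Qf L ⁅e x, e y⁆ (e z))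
    rw [Qf_lie', Qf_symm (e z)]
  · change Qf L ⁅e y, e x⁆ (e z) = -(Qf L ⁅e x, e y⁆ (e z))
    rw [← lie_skew, map_neg, LinearMap.neg_apply]

theorem UU_CF_one {e : ι → L} (he : IsFrame (⊤ : Submodule ℝ L) e) : UU (CF e) 1 1 = 1 := by
  ext x y
  rw [GapF_trace_UU, Matrix.one_apply, ← he.orth x y, he.killing (e x) (e y)]
  refine Finset.sum_congr rfl fun i _ => ?_
  rw [he.parseval Submodule.mem_top]
  rfl

theorem TH_frame {e : ι → L} (he : IsFrame (⊤ : Submodule ℝ L) e) (T : L →ₗ[ℝ] L) (x y : L) :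
    TH T x y = ∑ i, Qf L (T ⁅y, e i⁆) ⁅x, e i⁆ := by
  unfold TH
  rw [he.trace_eq, ← Finset.sum_neg_distrib]
  refine Finset.sum_congr rfl fun i _ => ?_
  change -(Qf L ⁅x, T ⁅y, e i⁆⁆ (e i)) = _
  rw [Qf_lie', neg_neg]

theorem CF_inv {W : Submodule ℝ L} {e : ι → L} (he : IsFrame W e) {δ : L ≃ₗ⁅ℝ⁆ L}
    (hW : EinS.Pres δ W) : CInv (CF e) (mat δ e) := by
  refine ⟨mat_orth he hW, fun a => ?_⟩
  change mat δ e * adm e (e a) * (mat δ e)ᵀ = _
  rw [adm_equiv he hW, apply_frame he hW, adm_sum]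
  rfl

/-- the endomorphism with the matrix `α` -/
private noncomputable def GapF_op (e : ι → L) (α : Matrix ι ι ℝ) : L →ₗ[ℝ] L where
  toFun x := ∑ i, (α *ᵥ co e x) i • e i
  map_add' x y := by
    rw [map_add, Matrix.mulVec_add, ← Finset.sum_add_distrib]
    refine Finset.sum_congr rfl fun i _ => ?_
    rw [Pi.add_apply, add_smul]
  map_smul' c x := by
    rw [map_smul, Matrix.mulVec_smul, RingHom.id_apply, Finset.smul_sum]
    refine Finset.sum_congr rfl fun i _ => ?_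
    rw [Pi.smul_apply, smul_eq_mul, smul_smul]

private theorem GapF_op_apply (e : ι → L) (α : Matrix ι ι ℝ) (x : L) :
    GapF_op e α x = ∑ i, (α *ᵥ co e x) i • e i := rfl

private theorem GapF_Qf_op (e : ι → L) (α : Matrix ι ι ℝ) (x y : L) :
    Qf L (GapF_op e α x) y = (α *ᵥ co e x) ⬝ᵥ co e y := by
  rw [GapF_op_apply, Qf_sum]
  refine Finset.sum_congr rfl fun i _ => ?_
  rw [Qf_symm (e i)]
  rfl

private theorem GapF_co_op {W : Submodule ℝ L} {e : ι → L} (he : IsFrame W e)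
    (α : Matrix ι ι ℝ) (x : L) : co e (GapF_op e α x) = α *ᵥ co e x :=
  co_comb he _

private theorem GapF_co_inj {e : ι → L} (he : IsFrame (⊤ : Submodule ℝ L) e) {x y : L}
    (h : co e x = co e y) : x = y := by
  rw [he.exp x Submodule.mem_top, he.exp y Submodule.mem_top]
  refine Finset.sum_congr rfl fun i _ => ?_
  congr 1
  exact congrFun h i

private theorem GapF_symm_dot {α : Matrix ι ι ℝ} (hα : α.IsSymm) (v w : ι → ℝ) :
    (α *ᵥ v) ⬝ᵥ w = v ⬝ᵥ (α *ᵥ w) := by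
  rw [Matrix.dotProduct_mulVec, ← Matrix.mulVec_transpose, hα.eq]

private theorem GapF_lc (e : ι → L) {x : L} (hx : ∑ i, co e x i • e i = x) (y z : ι) :
    lc (CF e) (co e x) y z = co e ⁅x, e y⁆ z := by
  rw [lc_CF, hx]
  rfl

private theorem GapF_lc_anti (e : ι → L) (v : ι → ℝ) : (lc (CF e) v)ᵀ = -(lc (CF e) v) := by
  unfold lc
  rw [Matrix.transpose_sum, ← Finset.sum_neg_distrib]
  refine Finset.sum_congr rfl fun a _ => ?_
  rw [Matrix.transpose_smul, (CF_sym e).anti, smul_neg]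

private theorem GapF_TH {e : ι → L} (he : IsFrame (⊤ : Submodule ℝ L) e) (α : Matrix ι ι ℝ)
    (x : L) : TH (GapF_op e α) x x = co e x ⬝ᵥ (UU (CF e) 1 α *ᵥ co e x) := by
  have hx : ∑ i, co e x i • e i = x := (he.exp x Submodule.mem_top).symm
  rw [TH_frame he, UU_quad]
  set M := lc (CF e) (co e x) with hM
  have h1 : ∀ i, Qf L (GapF_op e α ⁅x, e i⁆) ⁅x, e i⁆ = (M * α * Mᵀ) i i := by
    intro i
    rw [GapF_Qf_op, dotProduct_comm]
    exact quad_row M α i _ fun z => (GapF_lc e hx i z).symm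
  simp only [h1]
  change trace (M * α * Mᵀ) = _
  rw [Matrix.mul_one, GapF_lc_anti e (co e x), ← hM]
  rw [Matrix.mul_neg, Matrix.mul_neg, Matrix.mul_neg, Matrix.trace_neg, Matrix.trace_neg,
    Matrix.trace_mul_comm (M * α) M, Matrix.trace_mul_comm α (M * M), Matrix.mul_assoc]

theorem fullGap {h : LieSubalgebra ℝ L} {K : ℝ} (hK : 0 ≤ K) (hgap : Gap h K) {e : ι → L}
    (he : IsFrame (⊤ : Submodule ℝ L) e) :
    MGap (CF e) {M | ∃ δ : L ≃ₗ⁅ℝ⁆ L, h.map (δ : L →ₗ⁅ℝ⁆ L) = h ∧ M = mat δ e} K := by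
  intro α hα hinv
  have hQ : ∀ x, Qf L x x = co e x ⬝ᵥ co e x := fun x => he.parseval Submodule.mem_top x
  have hsym : QSym (GapF_op e α) := by
    intro x y
    rw [GapF_Qf_op, Qf_symm x, GapF_Qf_op, GapF_symm_dot hα, dotProduct_comm]
  have hcomm : ∀ δ : L ≃ₗ⁅ℝ⁆ L, h.map (δ : L →ₗ⁅ℝ⁆ L) = h →
      ∀ x, GapF_op e α (δ x) = δ (GapF_op e α x) := by
    intro δ hδ x
    have hT : EinS.Pres δ (⊤ : Submodule ℝ L) :=
      ⟨fun _ _ => Submodule.mem_top, fun _ _ => Submodule.mem_top⟩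
    have h1 := hinv (mat δ e) ⟨δ, hδ, rfl⟩
    have h2 : mat δ e * (mat δ e)ᵀ = 1 := mat_orth he hT
    have h3 : (mat δ e)ᵀ * mat δ e = 1 := mul_eq_one_comm.1 h2
    have h4 : mat δ e * α = α * mat δ e := by
      calc mat δ e * α = mat δ e * α * ((mat δ e)ᵀ * mat δ e) := by rw [h3, Matrix.mul_one]
        _ = (mat δ e * α * (mat δ e)ᵀ) * mat δ e := by simp only [Matrix.mul_assoc]
        _ = α * mat δ e := by rw [h1]
    apply GapF_co_inj he
    rw [GapF_co_op he, co_equiv he hT, co_equiv he hT, GapF_co_op he, Matrix.mulVec_mulVec,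
      Matrix.mulVec_mulVec, h4]
  set s := ‖α - (2 : ℝ) • UU (CF e) 1 α‖ with hs
  have hs0 : 0 ≤ s := norm_nonneg _
  have hbound : ∀ x, |Qf L (GapF_op e α x) x - 2 * TH (GapF_op e α) x x| ≤ s * Qf L x x := by
    intro x
    have h1 := quad_le_norm (α - (2 : ℝ) • UU (CF e) 1 α) (co e x)
    rw [GapF_Qf_op, GapF_TH he, hQ, GapF_symm_dot hα]
    rw [Matrix.sub_mulVec, Matrix.smul_mulVec, dotProduct_sub, dotProduct_smul, smul_eq_mul] at h1
    exact h1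
  have hfin := hgap (GapF_op e α) hsym hcomm s hbound
  refine norm_le_of_quad hα (mul_nonneg hK hs0) fun v => ?_
  have h1 := hfin (∑ i, v i • e i)
  rw [GapF_Qf_op, hQ, co_comb he, GapF_symm_dot hα] at h1
  exact h1

private theorem GapF_block (n : ℕ) (A : Matrix (Fin n ⊕ ι) (Fin n ⊕ ι) ℝ) :
    trace ((fromBlocks 1 0 0 0 : Matrix (Fin n ⊕ ι) (Fin n ⊕ ι) ℝ) * A) =
      ∑ j : Fin n, A (Sum.inl j) (Sum.inl j) := by
  unfold trace
  rw [Fintype.sum_sum_type]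
  have h1 : ∀ i : ι, (((fromBlocks 1 0 0 0 : Matrix (Fin n ⊕ ι) (Fin n ⊕ ι) ℝ) * A).diag
      (Sum.inr i)) = 0 := by
    intro i
    rw [Matrix.diag_apply, Matrix.mul_apply, Fintype.sum_sum_type]
    simp
  have h2 : ∀ j : Fin n, (((fromBlocks 1 0 0 0 : Matrix (Fin n ⊕ ι) (Fin n ⊕ ι) ℝ) * A).diag
      (Sum.inl j)) = A (Sum.inl j) (Sum.inl j) := by
    intro j
    rw [Matrix.diag_apply, Matrix.mul_apply, Fintype.sum_sum_type]
    simp [Matrix.one_apply]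
  simp only [h1, h2, Finset.sum_const_zero, add_zero]

theorem cas_frame {h : LieSubalgebra ℝ L} {δ : ℝ} (hc : CasimirSmall h δ) {n : ℕ} {f : Fin n → L}
    (hf : IsFrame h.toSubmodule f) {e : ι → L} (he : IsFrame (perp h.toSubmodule) e) (v) :
    v ⬝ᵥ (UU (CF (Sum.elim f e)) 1 (fromBlocks 1 0 0 0) *ᵥ v) ≤ δ * (v ⬝ᵥ v) := by
  have hF : IsFrame (⊤ : Submodule ℝ L) (Sum.elim f e) := hf.full he
  set x : L := ∑ z, v z • Sum.elim f e z with hx
  have hco : co (Sum.elim f e) x = v := co_comb hF v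
  have hQ : Qf L x x = v ⬝ᵥ v := by
    have h1 : Qf L x x = co (Sum.elim f e) x ⬝ᵥ co (Sum.elim f e) x :=
      hF.parseval Submodule.mem_top x
    rw [h1, hco]
  rw [UU_quad, GapF_block]
  set M : Matrix (Fin n ⊕ ι) (Fin n ⊕ ι) ℝ := lc (CF (Sum.elim f e)) v with hM
  have h1 : ∀ j : Fin n, ((M * (1 : Matrix (Fin n ⊕ ι) (Fin n ⊕ ι) ℝ) * Mᵀ :
      Matrix (Fin n ⊕ ι) (Fin n ⊕ ι) ℝ)) (Sum.inl j) (Sum.inl j) =
      -killingForm ℝ L ⁅f j, x⁆ ⁅f j, x⁆ := by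
    intro j
    have h0 : ⁅f j, x⁆ = -⁅x, f j⁆ := (lie_skew _ _).symm
    have h2 : Qf L ⁅x, f j⁆ ⁅x, f j⁆ = -killingForm ℝ L ⁅f j, x⁆ ⁅f j, x⁆ := by
      rw [h0, Qf_apply]
      simp only [map_neg, LinearMap.neg_apply, neg_neg]
    rw [← h2, Matrix.mul_one, Matrix.mul_apply, hF.parseval Submodule.mem_top]
    refine Finset.sum_congr rfl fun z _ => ?_
    rw [Matrix.transpose_apply, hM, lc_CF]
    rfl
  simp only [h1]
  have h3 := hc n f hf.mem (fun i j => by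
    have h4 := hf.orth i j
    rw [Qf_apply] at h4
    split_ifs at h4 ⊢ with hij
    · linarith
    · linarith) x
  have h5 : -killingForm ℝ L x x = Qf L x x := rfl
  rw [h5, hQ] at h3
  exact h3

end Pool.Agent.SmIso
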