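import Pool.Agent.SmIso.Err
import Pool.Agent.Lib.Brouwer

/-!
# Solution of the Einstein equation near the normal metric

`V` = the symmetric `α` with `κ * α * κᵀ = α` for all `κ ∈ Γ`, a subspace of the matrices.  `ℓ α = α - 2 UU C 1 α`
maps `V` to `V` (`EinS.UU_inv`, `EinS.UU_symm`); by `MGap` it is injective, hence bijective (finite
dimension), and `‖ℓ⁻¹ β‖ ≤ K ‖β‖`.  Put `F α = RicM C (1 + α) (1 + α)⁻¹ - (1/4) (1 + α)`, an element of `V`
(`EinS.conj_inv`), and `Ψ α = α - 4 ℓ⁻¹ (F α) = - 4 ℓ⁻¹ (F α - (1/4) ℓ α)`.  By `err_bound`, for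
`‖α‖ ≤ r := 4 K δ`: `‖Ψ α‖ ≤ 4 K (δ/2 + δ r + 5 r²) ≤ r`, since `200 K² δ ≤ 1`, `K ≥ 1` (also `r ≤ 1/50`).
`Ψ` is continuous on `{α ∈ V | ‖α‖ ≤ r}`, compact and convex; `Pool.Lib.brouwer_fixed_point_convex`.
A fixed point has `F α = 0`; `G = 1 + α`; `x ⬝ G x ≥ (1 - r) x ⬝ x` by `quad_le_norm`.
(`h2` gives `‖1 - UU C 1 1‖ ≤ 2 δ` by `norm_le_of_quad`.)
-/

namespace Pool.Agent.SmIso

open Matrix Pool.Agent.EStab Pool.Agent.EinS
open scoped Matrix.Norms.L2Operator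

variable {ι : Type*} [Fintype ι] [DecidableEq ι]

/-- the symmetric matrices invariant under `Γ` -/
private def Abs_V (Γ : Set (Matrix ι ι ℝ)) : Submodule ℝ (Matrix ι ι ℝ) where
  carrier := {α | α.IsSymm ∧ ∀ κ ∈ Γ, κ * α * κᵀ = α}
  add_mem' := by
    rintro a b ⟨ha, ha'⟩ ⟨hb, hb'⟩
    refine ⟨?_, fun κ hκ => ?_⟩
    · unfold Matrix.IsSymm at ha hb ⊢
      rw [Matrix.transpose_add, ha, hb]
    · rw [Matrix.mul_add, Matrix.add_mul, ha' κ hκ, hb' κ hκ]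
  zero_mem' := by
    refine ⟨Matrix.transpose_zero, fun κ hκ => ?_⟩
    rw [Matrix.mul_zero, Matrix.zero_mul]
  smul_mem' := by
    rintro c a ⟨ha, ha'⟩
    refine ⟨?_, fun κ hκ => ?_⟩
    · unfold Matrix.IsSymm at ha ⊢
      rw [Matrix.transpose_smul, ha]
    · rw [Matrix.mul_smul, Matrix.smul_mul, ha' κ hκ]

private theorem Abs_one {C : ι → Matrix ι ι ℝ} {Γ : Set (Matrix ι ι ℝ)}
    (hΓ : ∀ κ ∈ Γ, CInv C κ) : (1 : Matrix ι ι ℝ) ∈ Abs_V Γ := by
  refine ⟨Matrix.isSymm_one, fun κ hκ => ?_⟩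
  rw [Matrix.mul_one]
  exact (hΓ κ hκ).1

private theorem Abs_UU {C : ι → Matrix ι ι ℝ} {Γ : Set (Matrix ι ι ℝ)}
    (hΓ : ∀ κ ∈ Γ, CInv C κ) {A B : Matrix ι ι ℝ} (hA : A ∈ Abs_V Γ) (hB : B ∈ Abs_V Γ) :
    UU C A B ∈ Abs_V Γ :=
  ⟨UU_symm C hA.1 hB.1, fun κ hκ =>
    UU_inv (hΓ κ hκ).1 (hΓ κ hκ).1 (hΓ κ hκ).2 (hA.2 κ hκ) (hB.2 κ hκ)⟩

private theorem Abs_inv {C : ι → Matrix ι ι ℝ} {Γ : Set (Matrix ι ι ℝ)}
    (hΓ : ∀ κ ∈ Γ, CInv C κ) {A : Matrix ι ι ℝ} (hA : A ∈ Abs_V Γ) : A⁻¹ ∈ Abs_V Γ := by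
  refine ⟨?_, fun κ hκ => conj_inv (hΓ κ hκ).1 (hA.2 κ hκ)⟩
  unfold Matrix.IsSymm
  rw [Matrix.transpose_nonsing_inv, hA.1.eq]

private theorem Abs_RicM {C : ι → Matrix ι ι ℝ} {Γ : Set (Matrix ι ι ℝ)}
    (hΓ : ∀ κ ∈ Γ, CInv C κ) {A : Matrix ι ι ℝ} (hA : A ∈ Abs_V Γ) :
    RicM C A A⁻¹ ∈ Abs_V Γ := by
  have hAi := Abs_inv hΓ hA
  have h1 := Abs_UU hΓ hAi hAi
  have h2 : A * UU C A⁻¹ A⁻¹ * A ∈ Abs_V Γ := by
    refine ⟨?_, fun κ hκ => ?_⟩
    · unfold Matrix.IsSymm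
      rw [Matrix.transpose_mul, Matrix.transpose_mul, hA.1.eq, h1.1.eq, Matrix.mul_assoc]
    · have hk : κᵀ * κ = 1 := mul_eq_one_comm.1 (hΓ κ hκ).1
      have e1 := hA.2 κ hκ
      have e2 := h1.2 κ hκ
      calc κ * (A * UU C A⁻¹ A⁻¹ * A) * κᵀ
          = κ * A * 1 * UU C A⁻¹ A⁻¹ * 1 * A * κᵀ := by
            simp only [Matrix.mul_one, Matrix.mul_assoc]
        _ = (κ * A * κᵀ) * (κ * UU C A⁻¹ A⁻¹ * κᵀ) * (κ * A * κᵀ) := by
            rw [← hk]
            simp only [Matrix.mul_assoc]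
        _ = _ := by rw [e1, e2]
  unfold RicM
  refine Submodule.add_mem _ (Submodule.sub_mem _ (Submodule.smul_mem _ _ (Abs_one hΓ))
    (Submodule.smul_mem _ _ (Abs_UU hΓ hA hAi))) (Submodule.smul_mem _ _ h2)

omit [DecidableEq ι] in
private theorem Abs_contU {X : Type*} [TopologicalSpace X] (C : ι → Matrix ι ι ℝ)
    {f g : X → Matrix ι ι ℝ} (hf : Continuous f) (hg : Continuous g) :
    Continuous fun x => UU C (f x) (g x) := by
  refine continuous_matrix fun i j => ?_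
  change Continuous fun x => trace (C i * f x * (C j)ᵀ * g x)
  exact (((continuous_const.matrix_mul hf).matrix_mul continuous_const).matrix_mul
    hg).matrix_trace

private theorem Abs_contR {X : Type*} [TopologicalSpace X] (C : ι → Matrix ι ι ℝ)
    {f g : X → Matrix ι ι ℝ} (hf : Continuous f) (hg : Continuous g) :
    Continuous fun x => RicM C (f x) (g x) := by
  have h0 := Abs_contU C hf hg
  have h1 := Abs_contU C hg hg
  have h2 := (hf.matrix_mul h1).matrix_mul hf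
  unfold RicM
  refine Continuous.add (Continuous.sub continuous_const ?_) ?_
  · exact h0.fun_const_smul _
  · exact h2.fun_const_smul _

private theorem Abs_contI {s : Set (Matrix ι ι ℝ)} (hs : ∀ A ∈ s, IsUnit A.det) :
    ContinuousOn (fun A : Matrix ι ι ℝ => A⁻¹) s := by
  have h1 : ∀ A : Matrix ι ι ℝ, A⁻¹ = (A.det)⁻¹ • A.adjugate := fun A => by
    rw [Matrix.inv_def, Ring.inverse_eq_inv']
  have h2 : (fun A : Matrix ι ι ℝ => A⁻¹) = fun A => (A.det)⁻¹ • A.adjugate := funext h1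
  rw [h2]
  have hd : Continuous fun A : Matrix ι ι ℝ => A.det := continuous_id.matrix_det
  have ha : Continuous fun A : Matrix ι ι ℝ => A.adjugate := continuous_id.matrix_adjugate
  exact (hd.continuousOn.inv₀ fun A hA => (hs A hA).ne_zero).smul ha.continuousOn

theorem abs_main {C : ι → Matrix ι ι ℝ} (hC : CSym C) {Γ : Set (Matrix ι ι ℝ)}
    (hΓ : ∀ κ ∈ Γ, CInv C κ) {K δ : ℝ} (hK : 1 ≤ K) (hδ : 0 ≤ δ) (hKδ : 200 * K ^ 2 * δ ≤ 1)
    (h1 : ∀ v, v ⬝ᵥ (UU C 1 1 *ᵥ v) ≤ v ⬝ᵥ v)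
    (h2 : ∀ v, (1 - 2 * δ) * (v ⬝ᵥ v) ≤ v ⬝ᵥ (UU C 1 1 *ᵥ v)) (hgap : MGap C Γ K) :
    ∃ G : Matrix ι ι ℝ, G.IsSymm ∧ (∀ v, 1 / 2 * (v ⬝ᵥ v) ≤ v ⬝ᵥ (G *ᵥ v)) ∧
      (∀ κ ∈ Γ, κ * G * κᵀ = G) ∧ IsUnit G.det ∧ RicM C G G⁻¹ = (1 / 4 : ℝ) • G := by
  have hK0 : 0 ≤ K := zero_le_one.trans hK
  obtain ⟨r, hr⟩ : ∃ r : ℝ, r = 4 * K * δ := ⟨_, rfl⟩
  have hr0 : 0 ≤ r := by rw [hr]; positivity
  have hKr : 50 * K * r ≤ 1 := by rw [hr]; linarith
  have hr50 : 50 * r ≤ 1 := by nlinarith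
  have hr4 : r ≤ 1 / 4 := by linarith
  have hD : ‖1 - UU C 1 1‖ ≤ 2 * δ := by
    refine norm_le_of_quad ?_ (by linarith) fun x => ?_
    · unfold Matrix.IsSymm
      rw [Matrix.transpose_sub, Matrix.transpose_one,
        (UU_symm C Matrix.isSymm_one Matrix.isSymm_one).eq]
    · rw [Matrix.sub_mulVec, Matrix.one_mulVec, dotProduct_sub, abs_le]
      have g1 := h1 x
      have g2 := h2 x
      have g3 : 0 ≤ x ⬝ᵥ x := dot_self_nonneg x
      constructor <;> nlinarith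
  have h1V : (1 : Matrix ι ι ℝ) ∈ Abs_V Γ := Abs_one hΓ
  -- the linear map
  obtain ⟨l, hl⟩ : ∃ l : Abs_V Γ →ₗ[ℝ] Abs_V Γ,
      ∀ α, (l α : Matrix ι ι ℝ) = (α : Matrix ι ι ℝ) - (2 : ℝ) • UU C 1 α := by
    refine ⟨{
      toFun := fun α => ⟨(α : Matrix ι ι ℝ) - (2 : ℝ) • UU C 1 α,
        Submodule.sub_mem _ α.2 (Submodule.smul_mem _ _ (Abs_UU hΓ h1V α.2))⟩
      map_add' := fun α β => ?_
      map_smul' := fun c α => ?_ }, fun α => rfl⟩
    · apply Subtype.ext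
      ext x y
      simp only [UU, Submodule.coe_add, Matrix.sub_apply, Matrix.smul_apply, Matrix.of_apply,
        Matrix.add_apply, Matrix.mul_add, Matrix.trace_add, smul_eq_mul]
      ring
    · apply Subtype.ext
      ext x y
      simp only [UU, Submodule.coe_smul, Matrix.sub_apply, Matrix.smul_apply, Matrix.of_apply,
        Matrix.mul_smul, Matrix.trace_smul, smul_eq_mul, RingHom.id_apply]
      ring
  have hlb : ∀ α, ‖α‖ ≤ K * ‖l α‖ := fun α => by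
    have := hgap α α.2.1 α.2.2
    rw [← hl α] at this
    exact this
  have hinj : Function.Injective l := by
    rw [injective_iff_map_eq_zero]
    intro α hα
    have := hlb α
    rw [hα, norm_zero, mul_zero] at this
    exact norm_le_zero_iff.1 this
  let e : Abs_V Γ ≃ₗ[ℝ] Abs_V Γ := LinearEquiv.ofInjectiveEndo l hinj
  have he : ∀ α, e α = l α := fun α => rfl
  have hel : ∀ β, l (e.symm β) = β := fun β => by rw [← he, LinearEquiv.apply_symm_apply]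
  have hsl : ∀ α, e.symm (l α) = α := fun α => by rw [← he, LinearEquiv.symm_apply_apply]
  have heb : ∀ β, ‖e.symm β‖ ≤ K * ‖β‖ := fun β => by
    have := hlb (e.symm β)
    rwa [hel] at this
  -- the map `F`
  obtain ⟨F, hF⟩ : ∃ F : Abs_V Γ → Abs_V Γ, ∀ α, (F α : Matrix ι ι ℝ) =
      RicM C (1 + α) (1 + (α : Matrix ι ι ℝ))⁻¹ - (1 / 4 : ℝ) • (1 + (α : Matrix ι ι ℝ)) := by
    refine ⟨fun α => ⟨RicM C (1 + α) (1 + (α : Matrix ι ι ℝ))⁻¹ -
      (1 / 4 : ℝ) • (1 + (α : Matrix ι ι ℝ)), ?_⟩, fun α => rfl⟩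
    have := Submodule.add_mem _ h1V α.2
    exact Submodule.sub_mem _ (Abs_RicM hΓ this) (Submodule.smul_mem _ _ this)
  have hFc : ContinuousOn F (Metric.closedBall 0 r) := by
    have c1 : Continuous fun α : Abs_V Γ => 1 + (α : Matrix ι ι ℝ) :=
      continuous_const.add continuous_subtype_val
    have c2 : ContinuousOn (fun α : Abs_V Γ => (1 + (α : Matrix ι ι ℝ))⁻¹)
        (Metric.closedBall 0 r) := by
      refine ContinuousOn.comp (g := fun A : Matrix ι ι ℝ => A⁻¹)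
        (t := {A : Matrix ι ι ℝ | IsUnit A.det}) (Abs_contI fun A hA => hA) c1.continuousOn ?_
      intro α hα
      have : ‖α‖ ≤ r := by simpa using hα
      exact det_one_add (this.trans hr4)
    have c3 : ContinuousOn (fun α : Abs_V Γ => RicM C (1 + (α : Matrix ι ι ℝ))
        (1 + (α : Matrix ι ι ℝ))⁻¹) (Metric.closedBall 0 r) := by
      rw [continuousOn_iff_continuous_domRestrict] at c2 ⊢
      exact Abs_contR C (c1.comp continuous_subtype_val) c2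
    have c4 := c3.sub (c1.fun_const_smul (1 / 4 : ℝ)).continuousOn
    rw [continuousOn_iff_continuous_domRestrict] at c4 ⊢
    refine continuous_induced_rng.2 ?_
    refine c4.congr fun α => ?_
    exact (hF α.1).symm
  have hP : ProperSpace (Abs_V Γ) := FiniteDimensional.proper ℝ _
  have hec : Continuous e.symm := LinearMap.continuous_of_finiteDimensional e.symm.toLinearMap
  obtain ⟨α, hα, hfix⟩ := Pool.Lib.brouwer_fixed_point_convex (V := Abs_V Γ)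
    (K := Metric.closedBall (0 : Abs_V Γ) r) (isCompact_closedBall _ _) (convex_closedBall _ _)
    ⟨0, Metric.mem_closedBall_self hr0⟩
    (f := fun α => α - (4 : ℝ) • e.symm (F α))
    (continuousOn_id.sub ((hec.comp_continuousOn hFc).fun_const_smul _))
    (by
      intro α hα
      have hα' : ‖α‖ ≤ r := by simpa using hα
      have hα'' : ‖(α : Matrix ι ι ℝ)‖ ≤ r := hα'
      have g1 : α - (4 : ℝ) • e.symm (F α) =
          -((4 : ℝ) • e.symm (F α - (1 / 4 : ℝ) • l α)) := by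
        rw [map_sub, map_smul, hsl, smul_sub, smul_smul]
        norm_num
      have g2 : ‖F α - (1 / 4 : ℝ) • l α‖ ≤ δ / 2 + δ * r + 5 * r ^ 2 := by
        have := err_bound hC h1 hD α.2.1 hr4 hα''
        have e1 : ((F α - (1 / 4 : ℝ) • l α : Abs_V Γ) : Matrix ι ι ℝ) =
          RicM C (1 + α) (1 + (α : Matrix ι ι ℝ))⁻¹ - (1 / 4 : ℝ) • (1 + (α : Matrix ι ι ℝ)) -
            (1 / 4 : ℝ) • ((α : Matrix ι ι ℝ) - (2 : ℝ) • UU C 1 α) := by
          rw [Submodule.coe_sub, Submodule.coe_smul, hF, hl]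
        rw [← e1] at this
        exact this
      have g3 : ‖α - (4 : ℝ) • e.symm (F α)‖ ≤ 4 * (K * (δ / 2 + δ * r + 5 * r ^ 2)) := by
        rw [g1, norm_neg, norm_smul, Real.norm_eq_abs, abs_of_pos (by norm_num : (0 : ℝ) < 4)]
        refine mul_le_mul_of_nonneg_left ((heb _).trans ?_) (by norm_num)
        exact mul_le_mul_of_nonneg_left g2 hK0
      have g4 : 4 * (K * (δ / 2 + δ * r + 5 * r ^ 2)) ≤ r := by
        have e1 : 4 * (K * (δ / 2 + δ * r + 5 * r ^ 2)) =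
            r / 2 + r * r + 20 * K * r * r := by rw [hr]; ring
        rw [e1]
        nlinarith
      simpa using g3.trans g4)
  have hα' : ‖(α : Matrix ι ι ℝ)‖ ≤ r := by
    have : ‖α‖ ≤ r := by simpa using hα
    exact this
  have hz : F α = 0 := by
    have g1 : (4 : ℝ) • e.symm (F α) = 0 := by
      have : α - (4 : ℝ) • e.symm (F α) = α := hfix
      rwa [sub_eq_self] at this
    have g2 : e.symm (F α) = 0 := by
      rcases smul_eq_zero.1 g1 with h | h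
      · norm_num at h
      · exact h
    have g3 := hel (F α)
    rw [g2, map_zero] at g3
    exact g3.symm
  have hz' : RicM C (1 + α) (1 + (α : Matrix ι ι ℝ))⁻¹ = (1 / 4 : ℝ) • (1 + (α : Matrix ι ι ℝ)) := by
    have := hF α
    rw [hz, Submodule.coe_zero] at this
    exact (sub_eq_zero.1 this.symm)
  have hG := Submodule.add_mem _ h1V α.2
  refine ⟨1 + α, hG.1, fun v => ?_, hG.2, det_one_add (hα'.trans hr4), hz'⟩
  rw [Matrix.add_mulVec, Matrix.one_mulVec, dotProduct_add]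
  have g1 := (abs_le.1 (quad_le_norm (α : Matrix ι ι ℝ) v)).1
  have g2 : 0 ≤ v ⬝ᵥ v := dot_self_nonneg v
  have g3 := mul_le_mul_of_nonneg_right hα' g2
  nlinarith

end Pool.Agent.SmIso
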