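import Pool.Agent.SmIso.Nrm

/-!
# From `L` to the orthogonal complement of `h`

Index type `κ ⊕ ι`: `κ` for a frame of `h`, `ι` for a frame of its orthogonal complement `m`.
`C x = (Ĉ (inr x)).toBlocks₂₂` are the structure constants of `m`.  Write `Π = fromBlocks 1 0 0 0`,
`P = 1 - Π = fromBlocks 0 0 0 1`, `Θ M = UU Ĉ 1 M`; `Θ 1 = 1`, `Θ Π ≤ δ`.

* `blk_UU`: `(UU Ĉ (fromBlocks 0 0 0 A) (fromBlocks 0 0 0 B)).toBlocks₂₂ = UU C A B`, and also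
  `(UU Ĉ 1 (fromBlocks 0 0 0 B)).toBlocks₂₂` differs from `UU C 1 B`: it is the sum of `UU C 1 B` and of the
  terms with one index in `κ`.  CAREFUL: see `mGap_transfer` below, which needs this second kind of term.
* `m_bounds`: `v ⬝ (UU C 1 1) v = ∑ i j ∈ ι, (Ĉ_v)_{ij}²` lies between `v ⬝ v - 2 δ (v ⬝ v)` and `v ⬝ v`: the sum over all
  `i, j ∈ κ ⊕ ι` is `v ⬝ v` (`Θ 1 = 1`), the sum over `i` arbitrary, `j ∈ κ` is at most `δ (v ⬝ v)` (`Θ Π ≤ δ`), and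
  the same for `j` arbitrary, `i ∈ κ` (antisymmetry of `Ĉ_v`).
* `mGap_transfer`: let `α` be symmetric and `Γ`-invariant, `M = fromBlocks 0 0 0 α`,
  `η = 2 (Θ M - P (Θ M) P)`, so `‖η‖ ≤ 4 ‖α‖`.  `M` and `η` are symmetric and `Γ̂`-invariant (`EinS.UU_inv`).
  `(M + η) - 2 Θ (M + η) = (M - 2 P (Θ M) P) - 2 Θ η`.
  (i) `‖Θ η‖ ≤ (1/(16 K)) ‖η‖`: let `z_i` be the rows of `lc Ĉ v`, so the form of `Θ η` at `v` is `∑ z_i ⬝ η z_i`; as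
  `P η P = 0`, `z ⬝ η z = (Π z) ⬝ η z + (P z) ⬝ η (Π z)`, so `|z ⬝ η z| ≤ 2 ‖η‖ |Π z| |z| ≤ ‖η‖ (θ |z|² + θ⁻¹ |Π z|²)`;
  `∑ |z_i|² = v ⬝ v`, `∑ |Π z_i|² = v ⬝ (Θ Π) v ≤ δ (v ⬝ v)`; `θ = 1/(32 K)`, `δ ≤ θ²`.
  (ii) `P (Θ M) P` has lower block `(Θ M).toBlocks₂₂ = UU C 1 α + E`, where the form of `E` at `v` is
  `∑ i ∈ κ, (row_i) ⬝ α (row_i)`, `|..| ≤ ‖α‖ ∑ i ∈ κ, |row_i|² ≤ ‖α‖ δ (v ⬝ v)`.
  Hence `‖α‖ ≤ ‖M + η‖ ≤ K (‖α - 2 UU C 1 α‖ + 2 δ ‖α‖ + 2 (1/(16 K)) 4 ‖α‖) ≤ K ‖α - 2 UU C 1 α‖ + (1/2 + 1/256) ‖α‖`,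
  (`2 K δ ≤ 2 K/(1024 K²) ≤ 1/512`), so `‖α‖ ≤ (5/2) K ‖α - 2 UU C 1 α‖`.
-/

namespace Pool.Agent.SmIso

open Matrix Pool.Agent.EStab Pool.Agent.EinS
open scoped Matrix.Norms.L2Operator

variable {ι κ : Type*} [Fintype ι] [DecidableEq ι] [Fintype κ] [DecidableEq κ]

private theorem GapM_cols {m q : Type*} [Fintype m] [DecidableEq m] [Fintype q] [DecidableEq q]
    (F : q → Matrix m m ℝ) (A : Matrix m m ℝ) (v : q → ℝ) :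
    v ⬝ᵥ (UU F 1 A *ᵥ v) = ∑ k, (fun i => lc F v i k) ⬝ᵥ (A *ᵥ fun i => lc F v i k) := by
  rw [UU_quad, Matrix.mul_one]
  simp only [Matrix.trace, Matrix.diag_apply, Matrix.mul_apply, Matrix.transpose_apply, dotProduct,
    Matrix.mulVec, Finset.mul_sum]
  rw [Finset.sum_comm (f := fun (k : m) (i : m) => ∑ j, lc F v i k * (A i j * lc F v j k))]
  refine Finset.sum_congr rfl fun i _ => ?_
  rw [Finset.sum_comm (f := fun (k : m) (j : m) => lc F v i k * (A i j * lc F v j k))]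
  refine Finset.sum_congr rfl fun j _ => Finset.sum_congr rfl fun k _ => ?_
  ring

private theorem GapM_elim (A : Matrix (κ ⊕ ι) (κ ⊕ ι) ℝ) (x : ι → ℝ) :
    (Sum.elim (fun _ => (0 : ℝ)) x) ⬝ᵥ (A *ᵥ Sum.elim (fun _ => (0 : ℝ)) x) =
      x ⬝ᵥ (A.toBlocks₂₂ *ᵥ x) := by
  simp [dotProduct, Matrix.mulVec, Fintype.sum_sum_type, Matrix.toBlocks₂₂]

private theorem GapM_elim_self (x : ι → ℝ) :
    (Sum.elim (fun _ : κ => (0 : ℝ)) x) ⬝ᵥ (Sum.elim (fun _ : κ => (0 : ℝ)) x) = x ⬝ᵥ x := by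
  simp [dotProduct, Fintype.sum_sum_type]

private theorem GapM_blk (α : Matrix ι ι ℝ) (z : κ ⊕ ι → ℝ) :
    z ⬝ᵥ ((fromBlocks 0 0 0 α : Matrix (κ ⊕ ι) (κ ⊕ ι) ℝ) *ᵥ z) =
      (fun i => z (Sum.inr i)) ⬝ᵥ (α *ᵥ fun i => z (Sum.inr i)) := by
  simp [dotProduct, Matrix.mulVec, Fintype.sum_sum_type]

private theorem GapM_Pi (z : κ ⊕ ι → ℝ) :
    z ⬝ᵥ ((fromBlocks 1 0 0 0 : Matrix (κ ⊕ ι) (κ ⊕ ι) ℝ) *ᵥ z) =
      ∑ i : κ, z (Sum.inl i) * z (Sum.inl i) := by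
  simp [dotProduct, Matrix.mulVec, Fintype.sum_sum_type, Matrix.one_apply]

private theorem GapM_self (z : κ ⊕ ι → ℝ) :
    z ⬝ᵥ z = ∑ i : κ, z (Sum.inl i) * z (Sum.inl i) +
      ∑ i : ι, z (Sum.inr i) * z (Sum.inr i) := by
  simp [dotProduct, Fintype.sum_sum_type]

/-- The linear combination of the lower blocks. -/
private theorem GapM_lc (C : κ ⊕ ι → Matrix (κ ⊕ ι) (κ ⊕ ι) ℝ) (v : ι → ℝ) (i j : ι) :
    lc (fun x => (C (Sum.inr x)).toBlocks₂₂) v i j =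
      lc C (Sum.elim (fun _ => (0 : ℝ)) v) (Sum.inr i) (Sum.inr j) := by
  unfold lc
  simp [Matrix.sum_apply, Fintype.sum_sum_type, Matrix.toBlocks₂₂]

private theorem GapM_anti {n : Type*} [Fintype n] [DecidableEq n] {C : n → Matrix n n ℝ}
    (hC : CSym C) (w : n → ℝ) (i j : n) : lc C w j i = -lc C w i j := by
  unfold lc
  simp only [Matrix.sum_apply, Matrix.smul_apply, smul_eq_mul]
  rw [← Finset.sum_neg_distrib]
  refine Finset.sum_congr rfl fun a _ => ?_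
  have h := congrFun (congrFun (hC.anti a) i) j
  rw [Matrix.transpose_apply, Matrix.neg_apply] at h
  rw [h]
  ring

/-- The part of `lc C w` with the row index in `κ`. -/
private theorem GapM_small {C : κ ⊕ ι → Matrix (κ ⊕ ι) (κ ⊕ ι) ℝ} {δ : ℝ}
    (hδ : ∀ v, v ⬝ᵥ (UU C 1 (fromBlocks 1 0 0 0) *ᵥ v) ≤ δ * (v ⬝ᵥ v)) (w : κ ⊕ ι → ℝ) :
    ∑ k, ∑ i : κ, lc C w (Sum.inl i) k * lc C w (Sum.inl i) k ≤ δ * (w ⬝ᵥ w) := by
  have h := hδ w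
  rw [GapM_cols] at h
  simpa only [GapM_Pi] using h

private theorem GapM_total {C : κ ⊕ ι → Matrix (κ ⊕ ι) (κ ⊕ ι) ℝ} (hone : UU C 1 1 = 1)
    (w : κ ⊕ ι → ℝ) :
    ∑ k, (fun i => lc C w i k) ⬝ᵥ (fun i => lc C w i k) = w ⬝ᵥ w := by
  have h := GapM_cols C 1 w
  rw [hone, Matrix.one_mulVec] at h
  simp only [Matrix.one_mulVec] at h
  exact h.symm

/-- The off-diagonal part: columns in `κ`, rows in `ι`. -/
private theorem GapM_off {C : κ ⊕ ι → Matrix (κ ⊕ ι) (κ ⊕ ι) ℝ} (hC : CSym C) {δ : ℝ}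
    (hδ : ∀ v, v ⬝ᵥ (UU C 1 (fromBlocks 1 0 0 0) *ᵥ v) ≤ δ * (v ⬝ᵥ v)) (w : κ ⊕ ι → ℝ) :
    ∑ k : κ, ∑ i : ι, lc C w (Sum.inr i) (Sum.inl k) * lc C w (Sum.inr i) (Sum.inl k) ≤
      δ * (w ⬝ᵥ w) := by
  refine le_trans ?_ (GapM_small hδ w)
  rw [Fintype.sum_sum_type]
  have h1 : ∑ k : κ, ∑ i : ι, lc C w (Sum.inr i) (Sum.inl k) * lc C w (Sum.inr i) (Sum.inl k) =
      ∑ i : ι, ∑ k : κ, lc C w (Sum.inl k) (Sum.inr i) * lc C w (Sum.inl k) (Sum.inr i) := by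
    rw [Finset.sum_comm]
    refine Finset.sum_congr rfl fun i _ => Finset.sum_congr rfl fun k _ => ?_
    rw [GapM_anti hC w (Sum.inl k) (Sum.inr i)]
    ring
  rw [h1]
  have h2 : 0 ≤ ∑ k : κ, ∑ i : κ, lc C w (Sum.inl i) (Sum.inl k) * lc C w (Sum.inl i) (Sum.inl k) :=
    Finset.sum_nonneg fun k _ => Finset.sum_nonneg fun i _ => mul_self_nonneg _
  linarith

/-- Splitting of the columns of the form of `fromBlocks 0 0 0 α`. -/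
private theorem GapM_split (C : κ ⊕ ι → Matrix (κ ⊕ ι) (κ ⊕ ι) ℝ) (α : Matrix ι ι ℝ)
    (v : ι → ℝ) :
    v ⬝ᵥ ((UU C 1 (fromBlocks 0 0 0 α)).toBlocks₂₂ *ᵥ v) =
      ∑ k : κ, (fun i : ι => lc C (Sum.elim (fun _ => (0 : ℝ)) v) (Sum.inr i) (Sum.inl k)) ⬝ᵥ
          (α *ᵥ fun i : ι => lc C (Sum.elim (fun _ => (0 : ℝ)) v) (Sum.inr i) (Sum.inl k)) +
        v ⬝ᵥ (UU (fun x => (C (Sum.inr x)).toBlocks₂₂) 1 α *ᵥ v) := by
  rw [← GapM_elim, GapM_cols, GapM_cols, Fintype.sum_sum_type]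
  simp only [GapM_blk, GapM_lc]

private theorem GapM_low {A : Matrix (κ ⊕ ι) (κ ⊕ ι) ℝ} (hA : A.IsSymm) :
    ‖A.toBlocks₂₂‖ ≤ ‖A‖ := by
  refine norm_le_of_quad ?_ (norm_nonneg _) fun x => ?_
  · ext i j
    exact hA.apply _ _
  · rw [← GapM_elim, ← GapM_elim_self (κ := κ) x]
    exact quad_le_norm A _

private theorem GapM_blkSymm {α : Matrix ι ι ℝ} (hα : α.IsSymm) :
    (fromBlocks 0 0 0 α : Matrix (κ ⊕ ι) (κ ⊕ ι) ℝ).IsSymm := by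
  rw [Matrix.IsSymm, Matrix.fromBlocks_transpose, hα.eq]
  simp

private theorem GapM_up {α : Matrix ι ι ℝ} (hα : α.IsSymm) :
    ‖(fromBlocks 0 0 0 α : Matrix (κ ⊕ ι) (κ ⊕ ι) ℝ)‖ ≤ ‖α‖ := by
  refine norm_le_of_quad (GapM_blkSymm hα) (norm_nonneg _) fun z => ?_
  rw [GapM_blk, GapM_self]
  refine (quad_le_norm α _).trans (mul_le_mul_of_nonneg_left ?_ (norm_nonneg _))
  have h2 : 0 ≤ ∑ i : κ, z (Sum.inl i) * z (Sum.inl i) :=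
    Finset.sum_nonneg fun i _ => mul_self_nonneg _
  have h3 : (fun i => z (Sum.inr i)) ⬝ᵥ (fun i => z (Sum.inr i)) =
    ∑ i : ι, z (Sum.inr i) * z (Sum.inr i) := rfl
  rw [h3]
  linarith

private theorem GapM_symm_dot {n : Type*} [Fintype n] {A : Matrix n n ℝ} (hA : A.IsSymm)
    (x y : n → ℝ) : x ⬝ᵥ (A *ᵥ y) = y ⬝ᵥ (A *ᵥ x) := by
  rw [Matrix.dotProduct_mulVec, ← Matrix.mulVec_transpose, hA.eq, dotProduct_comm]

/-- The form of a symmetric matrix whose lower block vanishes. -/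
private theorem GapM_z {η : Matrix (κ ⊕ ι) (κ ⊕ ι) ℝ} (hη : η.IsSymm) (h0 : η.toBlocks₂₂ = 0)
    {θ : ℝ} (hθ : 0 < θ) (z : κ ⊕ ι → ℝ) :
    |z ⬝ᵥ (η *ᵥ z)| ≤ ‖η‖ * ((1 + 1 / θ) * (∑ i : κ, z (Sum.inl i) * z (Sum.inl i)) +
      θ * (z ⬝ᵥ z)) := by
  obtain ⟨s, hs0, hs⟩ : ∃ s : ℝ, 0 < s ∧ s * s = θ :=
    ⟨Real.sqrt θ, Real.sqrt_pos.2 hθ, Real.mul_self_sqrt hθ.le⟩
  set y : κ ⊕ ι → ℝ := Sum.elim (fun i => z (Sum.inl i)) (fun _ => 0) with hy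
  set x : κ ⊕ ι → ℝ := Sum.elim (fun _ => 0) (fun i => z (Sum.inr i)) with hx
  have hz : z = y + x := by
    ext i
    rcases i with i | i
    · simp [hy, hx]
    · simp [hy, hx]
  have hxx : x ⬝ᵥ (η *ᵥ x) = 0 := by
    rw [hx, GapM_elim, h0]
    simp
  have hyx : x ⬝ᵥ (η *ᵥ y) = y ⬝ᵥ (η *ᵥ x) := GapM_symm_dot hη x y
  have hY : y ⬝ᵥ y = ∑ i : κ, z (Sum.inl i) * z (Sum.inl i) := by
    rw [GapM_self]
    simp [hy]
  have hX : x ⬝ᵥ x = ∑ i : ι, z (Sum.inr i) * z (Sum.inr i) := by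
    rw [GapM_self]
    simp [hx]
  have hxy : x ⬝ᵥ y = 0 := by
    simp [hx, hy, dotProduct, Fintype.sum_sum_type]
  have hyx0 : y ⬝ᵥ x = 0 := by rw [dotProduct_comm, hxy]
  have hexp : ∀ a b : ℝ, (a • y + b • x) ⬝ᵥ (η *ᵥ (a • y + b • x)) =
      a * a * (y ⬝ᵥ (η *ᵥ y)) + 2 * (a * b) * (y ⬝ᵥ (η *ᵥ x)) := by
    intro a b
    simp only [Matrix.mulVec_add, Matrix.mulVec_smul, dotProduct_add, add_dotProduct,
      smul_dotProduct, dotProduct_smul, smul_eq_mul, hxx, hyx]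
    ring
  have hnrm : ∀ a b : ℝ, (a • y + b • x) ⬝ᵥ (a • y + b • x) =
      a * a * (y ⬝ᵥ y) + b * b * (x ⬝ᵥ x) := by
    intro a b
    simp only [dotProduct_add, add_dotProduct, smul_dotProduct, dotProduct_smul, smul_eq_mul, hxy,
      hyx0]
    ring
  have q1 := abs_le.1 (quad_le_norm η (s⁻¹ • y + s • x))
  have q2 := abs_le.1 (quad_le_norm η (s⁻¹ • y + (-s) • x))
  have q3 := abs_le.1 (quad_le_norm η y)
  rw [hexp, hnrm] at q1 q2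
  have e1 : s⁻¹ * s⁻¹ = 1 / θ := by
    rw [← hs]
    field_simp
  have e2 : s⁻¹ * s = 1 := inv_mul_cancel₀ hs0.ne'
  have e3 : s⁻¹ * (-s) = -1 := by rw [mul_neg, e2]
  have e4 : (-s) * (-s) = θ := by rw [neg_mul_neg, hs]
  rw [e1, e2, hs] at q1
  rw [e1, e3, e4] at q2
  have hzz : z ⬝ᵥ (η *ᵥ z) = y ⬝ᵥ (η *ᵥ y) + 2 * (y ⬝ᵥ (η *ᵥ x)) := by
    have h := hexp 1 1
    rw [one_smul, one_smul, ← hz] at h
    rw [h]
    ring
  have hzn : z ⬝ᵥ z = y ⬝ᵥ y + x ⬝ᵥ x := by rw [GapM_self, hY, hX]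
  rw [hzz, hzn, ← hY]
  have hN : 0 ≤ ‖η‖ := norm_nonneg _
  have hYn : 0 ≤ y ⬝ᵥ y := by
    rw [hY]
    exact Finset.sum_nonneg fun i _ => mul_self_nonneg _
  have hp : 0 ≤ ‖η‖ * (θ * (y ⬝ᵥ y)) := by positivity
  rw [abs_le]
  constructor
  · nlinarith [q1.1, q1.2, q2.1, q2.2, q3.1, q3.2, hp]
  · nlinarith [q1.1, q1.2, q2.1, q2.2, q3.1, q3.2, hp]

theorem m_bounds {C : κ ⊕ ι → Matrix (κ ⊕ ι) (κ ⊕ ι) ℝ} (hC : CSym C) (hone : UU C 1 1 = 1) {δ : ℝ}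
    (hδ : ∀ v, v ⬝ᵥ (UU C 1 (fromBlocks 1 0 0 0) *ᵥ v) ≤ δ * (v ⬝ᵥ v)) (v : ι → ℝ) :
    v ⬝ᵥ (UU (fun x => (C (Sum.inr x)).toBlocks₂₂) 1 1 *ᵥ v) ≤ v ⬝ᵥ v ∧
      (1 - 2 * δ) * (v ⬝ᵥ v) ≤ v ⬝ᵥ (UU (fun x => (C (Sum.inr x)).toBlocks₂₂) 1 1 *ᵥ v) := by
  set w : κ ⊕ ι → ℝ := Sum.elim (fun _ => (0 : ℝ)) v with hw
  have hww : w ⬝ᵥ w = v ⬝ᵥ v := GapM_elim_self v
  have h1 := GapM_total hone w
  have h2 := GapM_small hδ w
  have h3 := GapM_off hC hδ w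
  rw [hww] at h1 h2 h3
  have h4 : v ⬝ᵥ (UU (fun x => (C (Sum.inr x)).toBlocks₂₂) 1 1 *ᵥ v) =
      ∑ k : ι, ∑ i : ι, lc C w (Sum.inr i) (Sum.inr k) * lc C w (Sum.inr i) (Sum.inr k) := by
    rw [GapM_cols]
    simp only [Matrix.one_mulVec, GapM_lc]
    rfl
  have h5 : ∑ k, (fun i => lc C w i k) ⬝ᵥ (fun i => lc C w i k) =
      (∑ k, ∑ i : κ, lc C w (Sum.inl i) k * lc C w (Sum.inl i) k) +
      (∑ k : κ, ∑ i : ι, lc C w (Sum.inr i) (Sum.inl k) * lc C w (Sum.inr i) (Sum.inl k)) +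
      ∑ k : ι, ∑ i : ι, lc C w (Sum.inr i) (Sum.inr k) * lc C w (Sum.inr i) (Sum.inr k) := by
    simp only [GapM_self, Finset.sum_add_distrib, Fintype.sum_sum_type]
    ring
  rw [h5] at h1
  have p1 : 0 ≤ ∑ k, ∑ i : κ, lc C w (Sum.inl i) k * lc C w (Sum.inl i) k :=
    Finset.sum_nonneg fun k _ => Finset.sum_nonneg fun i _ => mul_self_nonneg _
  have p2 : 0 ≤ ∑ k : κ, ∑ i : ι, lc C w (Sum.inr i) (Sum.inl k) * lc C w (Sum.inr i) (Sum.inl k) :=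
    Finset.sum_nonneg fun k _ => Finset.sum_nonneg fun i _ => mul_self_nonneg _
  rw [h4]
  constructor
  · linarith
  · linarith

theorem mGap_transfer {C : κ ⊕ ι → Matrix (κ ⊕ ι) (κ ⊕ ι) ℝ} (hC : CSym C) (hone : UU C 1 1 = 1)
    {δ K : ℝ} (hδ0 : 0 ≤ δ) (hδ : ∀ v, v ⬝ᵥ (UU C 1 (fromBlocks 1 0 0 0) *ᵥ v) ≤ δ * (v ⬝ᵥ v))
    (hK : 1 ≤ K) (hKδ : 1024 * K ^ 2 * δ ≤ 1) {Γ' : Set (Matrix (κ ⊕ ι) (κ ⊕ ι) ℝ)}
    {Γ : Set (Matrix ι ι ℝ)}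
    (hΓ : ∀ M ∈ Γ', CInv C M ∧ ∃ M₁ M₂, M₂ ∈ Γ ∧ M = fromBlocks M₁ 0 0 M₂) (hgap : MGap C Γ' K) :
    MGap (fun x => (C (Sum.inr x)).toBlocks₂₂) Γ (5 / 2 * K) := by
  intro α hα hinv
  set M : Matrix (κ ⊕ ι) (κ ⊕ ι) ℝ := fromBlocks 0 0 0 α with hM
  set T : Matrix (κ ⊕ ι) (κ ⊕ ι) ℝ := UU C 1 M with hT
  set η : Matrix (κ ⊕ ι) (κ ⊕ ι) ℝ := (2 : ℝ) • (T - fromBlocks 0 0 0 T.toBlocks₂₂) with hη
  set C' : ι → Matrix ι ι ℝ := fun x => (C (Sum.inr x)).toBlocks₂₂ with hC'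
  have hMs : M.IsSymm := GapM_blkSymm hα
  have h1s : (1 : Matrix (κ ⊕ ι) (κ ⊕ ι) ℝ).IsSymm := Matrix.isSymm_one
  have hTs : T.IsSymm := UU_symm C h1s hMs
  have hT2s : T.toBlocks₂₂.IsSymm := by
    ext i j
    exact hTs.apply _ _
  have hηs : η.IsSymm := by
    rw [hη]
    exact (hTs.sub (GapM_blkSymm hT2s)).smul _
  have hη0 : η.toBlocks₂₂ = 0 := by
    ext i j
    simp [hη, Matrix.toBlocks₂₂]
  have h1 : ∀ v, v ⬝ᵥ (UU C 1 1 *ᵥ v) ≤ v ⬝ᵥ v := by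
    intro v
    rw [hone, Matrix.one_mulVec]
  have hn1 : ‖(1 : Matrix (κ ⊕ ι) (κ ⊕ ι) ℝ)‖ ≤ 1 := by
    refine norm_le_of_quad h1s zero_le_one fun x => ?_
    rw [Matrix.one_mulVec, one_mul, abs_of_nonneg]
    exact Finset.sum_nonneg fun i _ => mul_self_nonneg _
  have hMα : ‖M‖ ≤ ‖α‖ := GapM_up hα
  have hTα : ‖T‖ ≤ ‖α‖ := by
    have h := norm_UU_le h1 h1s hMs
    calc ‖T‖ ≤ ‖(1 : Matrix (κ ⊕ ι) (κ ⊕ ι) ℝ)‖ * ‖M‖ := h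
      _ ≤ 1 * ‖α‖ := mul_le_mul hn1 hMα (norm_nonneg _) zero_le_one
      _ = ‖α‖ := one_mul _
  have hT2 : ‖T.toBlocks₂₂‖ ≤ ‖α‖ := (GapM_low hTs).trans hTα
  have hηn : ‖η‖ ≤ 4 * ‖α‖ := by
    have h2 : ‖T - fromBlocks 0 0 0 T.toBlocks₂₂‖ ≤ ‖α‖ + ‖α‖ :=
      (norm_sub_le _ _).trans (add_le_add hTα ((GapM_up hT2s).trans hT2))
    rw [hη, norm_smul, Real.norm_ofNat]
    linarith
  have hK0 : (0 : ℝ) < K := lt_of_lt_of_le one_pos hK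
  -- the perturbation
  have hΘη : ‖UU C 1 η‖ ≤ (1 / (16 * K) + 1 / (1024 * K)) * ‖η‖ := by
    have hθ0 : (0 : ℝ) < 1 / (32 * K) := by positivity
    refine norm_le_of_quad (UU_symm C h1s hηs) (by positivity) fun v => ?_
    rw [GapM_cols]
    have hvv : 0 ≤ v ⬝ᵥ v := Finset.sum_nonneg fun i _ => mul_self_nonneg _
    calc |∑ k, (fun i => lc C v i k) ⬝ᵥ (η *ᵥ fun i => lc C v i k)|
        ≤ ∑ k, |(fun i => lc C v i k) ⬝ᵥ (η *ᵥ fun i => lc C v i k)| :=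
          Finset.abs_sum_le_sum_abs _ _
      _ ≤ ∑ k, ‖η‖ * ((1 + 1 / (1 / (32 * K))) *
            (∑ i : κ, lc C v (Sum.inl i) k * lc C v (Sum.inl i) k) +
            1 / (32 * K) * ((fun i => lc C v i k) ⬝ᵥ (fun i => lc C v i k))) :=
          Finset.sum_le_sum fun k _ => GapM_z hηs hη0 hθ0 _
      _ = ‖η‖ * ((1 + 1 / (1 / (32 * K))) *
            (∑ k, ∑ i : κ, lc C v (Sum.inl i) k * lc C v (Sum.inl i) k) +
            1 / (32 * K) * ∑ k, ((fun i => lc C v i k) ⬝ᵥ (fun i => lc C v i k))) := by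
          rw [← Finset.mul_sum, Finset.sum_add_distrib, ← Finset.mul_sum, ← Finset.mul_sum]
      _ ≤ ‖η‖ * ((1 + 1 / (1 / (32 * K))) * (δ * (v ⬝ᵥ v)) + 1 / (32 * K) * (v ⬝ᵥ v)) := by
          refine mul_le_mul_of_nonneg_left ?_ (norm_nonneg _)
          rw [GapM_total hone]
          have h3 : 0 ≤ 1 + 1 / (1 / (32 * K)) := by positivity
          have h4 := mul_le_mul_of_nonneg_left (GapM_small hδ v) h3
          linarith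
      _ = ‖η‖ * (((1 + 32 * K) * δ + 1 / (32 * K)) * (v ⬝ᵥ v)) := by
          rw [one_div_one_div]
          ring
      _ ≤ ‖η‖ * ((1 / (16 * K) + 1 / (1024 * K)) * (v ⬝ᵥ v)) := by
          refine mul_le_mul_of_nonneg_left (mul_le_mul_of_nonneg_right ?_ hvv) (norm_nonneg _)
          have h5 : δ ≤ 1 / (1024 * K ^ 2) := by
            rw [le_div_iff₀ (by positivity)]
            linarith
          have h6 : (1 + 32 * K) * δ ≤ (1 + 32 * K) * (1 / (1024 * K ^ 2)) :=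
            mul_le_mul_of_nonneg_left h5 (by positivity)
          have h7 : (1 + 32 * K) * (1 / (1024 * K ^ 2)) = 1 / (1024 * K ^ 2) + 1 / (32 * K) := by
            field_simp
            ring
          have h8 : 1 / (1024 * K ^ 2) ≤ 1 / (1024 * K) := by
            apply one_div_le_one_div_of_le (by positivity)
            nlinarith
          have h9 : 1 / (16 * K) = 1 / (32 * K) + 1 / (32 * K) := by
            field_simp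
            norm_num
          linarith
      _ = (1 / (16 * K) + 1 / (1024 * K)) * ‖η‖ * (v ⬝ᵥ v) := by ring
  -- the error in the lower block
  have hE : ‖T.toBlocks₂₂ - UU C' 1 α‖ ≤ δ * ‖α‖ := by
    have hUs : (UU C' 1 α).IsSymm := UU_symm C' Matrix.isSymm_one hα
    refine norm_le_of_quad (hT2s.sub hUs) (by positivity) fun v => ?_
    have h2 := GapM_split C α v
    rw [Matrix.sub_mulVec, dotProduct_sub]
    have h3 : v ⬝ᵥ (T.toBlocks₂₂ *ᵥ v) - v ⬝ᵥ (UU C' 1 α *ᵥ v) =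
        ∑ k : κ, (fun i : ι => lc C (Sum.elim (fun _ => (0 : ℝ)) v) (Sum.inr i) (Sum.inl k)) ⬝ᵥ
          (α *ᵥ fun i : ι => lc C (Sum.elim (fun _ => (0 : ℝ)) v) (Sum.inr i) (Sum.inl k)) := by
      rw [hT, hM, h2]
      ring
    rw [h3]
    have h4 := GapM_off hC hδ (Sum.elim (fun _ => (0 : ℝ)) v)
    rw [GapM_elim_self] at h4
    calc _ ≤ ∑ k : κ,
          |(fun i : ι => lc C (Sum.elim (fun _ => (0 : ℝ)) v) (Sum.inr i) (Sum.inl k)) ⬝ᵥ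
          (α *ᵥ fun i : ι => lc C (Sum.elim (fun _ => (0 : ℝ)) v) (Sum.inr i) (Sum.inl k))| :=
          Finset.abs_sum_le_sum_abs _ _
      _ ≤ ∑ k : κ, ‖α‖ * ∑ i : ι, lc C (Sum.elim (fun _ => (0 : ℝ)) v) (Sum.inr i) (Sum.inl k) *
            lc C (Sum.elim (fun _ => (0 : ℝ)) v) (Sum.inr i) (Sum.inl k) :=
          Finset.sum_le_sum fun k _ => quad_le_norm α _
      _ = ‖α‖ * ∑ k : κ, ∑ i : ι,
            lc C (Sum.elim (fun _ => (0 : ℝ)) v) (Sum.inr i) (Sum.inl k) *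
            lc C (Sum.elim (fun _ => (0 : ℝ)) v) (Sum.inr i) (Sum.inl k) := by
          rw [Finset.mul_sum]
      _ ≤ ‖α‖ * (δ * (v ⬝ᵥ v)) := mul_le_mul_of_nonneg_left h4 (norm_nonneg _)
      _ = δ * ‖α‖ * (v ⬝ᵥ v) := by ring
  -- invariance
  have hinvη : ∀ N ∈ Γ', N * (M + η) * Nᵀ = M + η := by
    intro N hN
    obtain ⟨⟨hN1, hN2⟩, N₁, N₂, hN₂, rfl⟩ := hΓ N hN
    have hblk : ∀ β : Matrix ι ι ℝ, N₂ * β * N₂ᵀ = β →
        (fromBlocks N₁ 0 0 N₂ : Matrix (κ ⊕ ι) (κ ⊕ ι) ℝ) * fromBlocks 0 0 0 β *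
          (fromBlocks N₁ 0 0 N₂)ᵀ = fromBlocks 0 0 0 β := by
      intro β hβ
      rw [Matrix.fromBlocks_transpose, Matrix.fromBlocks_multiply, Matrix.fromBlocks_multiply]
      simp [hβ]
    have hMi := hblk α (hinv N₂ hN₂)
    have hTi : (fromBlocks N₁ 0 0 N₂ : Matrix (κ ⊕ ι) (κ ⊕ ι) ℝ) * T *
        (fromBlocks N₁ 0 0 N₂)ᵀ = T :=
      UU_inv hN1 hN1 hN2 (by rw [Matrix.mul_one, hN1]) hMi
    have hT2i : N₂ * T.toBlocks₂₂ * N₂ᵀ = T.toBlocks₂₂ := by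
      have h2 := congrArg Matrix.toBlocks₂₂ hTi
      rw [← Matrix.fromBlocks_toBlocks T, Matrix.fromBlocks_transpose, Matrix.fromBlocks_multiply,
        Matrix.fromBlocks_multiply] at h2
      simpa using h2
    have hPi := hblk _ hT2i
    rw [hη, Matrix.mul_add, Matrix.add_mul, hMi, Matrix.mul_smul, Matrix.smul_mul, Matrix.mul_sub,
      Matrix.sub_mul, hTi, hPi]
  have hg := hgap (M + η) (hMs.add hηs) hinvη
  have hΘadd : UU C 1 (M + η) = T + UU C 1 η := by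
    ext a b
    rw [hT]
    unfold UU
    simp only [Matrix.of_apply, Matrix.add_apply, Matrix.mul_add, Matrix.trace_add]
  have hid : M + η - (2 : ℝ) • UU C 1 (M + η) =
      fromBlocks 0 0 0 (α - (2 : ℝ) • T.toBlocks₂₂) - (2 : ℝ) • UU C 1 η := by
    rw [hΘadd, hη, hM]
    have h2 : (fromBlocks 0 0 0 (α - (2 : ℝ) • T.toBlocks₂₂) : Matrix (κ ⊕ ι) (κ ⊕ ι) ℝ) =
        fromBlocks 0 0 0 α - (2 : ℝ) • fromBlocks 0 0 0 T.toBlocks₂₂ := by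
      ext i j
      rcases i with i | i <;> rcases j with j | j <;> simp
    rw [h2, smul_sub, smul_add]
    abel
  rw [hid] at hg
  have hlow : ‖α‖ ≤ ‖M + η‖ := by
    have h2 := GapM_low (hMs.add hηs)
    have h3 : (M + η).toBlocks₂₂ = α := by
      have h4 : (M + η).toBlocks₂₂ = M.toBlocks₂₂ + η.toBlocks₂₂ := rfl
      rw [h4, hη0, hM, Matrix.toBlocks_fromBlocks₂₂, add_zero]
    rwa [h3] at h2
  have hup : ‖(fromBlocks 0 0 0 (α - (2 : ℝ) • T.toBlocks₂₂) : Matrix (κ ⊕ ι) (κ ⊕ ι) ℝ)‖ ≤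
      ‖α - (2 : ℝ) • UU C' 1 α‖ + 2 * (δ * ‖α‖) := by
    refine (GapM_up (hα.sub (hT2s.smul _))).trans ?_
    have h2 : α - (2 : ℝ) • T.toBlocks₂₂ =
        (α - (2 : ℝ) • UU C' 1 α) - (2 : ℝ) • (T.toBlocks₂₂ - UU C' 1 α) := by
      rw [smul_sub]
      abel
    rw [h2]
    refine (norm_sub_le _ _).trans ?_
    rw [norm_smul, Real.norm_ofNat]
    linarith
  have hmain : ‖α‖ ≤ K * (‖α - (2 : ℝ) • UU C' 1 α‖ + 2 * (δ * ‖α‖) +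
      2 * ((1 / (16 * K) + 1 / (1024 * K)) * (4 * ‖α‖))) := by
    refine (hlow.trans hg).trans (mul_le_mul_of_nonneg_left ?_ hK0.le)
    refine (norm_sub_le _ _).trans (add_le_add hup ?_)
    rw [norm_smul, Real.norm_ofNat]
    have h2 : (1 / (16 * K) + 1 / (1024 * K)) * ‖η‖ ≤
        (1 / (16 * K) + 1 / (1024 * K)) * (4 * ‖α‖) :=
      mul_le_mul_of_nonneg_left hηn (by positivity)
    linarith
  have hKδ' : K * δ ≤ 1 / 1024 := by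
    have h2 : K * (K * δ) ≤ 1 / 1024 := by nlinarith
    have h3 : K * δ ≤ K * (K * δ) := by
      have : 0 ≤ K * δ := by positivity
      nlinarith
    linarith
  have hexp : K * (‖α - (2 : ℝ) • UU C' 1 α‖ + 2 * (δ * ‖α‖) +
      2 * ((1 / (16 * K) + 1 / (1024 * K)) * (4 * ‖α‖))) =
      K * ‖α - (2 : ℝ) • UU C' 1 α‖ + 2 * (K * δ) * ‖α‖ + (1 / 2 + 1 / 128) * ‖α‖ := by
    field_simp
    ring
  rw [hexp] at hmain
  have hα0 : 0 ≤ ‖α‖ := norm_nonneg _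
  have h2 : 2 * (K * δ) * ‖α‖ ≤ 2 * (1 / 1024) * ‖α‖ :=
    mul_le_mul_of_nonneg_right (by linarith) hα0
  have h3 : 0 ≤ K * ‖α - (2 : ℝ) • UU C' 1 α‖ := by positivity
  change ‖α‖ ≤ 5 / 2 * K * ‖α - (2 : ℝ) • UU C' 1 α‖
  linarith

end Pool.Agent.SmIso
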