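import Pool.Agent.SmIso.Abs
import Pool.Agent.SmIso.GapF
import Pool.Agent.SmIso.GapM

/-!
# The small isotropy theorem

Frames `f` of `h`, `e` of `perp h` (`exists_frame`), full frame `Sum.elim f e` (`IsFrame.full`).
`CF e x = (CF (Sum.elim f e) (inr x)).toBlocks₂₂` (definitional).  For `δ` preserving `h`:
`mat δ (Sum.elim f e) = fromBlocks (mat δ f) 0 0 (mat δ e)` (`pres_of_map`, `Pres.perp`).
`fullGap`, `cas_frame`, `UU_CF_one`, `CF_sym`, `CF_inv` feed `mGap_transfer`, `m_bounds`, and `abs_main` is applied with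
`C = CF e`, `Γ = {mat δ e}`, constant `(5/2) K`: `200 (25/4) K² δ = 1250 K² δ`.
Then `HasEinsteinMetric` as in `EinS.einstein_pair`, with the frame `e` of `perp h.toSubmodule`, Einstein constant `1/4`.
-/

namespace Pool.Agent.SmIso

open Matrix Pool.Agent.EStab Pool.Agent.EinS

variable {L : Type*} [LieRing L] [LieAlgebra ℝ L]

private theorem Asm_top (δ : L ≃ₗ⁅ℝ⁆ L) : EinS.Pres δ (⊤ : Submodule ℝ L) :=
  ⟨fun _ _ => Submodule.mem_top, fun _ _ => Submodule.mem_top⟩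

private theorem Asm_blocks {h : LieSubalgebra ℝ L} {nf ne : ℕ} {f : Fin nf → L} {e : Fin ne → L}
    (hf : IsFrame h.toSubmodule f) (he : IsFrame (perp h.toSubmodule) e) {δ : L ≃ₗ⁅ℝ⁆ L}
    (hδ : h.map (δ : L →ₗ⁅ℝ⁆ L) = h) :
    mat δ (Sum.elim f e) = fromBlocks (mat δ f) 0 0 (mat δ e) := by
  have hp := pres_of_map hδ
  have hp' := hp.perp
  ext x y
  rcases x with i | i <;> rcases y with j | j
  · rfl
  · change Qf L (δ (e j)) (f i) = 0
    exact hp'.1 _ (he.mem j) _ (hf.mem i)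
  · change Qf L (δ (f j)) (e i) = 0
    rw [Qf_symm]
    exact he.mem i _ (hp.1 _ (hf.mem j))
  · rfl

theorem small_isotropy [Module.Finite ℝ L] (hg : CompactSemisimple L) {h : LieSubalgebra ℝ L}
    {K δ : ℝ} (hK : 1 ≤ K) (hδ : 0 ≤ δ) (hKδ : 1250 * K ^ 2 * δ ≤ 1) (hgap : Gap h K)
    (hcas : CasimirSmall h δ) : HasEinsteinMetric L h.toSubmodule (stabAuts h) := by
  classical
  obtain ⟨nf, f, hf⟩ := exists_frame hg h.toSubmodule
  obtain ⟨ne, e, he⟩ := exists_frame hg (perp h.toSubmodule)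
  have hê := hf.full he
  have hKδ' : 1024 * K ^ 2 * δ ≤ 1 := by
    have : 0 ≤ K ^ 2 * δ := by positivity
    nlinarith
  set Γ' : Set (Matrix (Fin nf ⊕ Fin ne) (Fin nf ⊕ Fin ne) ℝ) :=
    {M | ∃ γ : L ≃ₗ⁅ℝ⁆ L, h.map (γ : L →ₗ⁅ℝ⁆ L) = h ∧ M = mat γ (Sum.elim f e)} with hΓ'
  set Γ : Set (Matrix (Fin ne) (Fin ne) ℝ) :=
    {M | ∃ γ : L ≃ₗ⁅ℝ⁆ L, h.map (γ : L →ₗ⁅ℝ⁆ L) = h ∧ M = mat γ e} with hΓ
  have h1 : ∀ M ∈ Γ', CInv (CF (Sum.elim f e)) M ∧
      ∃ M₁ M₂, M₂ ∈ Γ ∧ M = fromBlocks M₁ 0 0 M₂ := by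
    rintro M ⟨γ, hγ, rfl⟩
    exact ⟨CF_inv hê (Asm_top γ), mat γ f, mat γ e, ⟨γ, hγ, rfl⟩, Asm_blocks hf he hγ⟩
  have hC : (fun x => (CF (Sum.elim f e) (Sum.inr x)).toBlocks₂₂) = CF e := rfl
  have hcas' := cas_frame hcas hf he
  have hg1 := mGap_transfer (CF_sym (Sum.elim f e)) (UU_CF_one hê) hδ hcas' hK hKδ' h1
    (fullGap (by linarith) hgap hê)
  have hb := m_bounds (CF_sym (Sum.elim f e)) (UU_CF_one hê) hcas'
  rw [hC] at hg1 hb
  have h2 : ∀ κ ∈ Γ, CInv (CF e) κ := by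
    rintro κ ⟨γ, hγ, rfl⟩
    exact CF_inv he (pres_of_map hγ).perp
  obtain ⟨G, hGs, hG0, hGΓ, hGd, hRic⟩ := abs_main (CF_sym e) h2
    (K := 5 / 2 * K) (by linarith) hδ (by nlinarith) (fun v => (hb v).1) (fun v => (hb v).2) hg1
  have hG0' : ∀ x, 0 ≤ x ⬝ᵥ (G *ᵥ x) := fun x => by
    have h3 := hG0 x
    have h4 := dot_self_nonneg x
    linarith
  have hGG : G * G⁻¹ = 1 := Matrix.mul_nonsing_inv _ hGd
  obtain ⟨E, hE⟩ := exists_orthonormal hGs hG0' hGd.ne_zero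
  have hEd : E.det ≠ 0 := by
    intro h0
    have h1 := congrArg Matrix.det hE
    rw [Matrix.det_mul, h0, mul_zero, Matrix.det_one] at h1
    exact one_ne_zero h1.symm
  have hEE : E * E⁻¹ = 1 := Matrix.mul_nonsing_inv _ (isUnit_iff_ne_zero.2 hEd)
  set W := h.toSubmodule with hW
  refine ⟨perp W, prj e, bet e G, ne, fun i => XE e E i, 1 / 4,
    ?_, ?_, ?_, ?_, ?_, ?_, ?_, ?_, ?_, ?_, ?_⟩
  · -- complement
    constructor
    · rw [Submodule.disjoint_def]
      intro x hx hx'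
      exact Qf_eq_zero hg (hx' x hx)
    · rw [codisjoint_iff, eq_top_iff]
      intro x _
      have h3 : x = (∑ i, Qf L x (f i) • f i) + (x - ∑ i, Qf L x (f i) • f i) := by abel
      rw [h3]
      exact Submodule.add_mem_sup (frame_mem hf _) (hf.sub_mem_perp x)
  · intro y hy
    rw [prj_apply]
    refine Finset.sum_eq_zero fun x _ => ?_
    rw [Qf_symm, he.mem x y hy, zero_smul]
  · intro x hx
    exact (he.exp x hx).symm
  · intro y hy x hx z hz
    rw [Qf_lie', hx _ (h.lie_mem hy hz), neg_zero]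
  · rintro γ ⟨δ', h3, hγ⟩ x hx
    rw [hγ]
    exact (pres_of_map h3).perp.1 x hx
  · rintro γ ⟨δ', h3, hγ⟩ x hx y hy
    have hWp : EinS.Pres δ' (perp W) := (pres_of_map h3).perp
    rw [hγ, hγ, bet_apply, bet_apply, co_equiv he hWp, co_equiv he hWp]
    have hM := mat_orth he hWp
    have hM' : (mat δ' e)ᵀ * mat δ' e = 1 := mul_eq_one_comm.1 hM
    have hMG : mat δ' e * G * (mat δ' e)ᵀ = G := hGΓ _ ⟨δ', h3, rfl⟩
    have hMG' : (mat δ' e)ᵀ * (G * mat δ' e) = G := by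
      calc (mat δ' e)ᵀ * (G * mat δ' e)
          = (mat δ' e)ᵀ * (mat δ' e * G * (mat δ' e)ᵀ * mat δ' e) := by rw [hMG]
        _ = ((mat δ' e)ᵀ * mat δ' e) * G * ((mat δ' e)ᵀ * mat δ' e) := by
            simp only [Matrix.mul_assoc]
        _ = G := by rw [hM', Matrix.one_mul, Matrix.mul_one]
    have h5 : ∀ c d : Fin ne → ℝ, (mat δ' e *ᵥ c) ⬝ᵥ (G *ᵥ (mat δ' e *ᵥ d)) =
        c ⬝ᵥ (G *ᵥ d) := by
      intro c d
      rw [Matrix.mulVec_mulVec]
      have h6 : (mat δ' e *ᵥ c) ⬝ᵥ ((G * mat δ' e) *ᵥ d) =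
          c ⬝ᵥ ((mat δ' e)ᵀ *ᵥ ((G * mat δ' e) *ᵥ d)) := by
        rw [Matrix.dotProduct_mulVec c, ← Matrix.mulVec_transpose, Matrix.transpose_transpose]
      rw [h6, Matrix.mulVec_mulVec, hMG']
    exact h5 _ _
  · intro x y
    exact bet_symm e hGs x y
  · apply le_antisymm
    · rw [Submodule.span_le]
      rintro x ⟨i, rfl⟩
      exact Submodule.sum_mem _ fun y _ => Submodule.smul_mem _ _ (he.mem y)
    · intro x hx
      rw [he.exp x hx]
      refine Submodule.sum_mem _ fun y _ => Submodule.smul_mem _ _ ?_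
      have h1 : e y = ∑ i, E⁻¹ i y • XE e E i := by
        have h2 : ∀ i, XE e E i = ∑ z, E z i • e z := fun i => rfl
        simp only [h2, Finset.smul_sum, smul_smul]
        rw [Finset.sum_comm]
        have h3 : ∀ z, ∑ i, (E⁻¹ i y * E z i) • e z = (E * E⁻¹) z y • e z := by
          intro z
          rw [← Finset.sum_smul, Matrix.mul_apply]
          congr 1
          refine Finset.sum_congr rfl fun i _ => ?_
          rw [mul_comm]
        simp only [h3, hEE, Matrix.one_apply, ite_smul, one_smul, zero_smul]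
        simp
      rw [h1]
      refine Submodule.sum_mem _ fun i _ => Submodule.smul_mem _ _ (Submodule.subset_span ?_)
      exact ⟨i, rfl⟩
  · intro i j
    have hX : ∀ i, co e (XE e E i) = fun z => E z i := fun i => co_comb he fun z => E z i
    have h1 : ∀ i j, bet e G (XE e E i) (XE e E j) = (Eᵀ * G * E) i j := by
      intro i j
      rw [bet_apply, hX, hX, Matrix.mul_assoc, Matrix.mul_apply]
      unfold dotProduct
      refine Finset.sum_congr rfl fun z _ => ?_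
      rw [Matrix.transpose_apply, Matrix.mul_apply]
      rfl
    rw [h1, hE, Matrix.one_apply]
  · norm_num
  · intro x hx
    have h7 := ricci_eval (Equiv.refl (Fin ne)) he hE hGs hGG hx
    simp only [Equiv.refl_apply] at h7
    rw [h7, hRic, Matrix.smul_mulVec, dotProduct_smul, smul_eq_mul, bet_apply]

end Pool.Agent.SmIso
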