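import Pool.Agent.SmIso.Defs
import Pool.Agent.EinS.Main

/-!
# The gap constant: definitions and notation

Library used: `Pool/Agent/EinS` (helper64).  `Qf L` is minus the Killing form; `IsFrame W e`: `e` is a
`Qf`-orthonormal basis of `W`; `co e x` coordinates; `CF e x y z = Qf ⁅e x, e y⁆ (e z)`; `mat δ e` the
matrix of an automorphism; `lc C v = ∑ v a • C a`; `UU C A B = (tr (C_x A C_yᵀ B))_{xy}`, with
`v ⬝ᵥ (UU C A B *ᵥ v) = trace (B * (lc C v * A * (lc C v)ᵀ))` (`UU_quad`);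
`RicM C G Gi = (1/2) 1 - (1/2) UU C G Gi + (1/4) G * UU C Gi Gi * G` is the Ricci form.

The operator `Θ`: `Qf (Θ T x) y = TH T x y = - tr (ad x T ad y)`; it is `T ↦ ∑ ad_i T ad_i` up to sign and
`1 - 2 Θ = Casimir - 1` on the symmetric endomorphisms of `L`.  In a frame `e` of `L`: `Θ α = UU (CF e) 1 α`.
-/

namespace Pool.Agent.SmIso

open Matrix Pool.Agent.EStab Pool.Agent.EinS

section Lie

variable {L : Type*} [LieRing L] [LieAlgebra ℝ L]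

/-- The form of the operator `Θ T`. -/
noncomputable def TH (T : L →ₗ[ℝ] L) (x y : L) : ℝ :=
  -LinearMap.trace ℝ L ((LieAlgebra.ad ℝ L x : L →ₗ[ℝ] L) ∘ₗ T ∘ₗ (LieAlgebra.ad ℝ L y : L →ₗ[ℝ] L))

/-- `T` is symmetric. -/
def QSym (T : L →ₗ[ℝ] L) : Prop := ∀ x y, Qf L (T x) y = Qf L x (T y)

/-- `K` bounds the inverse of `1 - 2 Θ` on all symmetric endomorphisms. -/
def Gap0 (L : Type*) [LieRing L] [LieAlgebra ℝ L] (K : ℝ) : Prop :=
  ∀ T : L →ₗ[ℝ] L, QSym T → ∀ s : ℝ, (∀ x, |Qf L (T x) x - 2 * TH T x x| ≤ s * Qf L x x) →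
    ∀ x, |Qf L (T x) x| ≤ K * s * Qf L x x

/-- `K` bounds the inverse of `1 - 2 Θ` on the symmetric endomorphisms which commute with the
automorphisms preserving `h`. -/
def Gap (h : LieSubalgebra ℝ L) (K : ℝ) : Prop :=
  ∀ T : L →ₗ[ℝ] L, QSym T →
    (∀ δ : L ≃ₗ⁅ℝ⁆ L, h.map (δ : L →ₗ⁅ℝ⁆ L) = h → ∀ x, T (δ x) = δ (T x)) →
    ∀ s : ℝ, (∀ x, |Qf L (T x) x - 2 * TH T x x| ≤ s * Qf L x x) →
    ∀ x, |Qf L (T x) x| ≤ K * s * Qf L x x

theorem Gap0.gap {K : ℝ} (hK : Gap0 L K) (h : LieSubalgebra ℝ L) : Gap h K :=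
  fun T hT _ s hs => hK T hT s hs

end Lie

section Mat

variable {ι : Type*} [Fintype ι] [DecidableEq ι]

/-- Structure constants, totally antisymmetric. -/
structure CSym (C : ι → Matrix ι ι ℝ) : Prop where
  anti : ∀ x, (C x)ᵀ = -C x
  anti' : ∀ x y z, C y x z = -C x y z

/-- The orthogonal matrix `κ` preserves the structure constants. -/
def CInv (C : ι → Matrix ι ι ℝ) (κ : Matrix ι ι ℝ) : Prop :=
  κ * κᵀ = 1 ∧ ∀ a, κ * C a * κᵀ = ∑ b, κ b a • C b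

open scoped Matrix.Norms.L2Operator in
/-- `K` bounds the inverse of `1 - 2 Θ` on the symmetric matrices which are invariant under `Γ`, in the
`L²` operator norm. -/
def MGap (C : ι → Matrix ι ι ℝ) (Γ : Set (Matrix ι ι ℝ)) (K : ℝ) : Prop :=
  ∀ α : Matrix ι ι ℝ, α.IsSymm → (∀ κ ∈ Γ, κ * α * κᵀ = α) →
    ‖α‖ ≤ K * ‖α - (2 : ℝ) • UU C 1 α‖

end Mat

end Pool.Agent.SmIso
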