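import Pool.Agent.SmIso.IrrP
import Pool.Agent.SmIso.SoT
import Pool.Agent.EStab.PiLie
import Pool.Agent.EinS.Inv

/-!
# The Casimir operator of a subalgebra of `∏ so(N i)` with irreducible normaliser

As `so_casimir` in `SoCas.lean` (copy and adapt).  `y_1, ..., y_r` a `Qf`-frame of `h` in the product (`exists_frame`,
`compact_pi`), `r = finrank h`, `M i = - ∑_a ((y_a)_i)²`.  For `Q` as in `NormalizerIrreducibleAt` the elements
`(Q_j (y_a)_j Q_jᵀ)_j` form another frame of `h`, so `M i` commutes with `Q i`, so `M i = c_i`, and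
`N_i c_i = - ∑_a tr ((y_a)_i)² = ∑_a Qf (y_a)_i (y_a)_i / (N_i - 2) ≤ r / (N_i - 2)` (`Qf` of the product is the sum,
`killing_pi`).  `∑_a Qf ⁅y_a, x⁆ ⁅y_a, x⁆ = ∑_i ∑_a Qf ⁅(y_a)_i, x_i⁆ ⁅(y_a)_i, x_i⁆ ≤ ∑_i 4 c_i Qf x_i x_i ≤ δ Qf x x`.
Arbitrary orthonormal families in `h`: Bessel, as in `so_casimir`.
-/

namespace Pool.Agent.SmIso

open Matrix Pool.Agent.EStab Pool.Agent.EinS LieAlgebra.Orthogonal

section Gen

variable {L : Type*} [LieRing L] [LieAlgebra ℝ L]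

private theorem CasP_indep {n m : ℕ} {W : Submodule ℝ L} {e : Fin n → L} {f : Fin m → L}
    (he : IsFrame W e) (hf : IsFrame W f) (φ ψ : L →ₗ[ℝ] ℝ) :
    ∑ i, φ (e i) * ψ (e i) = ∑ j, φ (f j) * ψ (f j) := by
  have h1 : ∀ i, φ (e i) = ∑ j, Qf L (e i) (f j) * φ (f j) := by
    intro i
    conv_lhs => rw [hf.exp (e i) (he.mem i)]
    rw [map_sum]
    refine Finset.sum_congr rfl fun j _ => ?_
    rw [map_smul, smul_eq_mul]
  have h2 : ∀ j, ψ (f j) = ∑ i, Qf L (f j) (e i) * ψ (e i) := by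
    intro j
    conv_lhs => rw [he.exp (f j) (hf.mem j)]
    rw [map_sum]
    refine Finset.sum_congr rfl fun i _ => ?_
    rw [map_smul, smul_eq_mul]
  have h3 : ∀ i, φ (e i) * ψ (e i) = ∑ j, Qf L (e i) (f j) * φ (f j) * ψ (e i) := by
    intro i
    rw [h1 i, Finset.sum_mul]
  have h4 : ∀ j, φ (f j) * ψ (f j) = ∑ i, Qf L (e i) (f j) * φ (f j) * ψ (e i) := by
    intro j
    rw [h2 j, Finset.mul_sum]
    refine Finset.sum_congr rfl fun i _ => ?_
    rw [Qf_symm (f j) (e i)]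
    ring
  simp only [h3, h4]
  exact Finset.sum_comm

private theorem CasP_finrank (W : Submodule ℝ L) {n : ℕ} {e : Fin n → L}
    (he : IsFrame W e) : Module.finrank ℝ W = n := by
  have hli : LinearIndependent ℝ e := by
    rw [Fintype.linearIndependent_iff]
    intro c hc i
    have h1 := he.coord c i
    rw [hc, map_zero, LinearMap.zero_apply] at h1
    exact h1.symm
  have hspan : Submodule.span ℝ (Set.range e) = W := by
    apply le_antisymm
    · rw [Submodule.span_le]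
      rintro _ ⟨i, rfl⟩
      exact he.mem i
    · intro x hx
      rw [he.exp x hx]
      exact Submodule.sum_mem _ fun i _ => Submodule.smul_mem _ _
        (Submodule.subset_span ⟨i, rfl⟩)
  have h2 := finrank_span_eq_card hli
  rw [hspan, Fintype.card_fin] at h2
  exact h2

private theorem CasP_bessel [Module.Finite ℝ L] (hg : CompactSemisimple L) {W : Submodule ℝ L}
    {n m : ℕ} {e : Fin n → L} (he : IsFrame W e) {a : Fin m → L} (ha : ∀ j, a j ∈ W)
    (ho : ∀ i j, Qf L (a i) (a j) = if i = j then 1 else 0) (x : L) :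
    ∑ j, Qf L ⁅a j, x⁆ ⁅a j, x⁆ ≤ ∑ i, Qf L ⁅e i, x⁆ ⁅e i, x⁆ := by
  obtain ⟨k, g, hgf⟩ := exists_frame hg (⊤ : Submodule ℝ L)
  have h1 : ∀ y : L, Qf L ⁅y, x⁆ ⁅y, x⁆ = ∑ z, Qf L y ⁅x, g z⁆ ^ 2 := by
    intro y
    rw [hgf.parseval Submodule.mem_top]
    refine Finset.sum_congr rfl fun z _ => ?_
    rw [Qf_lie, sq]
  simp only [h1]
  rw [Finset.sum_comm]
  conv_rhs => rw [Finset.sum_comm]
  refine Finset.sum_le_sum fun z _ => ?_
  obtain ⟨u, hu⟩ : ∃ u, u = ⁅x, g z⁆ := ⟨_, rfl⟩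
  rw [← hu]
  obtain ⟨v, hv⟩ : ∃ v, v = ∑ i, Qf L u (e i) • e i := ⟨_, rfl⟩
  have hvW : v ∈ W := by
    rw [hv]
    exact Submodule.sum_mem _ fun i _ => W.smul_mem _ (he.mem i)
  have h2 : ∀ i, Qf L v (e i) = Qf L u (e i) := by
    intro i
    rw [hv]
    exact he.coord (fun i => Qf L u (e i)) i
  have h3 : ∀ j, Qf L (a j) u = Qf L v (a j) := by
    intro j
    rw [he.parseval (ha j) u, Qf_symm v (a j), he.parseval (ha j) v]
    refine Finset.sum_congr rfl fun i _ => ?_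
    rw [h2]
  have h4 : Qf L v v = ∑ i, Qf L (e i) u ^ 2 := by
    rw [he.parseval hvW v]
    refine Finset.sum_congr rfl fun i _ => ?_
    rw [h2, Qf_symm (e i) u, sq]
  simp only [h3]
  rw [← h4]
  exact bessel_fam hg ho v

end Gen

section One

variable {N : ℕ}

private theorem CasP_skewT (x : so (Fin N) ℝ) : (x.1)ᵀ = -x.1 :=
  (mem_so (Fin N) ℝ x.1).1 x.2

/-- the sum of the squares of the entries -/
private def CasP_hs (A : Matrix (Fin N) (Fin N) ℝ) : ℝ := ∑ a, ∑ b, A a b ^ 2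

private theorem CasP_hs_trace (A : Matrix (Fin N) (Fin N) ℝ) : CasP_hs A = (Aᵀ * A).trace := by
  unfold CasP_hs Matrix.trace
  rw [Finset.sum_comm]
  refine Finset.sum_congr rfl fun b _ => ?_
  rw [Matrix.diag_apply, Matrix.mul_apply]
  refine Finset.sum_congr rfl fun a _ => ?_
  rw [Matrix.transpose_apply, sq]

private theorem CasP_hs_T (A : Matrix (Fin N) (Fin N) ℝ) : CasP_hs Aᵀ = CasP_hs A := by
  unfold CasP_hs
  rw [Finset.sum_comm]
  rfl

private theorem CasP_hs_sub (A B : Matrix (Fin N) (Fin N) ℝ) :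
    CasP_hs (A - B) ≤ 2 * CasP_hs A + 2 * CasP_hs B := by
  unfold CasP_hs
  rw [Finset.mul_sum, Finset.mul_sum, ← Finset.sum_add_distrib]
  refine Finset.sum_le_sum fun a _ => ?_
  rw [Finset.mul_sum, Finset.mul_sum, ← Finset.sum_add_distrib]
  refine Finset.sum_le_sum fun b _ => ?_
  rw [Matrix.sub_apply]
  nlinarith [sq_nonneg (A a b + B a b)]

private theorem CasP_Qf_hs (x : so (Fin N) ℝ) :
    Qf (so (Fin N) ℝ) x x = ((N : ℝ) - 2) * CasP_hs x.1 := by
  rw [SmIso.Qf_so]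
  unfold CasP_hs
  congr 1
  refine Finset.sum_congr rfl fun a _ => Finset.sum_congr rfl fun b _ => ?_
  rw [sq]

private theorem CasP_br (hN : 3 ≤ N) (y x : so (Fin N) ℝ) :
    Qf (so (Fin N) ℝ) ⁅y, x⁆ ⁅y, x⁆ ≤
      ((N : ℝ) - 2) * (4 * (x.1ᵀ * (-(y.1 * y.1)) * x.1).trace) := by
  have hN3 : (3 : ℝ) ≤ N := by exact_mod_cast hN
  rw [CasP_Qf_hs]
  refine mul_le_mul_of_nonneg_left ?_ (by linarith)
  have h0 : (⁅y, x⁆ : so (Fin N) ℝ).1 = y.1 * x.1 - x.1 * y.1 := rfl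
  rw [h0]
  have h1 := CasP_hs_sub (y.1 * x.1) (x.1 * y.1)
  have h2 : CasP_hs (x.1 * y.1) = CasP_hs (y.1 * x.1) := by
    rw [← CasP_hs_T (x.1 * y.1), Matrix.transpose_mul, CasP_skewT, CasP_skewT,
      neg_mul_neg]
  have h3 : CasP_hs (y.1 * x.1) = (x.1ᵀ * (-(y.1 * y.1)) * x.1).trace := by
    rw [CasP_hs_trace, Matrix.transpose_mul, CasP_skewT y]
    congr 1
    simp only [Matrix.mul_neg, Matrix.neg_mul, Matrix.mul_assoc]
  rw [h2] at h1
  linarith

private theorem CasP_Qf_conj {Q : Matrix (Fin N) (Fin N) ℝ} (hQ : Q * Qᵀ = 1)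
    (δ : so (Fin N) ℝ → so (Fin N) ℝ)
    (hδ : ∀ x, (δ x : Matrix (Fin N) (Fin N) ℝ) = Q * (x : Matrix (Fin N) (Fin N) ℝ) * Qᵀ)
    (x y : so (Fin N) ℝ) :
    Qf (so (Fin N) ℝ) (δ x) (δ y) = Qf (so (Fin N) ℝ) x y := by
  have hQ' : Qᵀ * Q = 1 := mul_eq_one_comm.1 hQ
  have h1 : ∀ u v : so (Fin N) ℝ, ∑ a, ∑ b, u.1 a b * v.1 a b = (u.1ᵀ * v.1).trace := by
    intro u v
    unfold Matrix.trace
    rw [Finset.sum_comm]
    refine Finset.sum_congr rfl fun b _ => ?_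
    rw [Matrix.diag_apply, Matrix.mul_apply]
    refine Finset.sum_congr rfl fun a _ => ?_
    rw [Matrix.transpose_apply]
  rw [SmIso.Qf_so, SmIso.Qf_so, h1, h1, hδ, hδ]
  congr 1
  have h2 : (Q * (x : Matrix (Fin N) (Fin N) ℝ) * Qᵀ)ᵀ * (Q * (y : Matrix (Fin N) (Fin N) ℝ) * Qᵀ)
      = Q * ((x : Matrix (Fin N) (Fin N) ℝ)ᵀ * (y : Matrix (Fin N) (Fin N) ℝ)) * Qᵀ := by
    rw [Matrix.transpose_mul, Matrix.transpose_mul, Matrix.transpose_transpose]
    calc _ = Q * (x : Matrix (Fin N) (Fin N) ℝ)ᵀ * (Qᵀ * Q) * y * Qᵀ := by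
          simp only [Matrix.mul_assoc]
      _ = _ := by
          rw [hQ', Matrix.mul_one]
          simp only [Matrix.mul_assoc]
  rw [h2, Matrix.trace_mul_cycle, hQ', Matrix.one_mul]

end One

variable {n : ℕ} {N : Fin n → ℕ}

private theorem CasP_Qf_pi {L : Fin n → Type} [∀ i, LieRing (L i)] [∀ i, LieAlgebra ℝ (L i)]
    [∀ i, Module.Finite ℝ (L i)] (x y : ∀ i, L i) :
    Qf (∀ i, L i) x y = ∑ i, Qf (L i) (x i) (y i) := by
  rw [Qf_apply, killing_pi, ← Finset.sum_neg_distrib]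
  rfl

theorem so_casimirP (hN : ∀ i, 3 ≤ N i) {h : LieSubalgebra ℝ (∀ j, so (Fin (N j)) ℝ)}
    (hirr : ∀ i, NormalizerIrreducibleAt h i) {δ : ℝ}
    (hδ : ∀ i, 4 * (Module.finrank ℝ h : ℝ) / ((N i : ℝ) * ((N i : ℝ) - 2)) ≤ δ) :
    CasimirSmall h δ := by
  have hN3 : ∀ i, (3 : ℝ) ≤ N i := fun i => by exact_mod_cast hN i
  have hg : CompactSemisimple (∀ j, so (Fin (N j)) ℝ) := compact_pi fun j => so_compact (hN j)
  obtain ⟨r, e, he⟩ := exists_frame hg h.toSubmodule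
  have hr : Module.finrank ℝ h = r := CasP_finrank h.toSubmodule he
  have hcomp : ∀ i, ∃ c : ℝ, ∑ k, -((e k i).1 * (e k i).1) =
      c • (1 : Matrix (Fin (N i)) (Fin (N i)) ℝ) := by
    intro i
    obtain ⟨M, hM⟩ : ∃ M : Matrix (Fin (N i)) (Fin (N i)) ℝ,
        M = ∑ k, -((e k i).1 * (e k i).1) := ⟨_, rfl⟩
    have hMs : M.IsSymm := by
      unfold Matrix.IsSymm
      rw [hM, Matrix.transpose_sum]
      refine Finset.sum_congr rfl fun k _ => ?_
      rw [Matrix.transpose_neg, Matrix.transpose_mul, CasP_skewT, neg_mul_neg]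
    rw [← hM]
    refine scalar_of_commAt (by have := hN i; omega) (hirr i) hMs ?_
    intro Q hQ hh
    have hQ' : (Q i)ᵀ * Q i = 1 := mul_eq_one_comm.1 (hQ i)
    obtain ⟨ε, hεh, hε⟩ := exists_conjP hQ hh
    have hf : IsFrame h.toSubmodule (fun k => ε (e k)) := by
      have hmem : ∀ x ∈ h, ε x ∈ h := by
        intro x hx
        have h1 : ε x ∈ h.map (ε : (∀ j, so (Fin (N j)) ℝ) →ₗ⁅ℝ⁆ (∀ j, so (Fin (N j)) ℝ)) :=
          ⟨x, hx, rfl⟩
        rwa [hεh] at h1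
      have hq : ∀ x y, Qf (∀ j, so (Fin (N j)) ℝ) (ε x) (ε y) =
          Qf (∀ j, so (Fin (N j)) ℝ) x y := fun x y => Qf_equiv ε x y
      refine ⟨fun k => hmem _ (he.mem k), fun k l => ?_, fun y hy => ?_⟩
      · rw [hq, he.orth]
      · have h1 : y ∈ h.map (ε : (∀ j, so (Fin (N j)) ℝ) →ₗ⁅ℝ⁆ (∀ j, so (Fin (N j)) ℝ)) := by
          rw [hεh]
          exact hy
        obtain ⟨x, hx, hxy⟩ := h1
        have hxy' : ε x = y := hxy
        subst hxy'
        simp only [hq]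
        conv_lhs => rw [he.exp x hx]
        rw [map_sum]
        refine Finset.sum_congr rfl fun k _ => ?_
        rw [map_smul]
    have h2 : ∑ k, -((ε (e k) i).1 * (ε (e k) i).1) = ∑ k, -((e k i).1 * (e k i).1) := by
      ext a b
      rw [Matrix.sum_apply, Matrix.sum_apply]
      simp only [Matrix.neg_apply, Finset.sum_neg_distrib, Matrix.mul_apply]
      congr 1
      rw [Finset.sum_comm]
      conv_rhs => rw [Finset.sum_comm]
      refine Finset.sum_congr rfl fun d _ => ?_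
      let φ : Fin (N i) → Fin (N i) → ((∀ j, so (Fin (N j)) ℝ) →ₗ[ℝ] ℝ) := fun p q =>
        { toFun := fun x => (x i).1 p q
          map_add' := fun _ _ => rfl
          map_smul' := fun _ _ => rfl }
      exact CasP_indep hf he (φ a d) (φ d b)
    have h3 : Q i * M * (Q i)ᵀ = M := by
      rw [hM]
      conv_rhs => rw [← h2]
      rw [Finset.mul_sum, Finset.sum_mul]
      refine Finset.sum_congr rfl fun k _ => ?_
      rw [hε]
      calc _ = -(Q i * (e k i).1 * 1 * (e k i).1 * (Q i)ᵀ) := by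
            simp only [Matrix.mul_neg, Matrix.neg_mul, Matrix.mul_one, Matrix.mul_assoc]
        _ = -(Q i * (e k i).1 * ((Q i)ᵀ * Q i) * (e k i).1 * (Q i)ᵀ) := by rw [hQ']
        _ = _ := by
            simp only [Matrix.mul_assoc]
    calc Q i * M = Q i * M * ((Q i)ᵀ * Q i) := by rw [hQ', Matrix.mul_one]
      _ = Q i * M * (Q i)ᵀ * Q i := by simp only [Matrix.mul_assoc]
      _ = M * Q i := by rw [h3]
  choose c hc using hcomp
  have hq0 : ∀ k i, (-((e k i).1 * (e k i).1)).trace =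
      Qf (so (Fin (N i)) ℝ) (e k i) (e k i) / ((N i : ℝ) - 2) := by
    intro k i
    have h2 := hN3 i
    rw [CasP_Qf_hs, CasP_hs_trace, CasP_skewT, eq_div_iff (by linarith), ← Matrix.neg_mul, mul_comm]
  have htr : ∀ i, (N i : ℝ) * c i ≤ (r : ℝ) / ((N i : ℝ) - 2) := by
    intro i
    have h2 := hN3 i
    have h1 : (∑ k, -((e k i).1 * (e k i).1)).trace = (N i : ℝ) * c i := by
      rw [hc, Matrix.trace_smul, Matrix.trace_one, Fintype.card_fin, smul_eq_mul, mul_comm]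
    rw [← h1, Matrix.trace_sum]
    simp only [hq0]
    rw [← Finset.sum_div]
    refine div_le_div_of_nonneg_right ?_ (by linarith)
    calc ∑ k, Qf (so (Fin (N i)) ℝ) (e k i) (e k i)
        ≤ ∑ k : Fin r, (1 : ℝ) := by
          refine Finset.sum_le_sum fun k _ => ?_
          have h3 := he.orth k k
          rw [if_pos rfl, CasP_Qf_pi] at h3
          rw [← h3]
          exact Finset.single_le_sum (f := fun j => Qf (so (Fin (N j)) ℝ) (e k j) (e k j))
            (fun j _ => Qf_nonneg (so_compact (hN j)) _) (Finset.mem_univ i)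
      _ = (r : ℝ) := by
          rw [Finset.sum_const, Finset.card_univ, Fintype.card_fin, nsmul_eq_mul, mul_one]
  have hcδ : ∀ i, 4 * c i ≤ δ := by
    intro i
    refine le_trans ?_ (hδ i)
    rw [hr]
    have h2 := hN3 i
    have h3 := htr i
    have hN2 : (0 : ℝ) < (N i : ℝ) - 2 := by linarith
    have hN0 : (0 : ℝ) < (N i : ℝ) := by linarith
    rw [le_div_iff₀ hN2] at h3
    rw [le_div_iff₀ (mul_pos hN0 hN2)]
    nlinarith
  intro m a ha ho x
  have ho' : ∀ i j, Qf (∀ j, so (Fin (N j)) ℝ) (a i) (a j) = if i = j then 1 else 0 := by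
    intro i j
    rw [Qf_apply, ho]
    split_ifs <;> norm_num
  have h1 := CasP_bessel hg he (a := a) ha ho' x
  refine le_trans h1 ?_
  show _ ≤ δ * Qf (∀ j, so (Fin (N j)) ℝ) x x
  have h4 : ∀ k, Qf (∀ j, so (Fin (N j)) ℝ) ⁅e k, x⁆ ⁅e k, x⁆ =
      ∑ i, Qf (so (Fin (N i)) ℝ) ⁅e k i, x i⁆ ⁅e k i, x i⁆ := fun k => CasP_Qf_pi _ _
  simp only [h4]
  rw [Finset.sum_comm, CasP_Qf_pi x x, Finset.mul_sum]
  refine Finset.sum_le_sum fun i _ => ?_
  have h5 : ∑ k, Qf (so (Fin (N i)) ℝ) ⁅e k i, x i⁆ ⁅e k i, x i⁆ ≤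
      4 * c i * Qf (so (Fin (N i)) ℝ) (x i) (x i) := by
    calc _ ≤ ∑ k, ((N i : ℝ) - 2) * (4 * ((x i).1ᵀ * (-((e k i).1 * (e k i).1)) *
            (x i).1).trace) :=
          Finset.sum_le_sum fun k _ => CasP_br (hN i) (e k i) (x i)
      _ = ((N i : ℝ) - 2) * (4 * ((x i).1ᵀ * (∑ k, -((e k i).1 * (e k i).1)) *
            (x i).1).trace) := by
          rw [Finset.mul_sum, Finset.sum_mul, Matrix.trace_sum, Finset.mul_sum,
            Finset.mul_sum]
      _ = 4 * c i * Qf (so (Fin (N i)) ℝ) (x i) (x i) := by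
          rw [CasP_Qf_hs, CasP_hs_trace, hc, Matrix.mul_smul, Matrix.mul_one, Matrix.smul_mul,
            Matrix.trace_smul, smul_eq_mul]
          ring
  exact le_trans h5 (mul_le_mul_of_nonneg_right (hcδ i) (Qf_nonneg (so_compact (hN i)) _))

end Pool.Agent.SmIso
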