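import Pool.Agent.EStab.Defs

/-!
# Subalgebras with small Casimir operator
-/

namespace Pool.Agent.SmIso

open Matrix LieAlgebra.Orthogonal

section

variable {L : Type*} [LieRing L] [LieAlgebra ℝ L]

/-- The Casimir operator of `h` with respect to minus the Killing form of `L` is at most `δ`. -/
def CasimirSmall (h : LieSubalgebra ℝ L) (δ : ℝ) : Prop :=
  ∀ (n : ℕ) (a : Fin n → L), (∀ i, a i ∈ h) →
    (∀ i j, killingForm ℝ L (a i) (a j) = if i = j then -1 else 0) →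
    ∀ x, ∑ i, -killingForm ℝ L ⁅a i, x⁆ ⁅a i, x⁆ ≤ δ * -killingForm ℝ L x x

/-- The automorphisms of `L` which preserve `h`. -/
def stabAuts (h : LieSubalgebra ℝ L) : Set (L →ₗ[ℝ] L) :=
  {γ | ∃ δ : L ≃ₗ⁅ℝ⁆ L, h.map (δ : L →ₗ⁅ℝ⁆ L) = h ∧ ∀ x, γ x = δ x}

end

/-- The normaliser of `h` in `O(N)` acts irreducibly on `ℝ^N`. -/
def NormalizerIrreducible {N : ℕ} (h : LieSubalgebra ℝ (so (Fin N) ℝ)) : Prop :=
  ∀ U : Submodule ℝ (Fin N → ℝ),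
    (∀ Q : Matrix (Fin N) (Fin N) ℝ, Q * Qᵀ = 1 →
      (∀ u ∈ h, ∃ u' ∈ h, Q * (u : Matrix (Fin N) (Fin N) ℝ) * Qᵀ =
        (u' : Matrix (Fin N) (Fin N) ℝ)) →
      ∀ v ∈ U, Q *ᵥ v ∈ U) → U = ⊥ ∨ U = ⊤

end Pool.Agent.SmIso
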