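import Pool.Agent.SmIso.Defs

/-!
# Irreducible normalisers in products of orthogonal groups
-/

namespace Pool.Agent.SmIso

open Matrix LieAlgebra.Orthogonal

/-- The projection to the factor `O(N i)` of the normaliser of `h` in `∏ O(N j)` acts irreducibly on
`ℝ^(N i)`. -/
def NormalizerIrreducibleAt {n : ℕ} {N : Fin n → ℕ}
    (h : LieSubalgebra ℝ (∀ i, so (Fin (N i)) ℝ)) (i : Fin n) : Prop :=
  ∀ U : Submodule ℝ (Fin (N i) → ℝ),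
    (∀ Q : ∀ j, Matrix (Fin (N j)) (Fin (N j)) ℝ, (∀ j, Q j * (Q j)ᵀ = 1) →
      (∀ u ∈ h, ∃ u' ∈ h, ∀ j, Q j * (u j).1 * (Q j)ᵀ = (u' j).1) →
      ∀ v ∈ U, Q i *ᵥ v ∈ U) → U = ⊥ ∨ U = ⊤

end Pool.Agent.SmIso
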