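import Pool.Agent.SmIso.Nrm

/-!
# The Einstein equation near the normal metric

Write `Θ(A, B) = UU C A B` (bilinear; symmetric in `A, B` for symmetric arguments, `UU_comm`;
`‖Θ(A, B)‖ ≤ ‖A‖ ‖B‖`, `norm_UU_le`), `D = 1 - Θ(1, 1)`, `W = (1 + α)⁻¹ = 1 - α + R` with
`R = α² W` (or `W α²`), symmetric, `‖W‖ ≤ 1/(1-r) ≤ 4/3`, `‖R‖ ≤ (4/3) r²`.  Then

* `Θ(1 + α, W) = Θ(1, 1) + Θ(1, R) - Θ(α, α) + Θ(α, R)` (the first order terms cancel);
* `Θ(W, W) = Θ(1, 1) - 2 Θ(1, α) + S`, `S = 2 Θ(1, R) + Θ(α, α) - 2 Θ(α, R) + Θ(R, R)`, `‖S‖ ≤ 4.45 r²`;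
* `(1 + α) Θ(W, W) (1 + α) = Θ(1, 1) - 2 Θ(1, α) + α Θ(1, 1) + Θ(1, 1) α + S + α (S - 2 Θ(1, α))
   + (S - 2 Θ(1, α)) α + α Θ(W, W) α`.

So with `RicM C G Gi = (1/2) 1 - (1/2) Θ(G, Gi) + (1/4) G Θ(Gi, Gi) G`:
`RicM C (1 + α) W - (1/4)(1 + α) = (1/4)(α - 2 Θ(1, α)) + (1/4) D - (1/4)(α D + D α)
   - (1/2)(Θ(1, R) - Θ(α, α) + Θ(α, R)) + (1/4)(S + α (S - 2 Θ(1, α)) + (S - 2 Θ(1, α)) α + α Θ(W, W) α)`,
and the last terms have norm at most `(1/4)(2 δ) + (1/4)(2 r)(2 δ) + (4/3) r² + 3.12 r²`.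
(`‖1‖ ≤ 1`; the index type may be empty.)
-/

namespace Pool.Agent.SmIso

open Matrix Pool.Agent.EStab Pool.Agent.EinS
open scoped Matrix.Norms.L2Operator

variable {ι : Type*} [Fintype ι] [DecidableEq ι]

/-- `1 + α` is invertible. -/
theorem det_one_add {α : Matrix ι ι ℝ} (hα : ‖α‖ ≤ 1 / 4) : IsUnit (1 + α).det := by
  rw [isUnit_iff_ne_zero]
  intro h0
  obtain ⟨v, hv, hv0⟩ := Matrix.exists_mulVec_eq_zero_iff.2 h0
  apply hv
  rw [Matrix.add_mulVec, Matrix.one_mulVec] at hv0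
  have h1 : α *ᵥ v = -v := by
    rw [eq_neg_iff_add_eq_zero, add_comm]
    exact hv0
  have h2 := norm_mulVec_sq α v
  rw [h1, neg_dotProduct, dotProduct_neg, neg_neg] at h2
  have h3 : ‖α‖ ^ 2 ≤ 1 / 16 := by
    have := pow_le_pow_left₀ (norm_nonneg α) hα 2
    norm_num at this ⊢
    exact this
  have h4 : 0 ≤ v ⬝ᵥ v := dot_self_nonneg v
  have h5 : v ⬝ᵥ v = 0 := by nlinarith [mul_le_mul_of_nonneg_right h3 h4]
  exact dotProduct_self_eq_zero.1 h5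

private theorem Err_one : ‖(1 : Matrix ι ι ℝ)‖ ≤ 1 := by
  refine norm_le_of_quad Matrix.isSymm_one zero_le_one fun x => ?_
  rw [Matrix.one_mulVec, one_mul, abs_of_nonneg (dot_self_nonneg x)]

private theorem Err_add_left (C : ι → Matrix ι ι ℝ) (A B E : Matrix ι ι ℝ) :
    UU C (A + B) E = UU C A E + UU C B E := by
  ext x y
  simp only [UU, Matrix.of_apply, Matrix.add_apply, Matrix.mul_add, Matrix.add_mul,
    Matrix.trace_add]

private theorem Err_add_right (C : ι → Matrix ι ι ℝ) (A B E : Matrix ι ι ℝ) :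
    UU C E (A + B) = UU C E A + UU C E B := by
  ext x y
  simp only [UU, Matrix.of_apply, Matrix.add_apply, Matrix.mul_add, Matrix.trace_add]

private theorem Err_neg_left (C : ι → Matrix ι ι ℝ) (A E : Matrix ι ι ℝ) :
    UU C (-A) E = -UU C A E := by
  ext x y
  simp only [UU, Matrix.of_apply, Matrix.neg_apply, Matrix.mul_neg, Matrix.neg_mul,
    Matrix.trace_neg]

private theorem Err_neg_right (C : ι → Matrix ι ι ℝ) (A E : Matrix ι ι ℝ) :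
    UU C E (-A) = -UU C E A := by
  ext x y
  simp only [UU, Matrix.of_apply, Matrix.neg_apply, Matrix.mul_neg, Matrix.trace_neg]

/-- the expansion -/
private theorem Err_id {C : ι → Matrix ι ι ℝ} (hC : CSym C) {α R : Matrix ι ι ℝ}
    (hα : α.IsSymm) (hR : R.IsSymm) :
    RicM C (1 + α) (1 + -α + R) - (1 / 4 : ℝ) • (1 + α) -
      (1 / 4 : ℝ) • (α - (2 : ℝ) • UU C 1 α) =
    (1 / 4 : ℝ) • (1 - UU C 1 1) - (1 / 4 : ℝ) • (α * (1 - UU C 1 1) + (1 - UU C 1 1) * α) -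
      (1 / 2 : ℝ) • (UU C 1 R - UU C α α + UU C α R) +
      (1 / 4 : ℝ) • (((2 : ℝ) • UU C 1 R + UU C α α - (2 : ℝ) • UU C α R + UU C R R) +
        α * (((2 : ℝ) • UU C 1 R + UU C α α - (2 : ℝ) • UU C α R + UU C R R) -
          (2 : ℝ) • UU C 1 α) +
        (((2 : ℝ) • UU C 1 R + UU C α α - (2 : ℝ) • UU C α R + UU C R R) -
          (2 : ℝ) • UU C 1 α) * α +
        α * UU C (1 + -α + R) (1 + -α + R) * α) := by
  have e1 : UU C α 1 = UU C 1 α := UU_comm hC hα Matrix.isSymm_one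
  have e2 : UU C R 1 = UU C 1 R := UU_comm hC hR Matrix.isSymm_one
  have e3 : UU C R α = UU C α R := UU_comm hC hR hα
  unfold RicM
  simp only [Err_add_left, Err_add_right, Err_neg_left, Err_neg_right, e1, e2, e3, Matrix.mul_add,
    Matrix.add_mul, Matrix.mul_sub, Matrix.sub_mul, Matrix.mul_smul, Matrix.smul_mul,
    Matrix.mul_one, Matrix.one_mul, Matrix.mul_neg, Matrix.neg_mul]
  module

theorem err_bound {C : ι → Matrix ι ι ℝ} (hC : CSym C)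
    (h1 : ∀ v, v ⬝ᵥ (UU C 1 1 *ᵥ v) ≤ v ⬝ᵥ v) {δ : ℝ} (hD : ‖1 - UU C 1 1‖ ≤ 2 * δ)
    {α : Matrix ι ι ℝ} (hα : α.IsSymm) {r : ℝ} (hr : r ≤ 1 / 4) (hαr : ‖α‖ ≤ r) :
    ‖RicM C (1 + α) (1 + α)⁻¹ - (1 / 4 : ℝ) • (1 + α) - (1 / 4 : ℝ) • (α - (2 : ℝ) • UU C 1 α)‖
      ≤ δ / 2 + δ * r + 5 * r ^ 2 := by
  have hr0 : 0 ≤ r := (norm_nonneg α).trans hαr
  have hδ0 : 0 ≤ δ := by
    have := (norm_nonneg _).trans hD
    linarith
  have hU := det_one_add (hαr.trans hr)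
  obtain ⟨W, hW⟩ : ∃ W : Matrix ι ι ℝ, W = (1 + α)⁻¹ := ⟨_, rfl⟩
  have hWl : W * (1 + α) = 1 := by rw [hW, Matrix.nonsing_inv_mul _ hU]
  have hWr : (1 + α) * W = 1 := by rw [hW, Matrix.mul_nonsing_inv _ hU]
  have hWs : W.IsSymm := by
    unfold Matrix.IsSymm
    rw [hW, Matrix.transpose_nonsing_inv, Matrix.transpose_add, Matrix.transpose_one, hα.eq]
  have hW1 : W = 1 + -(α * W) := by
    have := hWr
    rw [Matrix.add_mul, Matrix.one_mul] at this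
    rw [← this]
    abel
  have hW2 : W = 1 + -(W * α) := by
    have := hWl
    rw [Matrix.mul_add, Matrix.mul_one] at this
    rw [← this]
    abel
  have hWn : ‖W‖ ≤ 4 / 3 := by
    have h2 : ‖W‖ ≤ 1 + r * ‖W‖ := by
      calc ‖W‖ = ‖1 + -(α * W)‖ := by rw [← hW1]
        _ ≤ ‖(1 : Matrix ι ι ℝ)‖ + ‖-(α * W)‖ := norm_add_le _ _
        _ ≤ 1 + r * ‖W‖ := by
          rw [norm_neg]
          refine add_le_add Err_one ((norm_mul_le _ _).trans ?_)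
          exact mul_le_mul_of_nonneg_right hαr (norm_nonneg _)
    nlinarith [norm_nonneg W, mul_le_mul_of_nonneg_right hr (norm_nonneg W)]
  obtain ⟨R, hR⟩ : ∃ R : Matrix ι ι ℝ, R = α * W * α := ⟨_, rfl⟩
  have hRs : R.IsSymm := by
    unfold Matrix.IsSymm
    rw [hR, Matrix.transpose_mul, Matrix.transpose_mul, hα.eq, hWs.eq, Matrix.mul_assoc]
  have hWR : W = 1 + -α + R := by
    have h2 : α * W = α + -(α * W * α) := by
      conv_lhs => rw [hW2]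
      rw [Matrix.mul_add, Matrix.mul_one, Matrix.mul_neg, Matrix.mul_assoc]
    rw [hR]
    conv_lhs => rw [hW1, h2]
    abel
  have hRn : ‖R‖ ≤ 4 / 3 * r ^ 2 := by
    rw [hR]
    calc ‖α * W * α‖ ≤ ‖α * W‖ * ‖α‖ := norm_mul_le _ _
      _ ≤ (‖α‖ * ‖W‖) * ‖α‖ := mul_le_mul_of_nonneg_right (norm_mul_le _ _) (norm_nonneg _)
      _ ≤ (r * (4 / 3)) * r := by
        refine mul_le_mul (mul_le_mul hαr hWn (norm_nonneg _) hr0) hαr (norm_nonneg _) ?_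
        positivity
      _ = 4 / 3 * r ^ 2 := by ring
  have hone := Err_one (ι := ι)
  have s1 : (1 : Matrix ι ι ℝ).IsSymm := Matrix.isSymm_one
  have hr2 : 0 ≤ r ^ 2 := sq_nonneg r
  have hr3 : r ^ 2 ≤ 1 / 16 := by nlinarith
  have n1R : ‖UU C 1 R‖ ≤ 4 / 3 * r ^ 2 := by
    refine (norm_UU_le h1 s1 hRs).trans ?_
    calc ‖(1 : Matrix ι ι ℝ)‖ * ‖R‖ ≤ 1 * (4 / 3 * r ^ 2) :=
          mul_le_mul hone hRn (norm_nonneg _) zero_le_one
      _ = _ := one_mul _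
  have n1α : ‖UU C 1 α‖ ≤ r := by
    refine (norm_UU_le h1 s1 hα).trans ?_
    calc ‖(1 : Matrix ι ι ℝ)‖ * ‖α‖ ≤ 1 * r :=
          mul_le_mul hone hαr (norm_nonneg _) zero_le_one
      _ = _ := one_mul _
  have nαα : ‖UU C α α‖ ≤ r ^ 2 := by
    refine (norm_UU_le h1 hα hα).trans ?_
    rw [pow_two]
    exact mul_le_mul hαr hαr (norm_nonneg _) hr0
  have nαR : ‖UU C α R‖ ≤ 1 / 3 * r ^ 2 := by
    refine (norm_UU_le h1 hα hRs).trans ?_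
    calc ‖α‖ * ‖R‖ ≤ 1 / 4 * (4 / 3 * r ^ 2) :=
          mul_le_mul (hαr.trans hr) hRn (norm_nonneg _) (by norm_num)
      _ = _ := by ring
  have nRR : ‖UU C R R‖ ≤ 1 / 9 * r ^ 2 := by
    refine (norm_UU_le h1 hRs hRs).trans ?_
    have h2 : ‖R‖ ≤ 1 / 12 := hRn.trans (by nlinarith)
    calc ‖R‖ * ‖R‖ ≤ 1 / 12 * (4 / 3 * r ^ 2) :=
          mul_le_mul h2 hRn (norm_nonneg _) (by norm_num)
      _ = _ := by ring
  have nWW : ‖UU C W W‖ ≤ 16 / 9 := by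
    refine (norm_UU_le h1 hWs hWs).trans ?_
    calc ‖W‖ * ‖W‖ ≤ 4 / 3 * (4 / 3) := mul_le_mul hWn hWn (norm_nonneg _) (by norm_num)
      _ = _ := by norm_num
  have nsm : ∀ (c : ℝ) (A : Matrix ι ι ℝ), 0 ≤ c → ‖c • A‖ = c * ‖A‖ := fun c A hc => by
    rw [norm_smul, Real.norm_eq_abs, abs_of_nonneg hc]
  -- `S`
  obtain ⟨S, hS⟩ : ∃ S : Matrix ι ι ℝ,
      S = (2 : ℝ) • UU C 1 R + UU C α α - (2 : ℝ) • UU C α R + UU C R R := ⟨_, rfl⟩
  have nS : ‖S‖ ≤ 40 / 9 * r ^ 2 := by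
    rw [hS]
    have g1 := norm_add_le ((2 : ℝ) • UU C 1 R + UU C α α - (2 : ℝ) • UU C α R) (UU C R R)
    have g2 := norm_sub_le ((2 : ℝ) • UU C 1 R + UU C α α) ((2 : ℝ) • UU C α R)
    have g3 := norm_add_le ((2 : ℝ) • UU C 1 R) (UU C α α)
    rw [nsm _ _ (by norm_num)] at g2 g3
    linarith
  have nE : ‖S - (2 : ℝ) • UU C 1 α‖ ≤ 40 / 9 * r ^ 2 + 2 * r := by
    have g1 := norm_sub_le S ((2 : ℝ) • UU C 1 α)
    rw [nsm _ _ (by norm_num)] at g1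
    linarith
  have nE0 : 0 ≤ 40 / 9 * r ^ 2 + 2 * r := by positivity
  have nαE : ‖α * (S - (2 : ℝ) • UU C 1 α)‖ ≤ 28 / 9 * r ^ 2 := by
    refine (norm_mul_le _ _).trans ((mul_le_mul hαr nE (norm_nonneg _) hr0).trans ?_)
    nlinarith [mul_le_mul_of_nonneg_right hr hr2]
  have nEα : ‖(S - (2 : ℝ) • UU C 1 α) * α‖ ≤ 28 / 9 * r ^ 2 := by
    refine (norm_mul_le _ _).trans ((mul_le_mul nE hαr (norm_nonneg _) nE0).trans ?_)
    nlinarith [mul_le_mul_of_nonneg_right hr hr2]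
  have nαWα : ‖α * UU C W W * α‖ ≤ 16 / 9 * r ^ 2 := by
    calc ‖α * UU C W W * α‖ ≤ ‖α * UU C W W‖ * ‖α‖ := norm_mul_le _ _
      _ ≤ (‖α‖ * ‖UU C W W‖) * ‖α‖ :=
        mul_le_mul_of_nonneg_right (norm_mul_le _ _) (norm_nonneg _)
      _ ≤ (r * (16 / 9)) * r := by
        refine mul_le_mul (mul_le_mul hαr nWW (norm_nonneg _) hr0) hαr (norm_nonneg _) ?_
        positivity
      _ = 16 / 9 * r ^ 2 := by ring
  have nαD : ‖α * (1 - UU C 1 1)‖ ≤ r * (2 * δ) :=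
    (norm_mul_le _ _).trans (mul_le_mul hαr hD (norm_nonneg _) hr0)
  have nDα : ‖(1 - UU C 1 1) * α‖ ≤ r * (2 * δ) := by
    rw [mul_comm r]
    exact (norm_mul_le _ _).trans (mul_le_mul hD hαr (norm_nonneg _) (by positivity))
  rw [← hW, hWR, Err_id hC hα hRs, ← hWR, ← hS]
  have f1 := norm_add_le ((1 / 4 : ℝ) • (1 - UU C 1 1) -
    (1 / 4 : ℝ) • (α * (1 - UU C 1 1) + (1 - UU C 1 1) * α) -
      (1 / 2 : ℝ) • (UU C 1 R - UU C α α + UU C α R))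
    ((1 / 4 : ℝ) • (S + α * (S - (2 : ℝ) • UU C 1 α) + (S - (2 : ℝ) • UU C 1 α) * α +
        α * UU C W W * α))
  have f2 := norm_sub_le ((1 / 4 : ℝ) • (1 - UU C 1 1) -
    (1 / 4 : ℝ) • (α * (1 - UU C 1 1) + (1 - UU C 1 1) * α))
      ((1 / 2 : ℝ) • (UU C 1 R - UU C α α + UU C α R))
  have f3 := norm_sub_le ((1 / 4 : ℝ) • (1 - UU C 1 1))
    ((1 / 4 : ℝ) • (α * (1 - UU C 1 1) + (1 - UU C 1 1) * α))
  rw [nsm _ _ (by norm_num)] at f1 f2 f3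
  rw [nsm _ _ (by norm_num)] at f3
  have f4 := norm_add_le (α * (1 - UU C 1 1)) ((1 - UU C 1 1) * α)
  have f5 := norm_add_le (UU C 1 R - UU C α α) (UU C α R)
  have f6 := norm_sub_le (UU C 1 R) (UU C α α)
  have f7 := norm_add_le (S + α * (S - (2 : ℝ) • UU C 1 α) + (S - (2 : ℝ) • UU C 1 α) * α)
    (α * UU C W W * α)
  have f8 := norm_add_le (S + α * (S - (2 : ℝ) • UU C 1 α)) ((S - (2 : ℝ) • UU C 1 α) * α)
  have f9 := norm_add_le S (α * (S - (2 : ℝ) • UU C 1 α))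
  refine f1.trans ?_
  nlinarith

end Pool.Agent.SmIso
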