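import Pool.Agent.SmIso.GapF
import Pool.Agent.EStab.PiLie

/-!
# The gap constant of products

For `x ∈ ∏ L i` write `x_i` for the `i`-th component, seen in the product.  `TH T x x = ∑ i, TH (T_ii) x_i x_i`
where `T_ii : L i → L i` is the `i`-th diagonal block (brackets of different factors vanish; `killing_pi`, trace of
a product: see `EStab/PiLie.lean`).  With `β(x, y) = Qf (T x) y - 2 TH T x y`:
`Qf (T x) x = β(x, x) - ∑ i, β(x_i, x_i) + ∑ i, Qf (T_ii x_i) x_i`, `|β(x_i, x_i)| ≤ s Qf x_i x_i`, and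
`|Qf (T_ii x_i) x_i| ≤ K s Qf x_i x_i` by the hypothesis on `L i` (the form `Qf (T_ii x_i) x_i - 2 TH (T_ii) x_i x_i` is
`β(x_i, x_i)`); `∑ i, Qf x_i x_i = Qf x x`.
-/

namespace Pool.Agent.SmIso

open Matrix Pool.Agent.EStab Pool.Agent.EinS

section

variable {n : ℕ} {L : Fin n → Type} [∀ i, LieRing (L i)] [∀ i, LieAlgebra ℝ (L i)]
    [∀ i, Module.Finite ℝ (L i)]

/-- the diagonal block -/
private noncomputable def PiGap_blk (T : (∀ i, L i) →ₗ[ℝ] (∀ i, L i)) (i : Fin n) :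
    L i →ₗ[ℝ] L i :=
  LinearMap.proj i ∘ₗ T ∘ₗ LinearMap.single ℝ L i

private theorem PiGap_Qf (x y : ∀ i, L i) :
    Qf (∀ i, L i) x y = ∑ i, Qf (L i) (x i) (y i) := by
  simp only [Qf_apply]
  rw [killing_pi, Finset.sum_neg_distrib]

private theorem PiGap_Qf_single (i : Fin n) (x : ∀ i, L i) (u : L i) :
    Qf (∀ i, L i) x (LinearMap.single ℝ L i u) = Qf (L i) (x i) u := by
  rw [PiGap_Qf, Finset.sum_eq_single i]
  · rw [LinearMap.single_apply, Pi.single_eq_same]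
  · intro j _ hj
    rw [LinearMap.single_apply, Pi.single_eq_of_ne hj, map_zero]
  · intro hi
    exact absurd (Finset.mem_univ i) hi

private theorem PiGap_blk_sym {T : (∀ i, L i) →ₗ[ℝ] (∀ i, L i)} (hT : QSym T) (i : Fin n) :
    QSym (PiGap_blk T i) := by
  intro u v
  have h1 := hT (LinearMap.single ℝ L i u) (LinearMap.single ℝ L i v)
  rw [PiGap_Qf_single, Qf_symm (LinearMap.single ℝ L i u), PiGap_Qf_single] at h1
  rw [Qf_symm u]
  exact h1

private theorem PiGap_TH (T : (∀ i, L i) →ₗ[ℝ] (∀ i, L i)) (x y : ∀ i, L i) :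
    TH T x y = ∑ i, TH (PiGap_blk T i) (x i) (y i) := by
  unfold TH
  rw [piLie_trace, Finset.sum_neg_distrib]
  congr 1
  refine Finset.sum_congr rfl fun i _ => ?_
  congr 1
  refine LinearMap.ext fun u => ?_
  change ⁅x i, T ⁅y, LinearMap.single ℝ L i u⁆ i⁆ = ⁅x i, T (LinearMap.single ℝ L i ⁅y i, u⁆) i⁆
  have h3 : ⁅y, LinearMap.single ℝ L i u⁆ = LinearMap.single ℝ L i ⁅y i, u⁆ := by
    funext l
    change ⁅y l, (LinearMap.single ℝ L i u) l⁆ = _
    by_cases hl : l = i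
    · subst hl
      simp only [LinearMap.single_apply, Pi.single_eq_same]
    · simp only [LinearMap.single_apply, Pi.single_eq_of_ne hl, lie_zero]
  rw [h3]

private theorem PiGap_TH_zero {M : Type} [LieRing M] [LieAlgebra ℝ M] (T : M →ₗ[ℝ] M) (y : M) :
    TH T 0 y = 0 := by
  unfold TH
  rw [map_zero]
  change -LinearMap.trace ℝ M ((0 : M →ₗ[ℝ] M) ∘ₗ _) = 0
  rw [LinearMap.zero_comp, map_zero, neg_zero]

private theorem PiGap_TH_single (T : (∀ i, L i) →ₗ[ℝ] (∀ i, L i)) (i : Fin n) (u : L i) :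
    TH T (LinearMap.single ℝ L i u) (LinearMap.single ℝ L i u) = TH (PiGap_blk T i) u u := by
  rw [PiGap_TH, Finset.sum_eq_single i]
  · rw [LinearMap.single_apply, Pi.single_eq_same]
  · intro j _ hj
    rw [LinearMap.single_apply, Pi.single_eq_of_ne hj, PiGap_TH_zero]
  · intro hi
    exact absurd (Finset.mem_univ i) hi

end

/-- The diagonal blocks of `T`: the bound for `T` follows from the bounds for its diagonal blocks. -/
theorem pi_block {n : ℕ} {L : Fin n → Type} [∀ i, LieRing (L i)] [∀ i, LieAlgebra ℝ (L i)]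
    [∀ i, Module.Finite ℝ (L i)] (_hg : ∀ i, CompactSemisimple (L i))
    {T : (∀ i, L i) →ₗ[ℝ] (∀ i, L i)} (hT : QSym T) {s : ℝ}
    (hs : ∀ x, |Qf (∀ i, L i) (T x) x - 2 * TH T x x| ≤ s * Qf (∀ i, L i) x x) :
    ∃ B : ∀ i, L i →ₗ[ℝ] L i, (∀ i, QSym (B i)) ∧ (∀ i x, B i x = T (Pi.single i x) i) ∧
      (∀ i x, |Qf (L i) (B i x) x - 2 * TH (B i) x x| ≤ s * Qf (L i) x x) ∧
      (∀ K : ℝ, 0 ≤ K → (∀ i x, |Qf (L i) (B i x) x| ≤ K * s * Qf (L i) x x) →
        ∀ x, |Qf (∀ i, L i) (T x) x| ≤ (K + 2) * s * Qf (∀ i, L i) x x) := by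
  have hb : ∀ (i : Fin n) (u : L i),
      |Qf (L i) (PiGap_blk T i u) u - 2 * TH (PiGap_blk T i) u u| ≤ s * Qf (L i) u u := by
    intro i u
    have h1 := hs (LinearMap.single ℝ L i u)
    rw [PiGap_Qf_single, PiGap_Qf_single, PiGap_TH_single, LinearMap.single_apply,
      Pi.single_eq_same] at h1
    exact h1
  refine ⟨PiGap_blk T, PiGap_blk_sym hT, fun i x => rfl, hb, fun K _ hc x => ?_⟩
  have h0 := hs x
  have h1 : Qf (∀ i, L i) (T x) x = (Qf (∀ i, L i) (T x) x - 2 * TH T x x) -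
      ∑ i, (Qf (L i) (PiGap_blk T i (x i)) (x i) - 2 * TH (PiGap_blk T i) (x i) (x i)) +
      ∑ i, Qf (L i) (PiGap_blk T i (x i)) (x i) := by
    rw [PiGap_TH T x x, Finset.sum_sub_distrib, Finset.mul_sum]
    ring
  have h2 : |∑ i, (Qf (L i) (PiGap_blk T i (x i)) (x i) - 2 * TH (PiGap_blk T i) (x i) (x i))| ≤
      s * Qf (∀ i, L i) x x := by
    rw [PiGap_Qf x x, Finset.mul_sum]
    exact (Finset.abs_sum_le_sum_abs _ _).trans (Finset.sum_le_sum fun i _ => hb i (x i))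
  have h3 : |∑ i, Qf (L i) (PiGap_blk T i (x i)) (x i)| ≤ K * s * Qf (∀ i, L i) x x := by
    rw [PiGap_Qf x x, Finset.mul_sum]
    exact (Finset.abs_sum_le_sum_abs _ _).trans (Finset.sum_le_sum fun i _ => hc i (x i))
  rw [h1]
  rw [abs_le] at h0 h2 h3 ⊢
  constructor
  · nlinarith [h0.1, h2.2, h3.1]
  · nlinarith [h0.2, h2.1, h3.2]

theorem gap0_pi {n : ℕ} {L : Fin n → Type} [∀ i, LieRing (L i)] [∀ i, LieAlgebra ℝ (L i)]
    [∀ i, Module.Finite ℝ (L i)] (hg : ∀ i, CompactSemisimple (L i)) {K : ℝ} (hK : 0 ≤ K)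
    (h : ∀ i, Gap0 (L i) K) : Gap0 (∀ i, L i) (K + 2) := by
  intro T hT s hs
  obtain ⟨B, hB1, _, hB3, hB4⟩ := pi_block hg hT hs
  exact hB4 K hK fun i => h i (B i) (hB1 i) s (hB3 i)

end Pool.Agent.SmIso
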