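import Pool.Agent.SmIso.SoT
import Pool.Agent.SmIso.Irr

/-!
# The Ricci contraction of an invariant endomorphism is a scalar

`t = tn T`, `ρ a c = ∑ j, t a j c j`, symmetric by `TSym`.  For `Q` orthogonal with `Q h Qᵀ ⊆ h` take `δ` from `exists_conj`:
`T (δ x) = δ (T x)` with `x = F a b`, `δ (F a b) = ∑ p q, (1/2) (Q p a Q q b - Q p b Q q a) F p q`:
`∑ p q, Q p a Q q b t p q c d = ∑ r s, Q c r Q d s t a b r s`.  Multiply by `Q d b` and sum over `b`, `d`: with
`∑ b, Q q b Q d b = δ_qd` and `∑ d, Q d s Q d b = δ_sb` this is `∑ p, Q p a ρ p c = ∑ r, Q c r ρ a r`, i.e. `Qᵀ ρ = ρ Qᵀ`,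
i.e. `Q ρ = ρ Q`.  Then `scalar_of_comm`.
-/

namespace Pool.Agent.SmIso

open Matrix Pool.Agent.EStab Pool.Agent.EinS LieAlgebra.Orthogonal

variable {N : ℕ}

private theorem Rho_comm1 (f : Fin N → Fin N → Fin N → Fin N → ℝ) :
    ∑ b, ∑ d, ∑ p, ∑ q, f b d p q = ∑ p, ∑ q, ∑ d, ∑ b, f b d p q := by
  calc ∑ b, ∑ d, ∑ p, ∑ q, f b d p q = ∑ b, ∑ p, ∑ d, ∑ q, f b d p q :=
        Finset.sum_congr rfl fun b _ => Finset.sum_comm
    _ = ∑ p, ∑ b, ∑ d, ∑ q, f b d p q := Finset.sum_comm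
    _ = ∑ p, ∑ b, ∑ q, ∑ d, f b d p q :=
        Finset.sum_congr rfl fun p _ => Finset.sum_congr rfl fun b _ => Finset.sum_comm
    _ = ∑ p, ∑ q, ∑ b, ∑ d, f b d p q :=
        Finset.sum_congr rfl fun p _ => Finset.sum_comm
    _ = ∑ p, ∑ q, ∑ d, ∑ b, f b d p q :=
        Finset.sum_congr rfl fun p _ => Finset.sum_congr rfl fun q _ => Finset.sum_comm

private theorem Rho_comm2 (f : Fin N → Fin N → Fin N → Fin N → ℝ) :
    ∑ b, ∑ d, ∑ r, ∑ s, f b d r s = ∑ r, ∑ b, ∑ s, ∑ d, f b d r s := by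
  calc ∑ b, ∑ d, ∑ r, ∑ s, f b d r s = ∑ b, ∑ r, ∑ d, ∑ s, f b d r s :=
        Finset.sum_congr rfl fun b _ => Finset.sum_comm
    _ = ∑ r, ∑ b, ∑ d, ∑ s, f b d r s := Finset.sum_comm
    _ = ∑ r, ∑ b, ∑ s, ∑ d, f b d r s :=
        Finset.sum_congr rfl fun r _ => Finset.sum_congr rfl fun b _ => Finset.sum_comm

/-- The entries of the conjugate of an elementary matrix. -/
private theorem Rho_conj (Q : Matrix (Fin N) (Fin N) ℝ) (a b p q : Fin N) :
    (Q * (Fm a b : Matrix (Fin N) (Fin N) ℝ) * Qᵀ) p q = Q p a * Q q b - Q p b * Q q a := by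
  have h1 : (Fm a b : Matrix (Fin N) (Fin N) ℝ) =
      Matrix.single a b 1 - Matrix.single b a 1 := rfl
  have h2 : ∀ c d : Fin N, (Q * Matrix.single c d (1 : ℝ) * Qᵀ) p q = Q p c * Q q d := by
    intro c d
    rw [Matrix.mul_apply]
    have h3 : ∀ j, (Q * Matrix.single c d (1 : ℝ)) p j * Qᵀ j q =
        if j = d then Q p c * Q q d else 0 := by
      intro j
      rw [Matrix.mul_apply]
      by_cases hj : j = d
      · subst hj
        rw [if_pos rfl, Finset.sum_eq_single c]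
        · rw [Matrix.single_apply_same, mul_one, Matrix.transpose_apply]
        · intro i _ hi
          rw [Matrix.single_apply_of_ne, mul_zero]
          rintro ⟨h4, -⟩
          exact hi h4.symm
        · intro h4
          exact absurd (Finset.mem_univ c) h4
      · rw [if_neg hj, Finset.sum_eq_zero, zero_mul]
        intro i _
        rw [Matrix.single_apply_of_ne, mul_zero]
        rintro ⟨-, h4⟩
        exact hj h4.symm
    rw [Finset.sum_congr rfl fun j _ => h3 j, Finset.sum_ite_eq' Finset.univ d]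
    rw [if_pos (Finset.mem_univ d)]
  rw [h1, Matrix.mul_sub, Matrix.sub_mul, Matrix.sub_apply, h2, h2]

/-- The Ricci contraction commutes with an orthogonal matrix whose conjugation commutes with `T`. -/
theorem rho_comm {N : ℕ} {T : so (Fin N) ℝ →ₗ[ℝ] so (Fin N) ℝ} (_hT : QSym T)
    {Q : Matrix (Fin N) (Fin N) ℝ} (hQ : Q * Qᵀ = 1)
    (hc : ∀ x y : so (Fin N) ℝ,
      (y : Matrix (Fin N) (Fin N) ℝ) = Q * (x : Matrix (Fin N) (Fin N) ℝ) * Qᵀ →
      (T y : Matrix (Fin N) (Fin N) ℝ) = Q * (T x : Matrix (Fin N) (Fin N) ℝ) * Qᵀ) :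
    Q * (Matrix.of fun a b => ∑ j, tn T a j b j) =
      (Matrix.of fun a b => ∑ j, tn T a j b j) * Q := by
  have hs1 : ∀ p q c d, tn T q p c d = -tn T p q c d := by
    intro p q c d
    have h1 : (Fm q p : so (Fin N) ℝ) = -Fm p q := by
      apply Subtype.ext
      show Matrix.single q p (1 : ℝ) - Matrix.single p q 1 =
        -(Matrix.single p q (1 : ℝ) - Matrix.single q p 1)
      abel
    have h2 : T (Fm q p) = -T (Fm p q) := by rw [h1, map_neg]
    show (T (Fm q p)).1 c d = -(T (Fm p q)).1 c d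
    rw [h2]
    rfl
  obtain ⟨M, hM'⟩ : ∃ M : Matrix (Fin N) (Fin N) ℝ,
      M = Matrix.of fun a b => ∑ j, tn T a j b j := ⟨_, rfl⟩
  have hM : ∀ a c, M a c = ∑ j, tn T a j c j := by
    intro a c
    rw [hM']
    rfl
  rw [← hM']
  have hQ' : Qᵀ * Q = 1 := mul_eq_one_comm.1 hQ
  have hQ1 : ∀ q d, ∑ b, Q q b * Q d b = if q = d then 1 else 0 := by
    intro q d
    have h1 := congrFun (congrFun hQ q) d
    rw [Matrix.mul_apply, Matrix.one_apply] at h1
    exact h1
  have hQ2 : ∀ s b, ∑ d, Q d s * Q d b = if s = b then 1 else 0 := by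
    intro s b
    have h1 := congrFun (congrFun hQ' s) b
    rw [Matrix.mul_apply, Matrix.one_apply] at h1
    exact h1
  -- the basic identity
  have hI : ∀ a b c d, ∑ p, ∑ q, Q p a * Q q b * tn T p q c d =
      ∑ r, ∑ s, Q c r * Q d s * tn T a b r s := by
    intro a b c d
    obtain ⟨y, hy⟩ : ∃ y : so (Fin N) ℝ, (y : Matrix (Fin N) (Fin N) ℝ) =
        Q * (Fm a b : Matrix (Fin N) (Fin N) ℝ) * Qᵀ := by
      refine ⟨⟨Q * (Fm a b : Matrix (Fin N) (Fin N) ℝ) * Qᵀ, ?_⟩, rfl⟩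
      have h7 : (Fm a b : Matrix (Fin N) (Fin N) ℝ)ᵀ = -(Fm a b : Matrix (Fin N) (Fin N) ℝ) :=
        (mem_so _ _ _).1 (Fm a b).2
      rw [mem_so, Matrix.transpose_mul, Matrix.transpose_mul, Matrix.transpose_transpose, h7,
        Matrix.neg_mul, Matrix.mul_neg, Matrix.mul_assoc]
    have h1 : (T y).1 c d = (Q * (T (Fm a b) : Matrix (Fin N) (Fin N) ℝ) * Qᵀ) c d := by
      rw [hc (Fm a b) y hy]
    have h2 : (Q * (T (Fm a b) : Matrix (Fin N) (Fin N) ℝ) * Qᵀ) c d =
        ∑ r, ∑ s, Q c r * Q d s * tn T a b r s := by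
      rw [Matrix.mul_apply]
      rw [Finset.sum_comm]
      refine Finset.sum_congr rfl fun s _ => ?_
      rw [Matrix.mul_apply, Finset.sum_mul]
      refine Finset.sum_congr rfl fun r _ => ?_
      rw [Matrix.transpose_apply]
      unfold tn
      ring
    have h3 : (T y).1 c d = ∑ p, ∑ q, Q p a * Q q b * tn T p q c d := by
      rw [apply_tn]
      have h4 : ∀ p q, y.1 p q = Q p a * Q q b - Q p b * Q q a := by
        intro p q
        rw [hy, Rho_conj]
      have h5 : ∑ p, ∑ q, y.1 p q * tn T p q c d =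
          ∑ p, ∑ q, Q p a * Q q b * tn T p q c d -
            ∑ p, ∑ q, Q p b * Q q a * tn T p q c d := by
        rw [← Finset.sum_sub_distrib]
        refine Finset.sum_congr rfl fun p _ => ?_
        rw [← Finset.sum_sub_distrib]
        refine Finset.sum_congr rfl fun q _ => ?_
        rw [h4]
        ring
      have h6 : ∑ p, ∑ q, Q p b * Q q a * tn T p q c d =
          -∑ p, ∑ q, Q p a * Q q b * tn T p q c d := by
        rw [Finset.sum_comm, ← Finset.sum_neg_distrib]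
        refine Finset.sum_congr rfl fun p _ => ?_
        rw [← Finset.sum_neg_distrib]
        refine Finset.sum_congr rfl fun q _ => ?_
        rw [hs1 p q c d]
        ring
      rw [h5, h6]
      ring
    rw [← h3, h1, h2]
  have hII : ∀ a c, ∑ p, Q p a * M p c = ∑ r, Q c r * M a r := by
    intro a c
    have h1 : ∑ b, ∑ d, Q d b * ∑ p, ∑ q, Q p a * Q q b * tn T p q c d =
        ∑ b, ∑ d, Q d b * ∑ r, ∑ s, Q c r * Q d s * tn T a b r s :=
      Finset.sum_congr rfl fun b _ => Finset.sum_congr rfl fun d _ => by rw [hI]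
    have h2 : ∑ b, ∑ d, Q d b * ∑ p, ∑ q, Q p a * Q q b * tn T p q c d =
        ∑ p, Q p a * M p c := by
      have h3 : ∀ b d, Q d b * ∑ p, ∑ q, Q p a * Q q b * tn T p q c d =
          ∑ p, ∑ q, Q d b * (Q p a * Q q b * tn T p q c d) := by
        intro b d
        rw [Finset.mul_sum]
        exact Finset.sum_congr rfl fun p _ => Finset.mul_sum _ _ _
      rw [Finset.sum_congr rfl fun b _ => Finset.sum_congr rfl fun d _ => h3 b d,
        Rho_comm1]
      refine Finset.sum_congr rfl fun p _ => ?_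
      rw [hM, Finset.mul_sum]
      refine Finset.sum_congr rfl fun q _ => ?_
      have h4 : ∀ d, ∑ b, Q d b * (Q p a * Q q b * tn T p q c d) =
          if q = d then Q p a * tn T p q c d else 0 := by
        intro d
        have h5 : ∑ b, Q d b * (Q p a * Q q b * tn T p q c d) =
            (Q p a * tn T p q c d) * ∑ b, Q q b * Q d b := by
          rw [Finset.mul_sum]
          exact Finset.sum_congr rfl fun b _ => by ring
        rw [h5, hQ1]
        split_ifs
        · rw [mul_one]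
        · rw [mul_zero]
      rw [Finset.sum_congr rfl fun d _ => h4 d, Finset.sum_ite_eq Finset.univ q,
        if_pos (Finset.mem_univ q)]
    have h6 : ∑ b, ∑ d, Q d b * ∑ r, ∑ s, Q c r * Q d s * tn T a b r s =
        ∑ r, Q c r * M a r := by
      have h3 : ∀ b d, Q d b * ∑ r, ∑ s, Q c r * Q d s * tn T a b r s =
          ∑ r, ∑ s, Q d b * (Q c r * Q d s * tn T a b r s) := by
        intro b d
        rw [Finset.mul_sum]
        exact Finset.sum_congr rfl fun p _ => Finset.mul_sum _ _ _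
      rw [Finset.sum_congr rfl fun b _ => Finset.sum_congr rfl fun d _ => h3 b d,
        Rho_comm2]
      refine Finset.sum_congr rfl fun r _ => ?_
      rw [hM, Finset.mul_sum]
      refine Finset.sum_congr rfl fun b _ => ?_
      have h4 : ∀ s, ∑ d, Q d b * (Q c r * Q d s * tn T a b r s) =
          if s = b then Q c r * tn T a b r s else 0 := by
        intro s
        have h5 : ∑ d, Q d b * (Q c r * Q d s * tn T a b r s) =
            (Q c r * tn T a b r s) * ∑ d, Q d s * Q d b := by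
          rw [Finset.mul_sum]
          exact Finset.sum_congr rfl fun d _ => by ring
        rw [h5, hQ2]
        split_ifs
        · rw [mul_one]
        · rw [mul_zero]
      rw [Finset.sum_congr rfl fun s _ => h4 s, Finset.sum_ite_eq' Finset.univ b,
        if_pos (Finset.mem_univ b)]
    rw [← h2, h1, h6]
  have hIII : Qᵀ * M = M * Qᵀ := by
    ext a c
    rw [Matrix.mul_apply, Matrix.mul_apply]
    have h1 := hII a c
    calc ∑ j, Qᵀ a j * M j c = ∑ p, Q p a * M p c :=
          Finset.sum_congr rfl fun p _ => by rw [Matrix.transpose_apply]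
      _ = ∑ r, Q c r * M a r := h1
      _ = ∑ j, M a j * Qᵀ j c :=
          Finset.sum_congr rfl fun r _ => by rw [Matrix.transpose_apply, mul_comm]
  calc Q * M = Q * M * (Qᵀ * Q) := by rw [hQ', Matrix.mul_one]
    _ = Q * (M * Qᵀ) * Q := by simp only [Matrix.mul_assoc]
    _ = Q * (Qᵀ * M) * Q := by rw [hIII]
    _ = (Q * Qᵀ) * M * Q := by simp only [Matrix.mul_assoc]
    _ = M * Q := by rw [hQ, Matrix.one_mul]

theorem rho_scalar (hN : 3 ≤ N) {h : LieSubalgebra ℝ (so (Fin N) ℝ)} (hirr : NormalizerIrreducible h)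
    {T : so (Fin N) ℝ →ₗ[ℝ] so (Fin N) ℝ} (hT : QSym T)
    (hc : ∀ δ : so (Fin N) ℝ ≃ₗ⁅ℝ⁆ so (Fin N) ℝ,
      h.map (δ : so (Fin N) ℝ →ₗ⁅ℝ⁆ so (Fin N) ℝ) = h → ∀ x, T (δ x) = δ (T x)) :
    ∃ c : ℝ, ∀ a b, ∑ j, tn T a j b j = if a = b then c else 0 := by
  have hsym := tn_sym hN hT
  obtain ⟨M, hM'⟩ : ∃ M : Matrix (Fin N) (Fin N) ℝ,
      M = Matrix.of fun a b => ∑ j, tn T a j b j := ⟨_, rfl⟩
  have hM : ∀ a c, M a c = ∑ j, tn T a j c j := by
    intro a c
    rw [hM']
    rfl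
  have hMs : M.IsSymm := by
    ext a c
    rw [Matrix.transpose_apply, hM, hM]
    exact Finset.sum_congr rfl fun j _ => hsym.s3 a j c j
  have hcomm : ∀ Q : Matrix (Fin N) (Fin N) ℝ, Q * Qᵀ = 1 →
      (∀ u ∈ h, ∃ u' ∈ h, Q * (u : Matrix (Fin N) (Fin N) ℝ) * Qᵀ =
        (u' : Matrix (Fin N) (Fin N) ℝ)) → Q * M = M * Q := by
    intro Q hQ hh
    obtain ⟨δ, hδ, hδx⟩ := exists_conj hQ hh
    rw [hM']
    refine rho_comm hT hQ fun x y hxy => ?_
    have h1 : y = δ x := by
      apply Subtype.ext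
      rw [hxy]
      exact (hδx x).symm
    rw [h1, hc δ hδ x]
    exact hδx (T x)
  obtain ⟨c, hc'⟩ := scalar_of_comm (by omega) hirr hMs hcomm
  refine ⟨c, fun a b => ?_⟩
  rw [← hM, hc', Matrix.smul_apply, Matrix.one_apply, smul_eq_mul]
  split_ifs
  · rw [mul_one]
  · rw [mul_zero]

end Pool.Agent.SmIso
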