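import Pool.Agent.SmIso.SoT
import Pool.Agent.SmIso.Irr

/-!
# The Casimir operator of a subalgebra of `so(N)` with irreducible normaliser

Let `y_1, ..., y_r` be a `Qf`-frame of `h` (`exists_frame`), `r = finrank h`, `M = - ∑ y_i²`, a symmetric `N × N` matrix.
For `Q` orthogonal with `Q h Qᵀ ⊆ h` the elements `Q y_i Qᵀ` form another frame of `h` (the Killing form is
invariant), and `∑ y_i²` does not depend on the frame, so `Q M Qᵀ = M`; by irreducibility `M = c`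
(`scalar_of_comm` in `Irr.lean`; `exists_conj` for the automorphism).  Trace: `N c = - ∑ tr (y_i²)
= ∑ Qf y_i y_i / (N-2) = r / (N-2)` (`Qf_so`).
`Qf ⁅y, x⁆ ⁅y, x⁆ = (N-2) |y x - x y|² ≤ 2 (N-2) (|y x|² + |x y|²)` (Hilbert-Schmidt norms), and
`∑ i, |y_i x|² = ∑ i, tr (xᵀ y_iᵀ y_i x) = c |x|²`, the same for `x y_i`.  So `∑ i, Qf ⁅y_i, x⁆ ⁅y_i, x⁆ ≤ 4 c Qf x x`.
For an arbitrary orthonormal family `a_j` in `h` (as in `CasimirSmall`):
`∑ j, Qf ⁅a_j, x⁆ ⁅a_j, x⁆ ≤ ∑ i, Qf ⁅y_i, x⁆ ⁅y_i, x⁆` (Bessel: for each `z` of a frame `e` of `so(N)`,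
`∑ j, (Qf ⁅a_j, x⁆ z)² = ∑ j, (Qf a_j ⁅x, z⁆)² ≤ ∑ i, (Qf y_i ⁅x, z⁆)²`; see `bessel_fam` in `EinS/Frame.lean`).
-/

namespace Pool.Agent.SmIso

open Matrix Pool.Agent.EStab Pool.Agent.EinS LieAlgebra.Orthogonal

variable {N : ℕ}

section Gen

variable {L : Type*} [LieRing L] [LieAlgebra ℝ L]

private theorem SoCas_indep {n m : ℕ} {W : Submodule ℝ L} {e : Fin n → L} {f : Fin m → L}
    (he : IsFrame W e) (hf : IsFrame W f) (φ ψ : L →ₗ[ℝ] ℝ) :
    ∑ i, φ (e i) * ψ (e i) = ∑ j, φ (f j) * ψ (f j) := by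
  have h1 : ∀ i, φ (e i) = ∑ j, Qf L (e i) (f j) * φ (f j) := by
    intro i
    conv_lhs => rw [hf.exp (e i) (he.mem i)]
    rw [map_sum]
    refine Finset.sum_congr rfl fun j _ => ?_
    rw [map_smul, smul_eq_mul]
  have h2 : ∀ j, ψ (f j) = ∑ i, Qf L (f j) (e i) * ψ (e i) := by
    intro j
    conv_lhs => rw [he.exp (f j) (hf.mem j)]
    rw [map_sum]
    refine Finset.sum_congr rfl fun i _ => ?_
    rw [map_smul, smul_eq_mul]
  have h3 : ∀ i, φ (e i) * ψ (e i) = ∑ j, Qf L (e i) (f j) * φ (f j) * ψ (e i) := by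
    intro i
    rw [h1 i, Finset.sum_mul]
  have h4 : ∀ j, φ (f j) * ψ (f j) = ∑ i, Qf L (e i) (f j) * φ (f j) * ψ (e i) := by
    intro j
    rw [h2 j, Finset.mul_sum]
    refine Finset.sum_congr rfl fun i _ => ?_
    rw [Qf_symm (f j) (e i)]
    ring
  simp only [h3, h4]
  exact Finset.sum_comm

private theorem SoCas_finrank (W : Submodule ℝ L) {n : ℕ} {e : Fin n → L}
    (he : IsFrame W e) : Module.finrank ℝ W = n := by
  have hli : LinearIndependent ℝ e := by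
    rw [Fintype.linearIndependent_iff]
    intro c hc i
    have h1 := he.coord c i
    rw [hc, map_zero, LinearMap.zero_apply] at h1
    exact h1.symm
  have hspan : Submodule.span ℝ (Set.range e) = W := by
    apply le_antisymm
    · rw [Submodule.span_le]
      rintro _ ⟨i, rfl⟩
      exact he.mem i
    · intro x hx
      rw [he.exp x hx]
      exact Submodule.sum_mem _ fun i _ => Submodule.smul_mem _ _
        (Submodule.subset_span ⟨i, rfl⟩)
  have h2 := finrank_span_eq_card hli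
  rw [hspan, Fintype.card_fin] at h2
  exact h2

private theorem SoCas_bessel [Module.Finite ℝ L] (hg : CompactSemisimple L) {W : Submodule ℝ L}
    {n m : ℕ} {e : Fin n → L} (he : IsFrame W e) {a : Fin m → L} (ha : ∀ j, a j ∈ W)
    (ho : ∀ i j, Qf L (a i) (a j) = if i = j then 1 else 0) (x : L) :
    ∑ j, Qf L ⁅a j, x⁆ ⁅a j, x⁆ ≤ ∑ i, Qf L ⁅e i, x⁆ ⁅e i, x⁆ := by
  obtain ⟨k, g, hgf⟩ := exists_frame hg (⊤ : Submodule ℝ L)
  have h1 : ∀ y : L, Qf L ⁅y, x⁆ ⁅y, x⁆ = ∑ z, Qf L y ⁅x, g z⁆ ^ 2 := by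
    intro y
    rw [hgf.parseval Submodule.mem_top]
    refine Finset.sum_congr rfl fun z _ => ?_
    rw [Qf_lie, sq]
  simp only [h1]
  rw [Finset.sum_comm]
  conv_rhs => rw [Finset.sum_comm]
  refine Finset.sum_le_sum fun z _ => ?_
  obtain ⟨u, hu⟩ : ∃ u, u = ⁅x, g z⁆ := ⟨_, rfl⟩
  rw [← hu]
  obtain ⟨v, hv⟩ : ∃ v, v = ∑ i, Qf L u (e i) • e i := ⟨_, rfl⟩
  have hvW : v ∈ W := by
    rw [hv]
    exact Submodule.sum_mem _ fun i _ => W.smul_mem _ (he.mem i)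
  have h2 : ∀ i, Qf L v (e i) = Qf L u (e i) := by
    intro i
    rw [hv]
    exact he.coord (fun i => Qf L u (e i)) i
  have h3 : ∀ j, Qf L (a j) u = Qf L v (a j) := by
    intro j
    rw [he.parseval (ha j) u, Qf_symm v (a j), he.parseval (ha j) v]
    refine Finset.sum_congr rfl fun i _ => ?_
    rw [h2]
  have h4 : Qf L v v = ∑ i, Qf L (e i) u ^ 2 := by
    rw [he.parseval hvW v]
    refine Finset.sum_congr rfl fun i _ => ?_
    rw [h2, Qf_symm (e i) u, sq]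
  simp only [h3]
  rw [← h4]
  exact bessel_fam hg ho v

end Gen

private theorem SoCas_skewT (x : so (Fin N) ℝ) : (x.1)ᵀ = -x.1 :=
  (mem_so (Fin N) ℝ x.1).1 x.2

/-- the sum of the squares of the entries -/
private def SoCas_hs (A : Matrix (Fin N) (Fin N) ℝ) : ℝ := ∑ a, ∑ b, A a b ^ 2

private theorem SoCas_hs_trace (A : Matrix (Fin N) (Fin N) ℝ) : SoCas_hs A = (Aᵀ * A).trace := by
  unfold SoCas_hs Matrix.trace
  rw [Finset.sum_comm]
  refine Finset.sum_congr rfl fun b _ => ?_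
  rw [Matrix.diag_apply, Matrix.mul_apply]
  refine Finset.sum_congr rfl fun a _ => ?_
  rw [Matrix.transpose_apply, sq]

private theorem SoCas_hs_T (A : Matrix (Fin N) (Fin N) ℝ) : SoCas_hs Aᵀ = SoCas_hs A := by
  unfold SoCas_hs
  rw [Finset.sum_comm]
  rfl

private theorem SoCas_hs_sub (A B : Matrix (Fin N) (Fin N) ℝ) :
    SoCas_hs (A - B) ≤ 2 * SoCas_hs A + 2 * SoCas_hs B := by
  unfold SoCas_hs
  rw [Finset.mul_sum, Finset.mul_sum, ← Finset.sum_add_distrib]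
  refine Finset.sum_le_sum fun a _ => ?_
  rw [Finset.mul_sum, Finset.mul_sum, ← Finset.sum_add_distrib]
  refine Finset.sum_le_sum fun b _ => ?_
  rw [Matrix.sub_apply]
  nlinarith [sq_nonneg (A a b + B a b)]

private theorem SoCas_Qf_hs (x : so (Fin N) ℝ) :
    Qf (so (Fin N) ℝ) x x = ((N : ℝ) - 2) * SoCas_hs x.1 := by
  rw [SmIso.Qf_so]
  unfold SoCas_hs
  congr 1
  refine Finset.sum_congr rfl fun a _ => Finset.sum_congr rfl fun b _ => ?_
  rw [sq]

private theorem SoCas_br (hN : 3 ≤ N) (y x : so (Fin N) ℝ) :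
    Qf (so (Fin N) ℝ) ⁅y, x⁆ ⁅y, x⁆ ≤
      ((N : ℝ) - 2) * (4 * (x.1ᵀ * (-(y.1 * y.1)) * x.1).trace) := by
  have hN3 : (3 : ℝ) ≤ N := by exact_mod_cast hN
  rw [SoCas_Qf_hs]
  refine mul_le_mul_of_nonneg_left ?_ (by linarith)
  have h0 : (⁅y, x⁆ : so (Fin N) ℝ).1 = y.1 * x.1 - x.1 * y.1 := rfl
  rw [h0]
  have h1 := SoCas_hs_sub (y.1 * x.1) (x.1 * y.1)
  have h2 : SoCas_hs (x.1 * y.1) = SoCas_hs (y.1 * x.1) := by
    rw [← SoCas_hs_T (x.1 * y.1), Matrix.transpose_mul, SoCas_skewT, SoCas_skewT,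
      neg_mul_neg]
  have h3 : SoCas_hs (y.1 * x.1) = (x.1ᵀ * (-(y.1 * y.1)) * x.1).trace := by
    rw [SoCas_hs_trace, Matrix.transpose_mul, SoCas_skewT y]
    congr 1
    simp only [Matrix.mul_neg, Matrix.neg_mul, Matrix.mul_assoc]
  rw [h2] at h1
  linarith

private theorem SoCas_Qf_conj {Q : Matrix (Fin N) (Fin N) ℝ} (hQ : Q * Qᵀ = 1)
    (δ : so (Fin N) ℝ → so (Fin N) ℝ)
    (hδ : ∀ x, (δ x : Matrix (Fin N) (Fin N) ℝ) = Q * (x : Matrix (Fin N) (Fin N) ℝ) * Qᵀ)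
    (x y : so (Fin N) ℝ) :
    Qf (so (Fin N) ℝ) (δ x) (δ y) = Qf (so (Fin N) ℝ) x y := by
  have hQ' : Qᵀ * Q = 1 := mul_eq_one_comm.1 hQ
  have h1 : ∀ u v : so (Fin N) ℝ, ∑ a, ∑ b, u.1 a b * v.1 a b = (u.1ᵀ * v.1).trace := by
    intro u v
    unfold Matrix.trace
    rw [Finset.sum_comm]
    refine Finset.sum_congr rfl fun b _ => ?_
    rw [Matrix.diag_apply, Matrix.mul_apply]
    refine Finset.sum_congr rfl fun a _ => ?_
    rw [Matrix.transpose_apply]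
  rw [SmIso.Qf_so, SmIso.Qf_so, h1, h1, hδ, hδ]
  congr 1
  have h2 : (Q * (x : Matrix (Fin N) (Fin N) ℝ) * Qᵀ)ᵀ * (Q * (y : Matrix (Fin N) (Fin N) ℝ) * Qᵀ)
      = Q * ((x : Matrix (Fin N) (Fin N) ℝ)ᵀ * (y : Matrix (Fin N) (Fin N) ℝ)) * Qᵀ := by
    rw [Matrix.transpose_mul, Matrix.transpose_mul, Matrix.transpose_transpose]
    calc _ = Q * (x : Matrix (Fin N) (Fin N) ℝ)ᵀ * (Qᵀ * Q) * y * Qᵀ := by
          simp only [Matrix.mul_assoc]
      _ = _ := by
          rw [hQ', Matrix.mul_one]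
          simp only [Matrix.mul_assoc]
  rw [h2, Matrix.trace_mul_cycle, hQ', Matrix.one_mul]

theorem so_casimir (hN : 3 ≤ N) {h : LieSubalgebra ℝ (so (Fin N) ℝ)}
    (hirr : NormalizerIrreducible h) :
    CasimirSmall h (4 * (Module.finrank ℝ h : ℝ) / ((N : ℝ) * ((N : ℝ) - 2))) := by
  have hN3 : (3 : ℝ) ≤ N := by exact_mod_cast hN
  have hg : CompactSemisimple (so (Fin N) ℝ) := so_compact hN
  obtain ⟨r, e, he⟩ := exists_frame hg h.toSubmodule
  have hr : Module.finrank ℝ h = r := SoCas_finrank h.toSubmodule he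
  obtain ⟨M, hM⟩ : ∃ M : Matrix (Fin N) (Fin N) ℝ, M = ∑ i, -((e i).1 * (e i).1) := ⟨_, rfl⟩
  have hMs : M.IsSymm := by
    unfold Matrix.IsSymm
    rw [hM, Matrix.transpose_sum]
    refine Finset.sum_congr rfl fun i _ => ?_
    rw [Matrix.transpose_neg, Matrix.transpose_mul, SoCas_skewT, neg_mul_neg]
  obtain ⟨c, hc⟩ := scalar_of_comm (by omega) hirr hMs (by
    intro Q hQ hh
    have hQ' : Qᵀ * Q = 1 := mul_eq_one_comm.1 hQ
    obtain ⟨δ, hδh, hδ⟩ := exists_conj hQ hh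
    have hf : IsFrame h.toSubmodule (fun i => δ (e i)) := by
      have hmem : ∀ x ∈ h, δ x ∈ h := by
        intro x hx
        have h1 : δ x ∈ h.map (δ : so (Fin N) ℝ →ₗ⁅ℝ⁆ so (Fin N) ℝ) := ⟨x, hx, rfl⟩
        rwa [hδh] at h1
      have hq : ∀ x y, Qf (so (Fin N) ℝ) (δ x) (δ y) = Qf (so (Fin N) ℝ) x y :=
        SoCas_Qf_conj hQ δ hδ
      refine ⟨fun i => hmem _ (he.mem i), fun i j => ?_, fun y hy => ?_⟩
      · rw [hq, he.orth]
      · have h1 : y ∈ h.map (δ : so (Fin N) ℝ →ₗ⁅ℝ⁆ so (Fin N) ℝ) := by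
          rw [hδh]
          exact hy
        obtain ⟨x, hx, hxy⟩ := h1
        have hxy' : δ x = y := hxy
        subst hxy'
        simp only [hq]
        conv_lhs => rw [he.exp x hx]
        rw [map_sum]
        refine Finset.sum_congr rfl fun i _ => ?_
        rw [map_smul]
    have h2 : ∑ i, -((δ (e i)).1 * (δ (e i)).1) = ∑ i, -((e i).1 * (e i).1) := by
      ext a b
      rw [Matrix.sum_apply, Matrix.sum_apply]
      simp only [Matrix.neg_apply, Finset.sum_neg_distrib, Matrix.mul_apply]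
      congr 1
      rw [Finset.sum_comm]
      conv_rhs => rw [Finset.sum_comm]
      refine Finset.sum_congr rfl fun d _ => ?_
      let φ : Fin N → Fin N → (so (Fin N) ℝ →ₗ[ℝ] ℝ) := fun p q =>
        { toFun := fun x => x.1 p q
          map_add' := fun _ _ => rfl
          map_smul' := fun _ _ => rfl }
      exact SoCas_indep hf he (φ a d) (φ d b)
    have h3 : Q * M * Qᵀ = M := by
      rw [hM]
      conv_rhs => rw [← h2]
      rw [Finset.mul_sum, Finset.sum_mul]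
      refine Finset.sum_congr rfl fun i _ => ?_
      rw [hδ]
      calc _ = -(Q * (e i).1 * 1 * (e i).1 * Qᵀ) := by
            simp only [Matrix.mul_neg, Matrix.neg_mul, Matrix.mul_one, Matrix.mul_assoc]
        _ = -(Q * (e i).1 * (Qᵀ * Q) * (e i).1 * Qᵀ) := by rw [hQ']
        _ = _ := by
            simp only [Matrix.mul_assoc]
    calc Q * M = Q * M * (Qᵀ * Q) := by rw [hQ', Matrix.mul_one]
      _ = Q * M * Qᵀ * Q := by simp only [Matrix.mul_assoc]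
      _ = M * Q := by rw [h3])
  have htr : (N : ℝ) * c = (r : ℝ) / ((N : ℝ) - 2) := by
    have h1 : M.trace = (N : ℝ) * c := by
      rw [hc, Matrix.trace_smul, Matrix.trace_one, Fintype.card_fin, smul_eq_mul, mul_comm]
    rw [← h1, hM, Matrix.trace_sum]
    have h2 : ∀ i, (-((e i).1 * (e i).1)).trace = 1 / ((N : ℝ) - 2) := by
      intro i
      have h3 := he.orth i i
      rw [if_pos rfl, SoCas_Qf_hs, SoCas_hs_trace, SoCas_skewT] at h3
      rw [eq_div_iff (by linarith), ← Matrix.neg_mul, mul_comm]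
      exact h3
    simp only [h2]
    rw [Finset.sum_const, Finset.card_univ, Fintype.card_fin, nsmul_eq_mul]
    ring
  intro m a ha ho x
  have ho' : ∀ i j, Qf (so (Fin N) ℝ) (a i) (a j) = if i = j then 1 else 0 := by
    intro i j
    rw [Qf_apply, ho]
    split_ifs <;> norm_num
  have h1 := SoCas_bessel hg he (a := a) ha ho' x
  have h2 : ∑ i, Qf (so (Fin N) ℝ) ⁅e i, x⁆ ⁅e i, x⁆ ≤ 4 * c * Qf (so (Fin N) ℝ) x x := by
    calc _ ≤ ∑ i, ((N : ℝ) - 2) * (4 * (x.1ᵀ * (-((e i).1 * (e i).1)) * x.1).trace) :=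
          Finset.sum_le_sum fun i _ => SoCas_br hN (e i) x
      _ = ((N : ℝ) - 2) * (4 * (x.1ᵀ * M * x.1).trace) := by
          rw [hM, Finset.mul_sum, Finset.sum_mul, Matrix.trace_sum, Finset.mul_sum,
            Finset.mul_sum]
      _ = 4 * c * Qf (so (Fin N) ℝ) x x := by
          rw [SoCas_Qf_hs, SoCas_hs_trace, hc, Matrix.mul_smul, Matrix.mul_one, Matrix.smul_mul,
            Matrix.trace_smul, smul_eq_mul]
          ring
  have h3 : 4 * c = 4 * (Module.finrank ℝ h : ℝ) / ((N : ℝ) * ((N : ℝ) - 2)) := by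
    rw [hr]
    have hN0 : (N : ℝ) ≠ 0 := by linarith
    have hN2 : (N : ℝ) - 2 ≠ 0 := by linarith
    rw [eq_div_iff (mul_ne_zero hN0 hN2)]
    rw [eq_div_iff hN2] at htr
    linear_combination 4 * htr
  rw [← h3]
  exact le_trans h1 h2

end Pool.Agent.SmIso
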