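import Pool.Agent.SmIso.SoT

/-!
# The gap constant of `so(N)` on the endomorphisms with scalar Ricci contraction

`t = tn T`, `ρ a c = ∑ j, t a j c j = c δ_ac`.  For a tensor with the symmetries `TSym` put
`(J t) a b c d = t a c d b - t a d c b`.

* `J t` has the symmetries, `J (J t) = J t + 2 t`, `ρ(J t) = - ρ(t)`.
* For a symmetric operator `S` with `ρ(S) = c`:
  `TH S x x = (c / n) Qf x x + (1 / n) Qf (J S x) x`, `n = N - 2` (`TH_so`, `Qf_so`, `apply_tn`, `exists_op`).   (*)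
* `|TH S x x| ≤ s Qf x x` if `|Qf (S y) y| ≤ s Qf y y` for all `y` (`TH_frame`, `IsFrame.killing`).   (**)
* Let `B = T - 2 Θ T`, i.e. `B = T - (2 c/n) - (2/n) J T` by (*), with `|Qf (B x) x| ≤ s Qf x x`; `u = 2/n`.
  `ρ(B) = c - (2 c/n)(N-1) + (2/n) c = - c`; and `|ρ(B)| ≤ (N-1) s` (take `x = F a b`, `a ≠ b`:
  `Qf (F a b) (F a b) = 2 n`, `Qf (B (F a b)) (F a b) = 2 n (tn B a b a b)`, and sum over `b`).  So `|c| ≤ (N-1) s`.
  `B' = B + (2 c / n) = T - u J T`, `|B'| ≤ s' = s (1 + 2 (N-1)/n) = s (3 + 2/n)`, `ρ(B')` is a scalar with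
  `|ρ(B')| ≤ (N-1) s'` (same argument).
  `T = a B' + b J B'` with `a = (1-u)/((1+u)(1-2u))`, `b = u/((1+u)(1-2u))`.
  `J B' = n Θ B' - ρ(B')` by (*), so `|J B'| ≤ n s' + (N-1) s' = (2 n + 1) s'` by (**).
  `|T| ≤ (a + b (2n+1)) s' = (5 n² / ((n+2)(n-4))) s' = 5 n (3 n + 2) s / ((n+2)(n-4))`.
-/

namespace Pool.Agent.SmIso

open Matrix Pool.Agent.EStab Pool.Agent.EinS LieAlgebra.Orthogonal

variable {N : ℕ}

private theorem SoGap_skew (x : so (Fin N) ℝ) (i j : Fin N) : x.1 i j = - x.1 j i := by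
  have h := (mem_so (Fin N) ℝ x.1).1 x.2
  have h2 := congrFun (congrFun h j) i
  rw [Matrix.transpose_apply, Matrix.neg_apply] at h2
  exact h2

private theorem SoGap_F_apply (a b i j : Fin N) : (Fm a b).1 i j =
    (if a = i ∧ b = j then 1 else 0) - (if b = i ∧ a = j then 1 else 0) := by
  show (Matrix.single a b (1 : ℝ) - Matrix.single b a 1 : Matrix (Fin N) (Fin N) ℝ) i j = _
  rw [Matrix.sub_apply, Matrix.single_apply, Matrix.single_apply]

private theorem SoGap_Qf_F (Z : so (Fin N) ℝ) (c d : Fin N) :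
    Qf (so (Fin N) ℝ) Z (Fm c d) = (2 * ((N : ℝ) - 2)) * Z.1 c d := by
  rw [Qf_so]
  have h1 : ∑ i, ∑ j, Z.1 i j * (Fm c d).1 i j = 2 * Z.1 c d := by
    simp only [SoGap_F_apply, mul_sub, Finset.sum_sub_distrib, mul_ite, mul_one, mul_zero,
      ite_and]
    have h2 : ∀ (p q : Fin N), ∑ i, ∑ j, (if p = i then (if q = j then Z.1 i j else 0) else 0) =
        Z.1 p q := by
      intro p q
      rw [Finset.sum_eq_single p]
      · simp
      · intro i _ hi
        simp [Ne.symm hi]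
      · intro h
        exact absurd (Finset.mem_univ p) h
    rw [h2, h2, SoGap_skew Z d c]
    ring
  rw [h1]
  ring

/-- the operator with the tensor `J t` -/
private theorem SoGap_J (hN : 3 ≤ N) {T : so (Fin N) ℝ →ₗ[ℝ] so (Fin N) ℝ} (hT : QSym T) :
    ∃ S : so (Fin N) ℝ →ₗ[ℝ] so (Fin N) ℝ, QSym S ∧
      ∀ a b c d, tn S a b c d = tn T a c d b - tn T a d c b := by
  obtain ⟨s1, s2, s3⟩ := tn_sym hN hT
  obtain ⟨S, hS, hS'⟩ := exists_op (N := N)
    (t := fun a b c d => tn T a c d b - tn T a d c b) (by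
      refine ⟨?_, ?_, ?_⟩
      · intro a b c d
        show tn T b c d a - tn T b d c a = -(tn T a c d b - tn T a d c b)
        have e1 : tn T b c d a = tn T a d c b := by
          rw [← s3 b c d a, s1 a d b c, s2 a d c b, neg_neg]
        have e2 : tn T b d c a = tn T a c d b := by
          rw [← s3 b d c a, s1 a c b d, s2 a c d b, neg_neg]
        rw [e1, e2]
        ring
      · intro a b c d
        show tn T a d c b - tn T a c d b = -(tn T a c d b - tn T a d c b)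
        ring
      · intro a b c d
        show tn T c a b d - tn T c b a d = tn T a c d b - tn T a d c b
        have e1 : tn T c a b d = tn T a c d b := by
          rw [s1 a c b d, s2 a c d b, neg_neg]
        have e2 : tn T c b a d = tn T a d c b := s3 a d c b
        rw [e1, e2])
  exact ⟨S, hS, fun a b c d => by rw [hS']⟩

private theorem SoGap_TH (hN : 3 ≤ N) {T S : so (Fin N) ℝ →ₗ[ℝ] so (Fin N) ℝ} (hT : QSym T)
    {c : ℝ} (hρ : ∀ a b, ∑ j, tn T a j b j = if a = b then c else 0)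
    (hS : ∀ a b c d, tn S a b c d = tn T a c d b - tn T a d c b) (x : so (Fin N) ℝ) :
    ((N : ℝ) - 2) * TH T x x = c * Qf (so (Fin N) ℝ) x x + Qf (so (Fin N) ℝ) (S x) x := by
  rw [TH_so hN hT, Qf_so, Qf_so]
  have e1 : ∑ a, ∑ b, ∑ c, x.1 a b * x.1 c b * (∑ j, tn T a j c j) =
      c * ∑ a, ∑ b, x.1 a b * x.1 a b := by
    simp only [hρ, Finset.mul_sum]
    refine Finset.sum_congr rfl fun a _ => Finset.sum_congr rfl fun b _ => ?_
    simp only [mul_ite, mul_zero, Finset.sum_ite_eq, Finset.mem_univ, if_true]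
    ring
  have e2 : ∑ a, ∑ b, (S x).1 a b * x.1 a b =
      (1 / 2) * ∑ a, ∑ b, ∑ c, ∑ d, x.1 a b * x.1 c d * (tn T a c d b - tn T a d c b) := by
    simp only [apply_tn, ← hS]
    have : ∀ c d, (1 / 2 : ℝ) * (∑ a, ∑ b, x.1 a b * tn S a b c d) * x.1 c d =
        (1 / 2) * ∑ a, ∑ b, x.1 a b * x.1 c d * tn S a b c d := by
      intro c d
      rw [mul_assoc, Finset.sum_mul]
      congr 1
      refine Finset.sum_congr rfl fun a _ => ?_
      rw [Finset.sum_mul]
      refine Finset.sum_congr rfl fun b _ => ?_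
      ring
    simp only [this, ← Finset.mul_sum]
    congr 1
    calc ∑ c, ∑ d, ∑ a, ∑ b, x.1 a b * x.1 c d * tn S a b c d
        = ∑ c, ∑ a, ∑ d, ∑ b, x.1 a b * x.1 c d * tn S a b c d :=
          Finset.sum_congr rfl fun c _ => Finset.sum_comm
      _ = ∑ a, ∑ c, ∑ d, ∑ b, x.1 a b * x.1 c d * tn S a b c d := Finset.sum_comm
      _ = ∑ a, ∑ c, ∑ b, ∑ d, x.1 a b * x.1 c d * tn S a b c d :=
          Finset.sum_congr rfl fun a _ => Finset.sum_congr rfl fun c _ => Finset.sum_comm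
      _ = ∑ a, ∑ b, ∑ c, ∑ d, x.1 a b * x.1 c d * tn S a b c d :=
          Finset.sum_congr rfl fun a _ => Finset.sum_comm
  rw [e1, e2]
  ring

private theorem SoGap_TH_le (hN : 3 ≤ N) {T : so (Fin N) ℝ →ₗ[ℝ] so (Fin N) ℝ} {s : ℝ}
    (h : ∀ y, |Qf (so (Fin N) ℝ) (T y) y| ≤ s * Qf (so (Fin N) ℝ) y y) (x : so (Fin N) ℝ) :
    |TH T x x| ≤ s * Qf (so (Fin N) ℝ) x x := by
  obtain ⟨n, e, he⟩ := exists_frame (so_compact hN) (⊤ : Submodule ℝ (so (Fin N) ℝ))
  rw [TH_frame he, he.killing x x, Finset.mul_sum]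
  refine (Finset.abs_sum_le_sum_abs _ _).trans (Finset.sum_le_sum fun i _ => ?_)
  exact h _

private theorem SoGap_rho (hN : 3 ≤ N) {B : so (Fin N) ℝ →ₗ[ℝ] so (Fin N) ℝ} {r : ℝ}
    (hρ : ∀ a b, ∑ j, tn B a j b j = if a = b then r else 0) {s : ℝ}
    (h : ∀ y, |Qf (so (Fin N) ℝ) (B y) y| ≤ s * Qf (so (Fin N) ℝ) y y) :
    |r| ≤ ((N : ℝ) - 1) * s := by
  have hN3 : (3 : ℝ) ≤ N := by exact_mod_cast hN
  have hn : 0 < 2 * ((N : ℝ) - 2) := by linarith
  have h0 : 0 < N := by omega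
  have h1 : ∀ a j : Fin N, a ≠ j → |tn B a j a j| ≤ s := by
    intro a j haj
    have h2 := h (Fm a j)
    rw [SoGap_Qf_F, SoGap_Qf_F, SoGap_F_apply] at h2
    rw [if_pos ⟨rfl, rfl⟩, if_neg (fun hh => haj hh.2), sub_zero, mul_one, abs_mul,
      abs_of_pos hn, mul_comm s] at h2
    exact le_of_mul_le_mul_left h2 hn
  let a : Fin N := ⟨0, h0⟩
  have h3 := hρ a a
  rw [if_pos rfl] at h3
  have h4 : ∑ j, tn B a j a j = ∑ j ∈ Finset.univ.erase a, tn B a j a j := by
    rw [← Finset.add_sum_erase Finset.univ _ (Finset.mem_univ a)]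
    have : tn B a a a a = 0 := by
      unfold tn
      have := SoGap_skew (B (Fm a a)) a a
      linarith
    rw [this, zero_add]
  rw [← h3, h4]
  refine (Finset.abs_sum_le_sum_abs _ _).trans ?_
  refine (Finset.sum_le_card_nsmul _ _ s fun j hj => ?_).trans (le_of_eq ?_)
  · exact h1 a j (Finset.ne_of_mem_erase hj).symm
  · rw [Finset.card_erase_of_mem (Finset.mem_univ a), Finset.card_univ, Fintype.card_fin,
      nsmul_eq_mul, Nat.cast_sub (by omega)]
    norm_num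

private theorem SoGap_tn_sub (A B : so (Fin N) ℝ →ₗ[ℝ] so (Fin N) ℝ) (r : ℝ) (a b c d : Fin N) :
    tn (A - r • B) a b c d = tn A a b c d - r * tn B a b c d := by
  unfold tn
  rfl

private theorem SoGap_sym_sub {A B : so (Fin N) ℝ →ₗ[ℝ] so (Fin N) ℝ} (hA : QSym A) (hB : QSym B)
    (r : ℝ) : QSym (A - r • B) := by
  intro x y
  show Qf (so (Fin N) ℝ) (A x - r • B x) y = Qf (so (Fin N) ℝ) x (A y - r • B y)
  rw [map_sub, LinearMap.sub_apply, map_smul, LinearMap.smul_apply, map_sub, map_smul, hA x y,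
    hB x y]

private theorem SoGap_rho_id (a b : Fin N) :
    ∑ j, tn (LinearMap.id : so (Fin N) ℝ →ₗ[ℝ] so (Fin N) ℝ) a j b j =
      if a = b then (N : ℝ) - 1 else 0 := by
  have h1 : ∀ j, tn (LinearMap.id : so (Fin N) ℝ →ₗ[ℝ] so (Fin N) ℝ) a j b j =
      (if a = b then (1 : ℝ) else 0) - (if j = b then (if a = j then 1 else 0) else 0) := by
    intro j
    show (Fm a j).1 b j = _
    rw [SoGap_F_apply]
    simp [ite_and]
  simp only [h1, Finset.sum_sub_distrib, Finset.sum_ite_eq', Finset.mem_univ, if_true,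
    Finset.sum_const, Finset.card_univ, Fintype.card_fin, nsmul_eq_mul]
  split_ifs <;> simp


theorem so_gap (hN : 7 ≤ N) {T : so (Fin N) ℝ →ₗ[ℝ] so (Fin N) ℝ} (hT : QSym T) {c : ℝ}
    (hρ : ∀ a b, ∑ j, tn T a j b j = if a = b then c else 0) {s : ℝ}
    (hs : ∀ x, |Qf (so (Fin N) ℝ) (T x) x - 2 * TH T x x| ≤ s * Qf (so (Fin N) ℝ) x x)
    (x : so (Fin N) ℝ) :
    |Qf (so (Fin N) ℝ) (T x) x| ≤
      5 * ((N : ℝ) - 2) * (3 * ((N : ℝ) - 2) + 2) / ((N : ℝ) * ((N : ℝ) - 6)) * s *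
        Qf (so (Fin N) ℝ) x x := by
  have hN3 : 3 ≤ N := by omega
  have hN7 : (7 : ℝ) ≤ N := by exact_mod_cast hN
  obtain ⟨n, hn⟩ : ∃ n : ℝ, n = (N : ℝ) - 2 := ⟨_, rfl⟩
  have hn5 : 5 ≤ n := by linarith
  have hn0 : n ≠ 0 := by linarith
  obtain ⟨J, hJ, hJt⟩ := SoGap_J hN3 hT
  -- the symmetries
  obtain ⟨s1, s2, s3⟩ := tn_sym hN3 hT
  -- the Ricci contraction of `J T`
  have hz : ∀ a c j, tn T a c j j = 0 := by
    intro a c j
    have := s2 a c j j
    linarith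
  have hρJ : ∀ a b, ∑ j, tn J a j b j = if a = b then -c else 0 := by
    intro a b
    have h1 : ∀ j, tn J a j b j = - tn T a j b j := by
      intro j
      rw [hJt, hz]
      ring
    simp only [h1, Finset.sum_neg_distrib, hρ]
    split_ifs <;> simp
  -- the operator `B`
  set B : so (Fin N) ℝ →ₗ[ℝ] so (Fin N) ℝ :=
    (T - (2 / n) • J) - (2 * c / n) • LinearMap.id with hB
  set B' : so (Fin N) ℝ →ₗ[ℝ] so (Fin N) ℝ := T - (2 / n) • J with hB'
  have hQ0 : ∀ y : so (Fin N) ℝ, 0 ≤ Qf (so (Fin N) ℝ) y y := Qf_nonneg (so_compact hN3)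
  have hTH : ∀ y, n * TH T y y = c * Qf (so (Fin N) ℝ) y y + Qf (so (Fin N) ℝ) (J y) y := by
    intro y
    rw [hn]
    exact SoGap_TH hN3 hT hρ hJt y
  have hB'q : ∀ y, Qf (so (Fin N) ℝ) (B' y) y =
      Qf (so (Fin N) ℝ) (T y) y - (2 / n) * Qf (so (Fin N) ℝ) (J y) y := by
    intro y
    show Qf (so (Fin N) ℝ) (T y - (2 / n) • J y) y = _
    rw [map_sub, LinearMap.sub_apply, map_smul, LinearMap.smul_apply, smul_eq_mul]
  have hBB : ∀ y, Qf (so (Fin N) ℝ) (B y) y =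
      Qf (so (Fin N) ℝ) (B' y) y - (2 * c / n) * Qf (so (Fin N) ℝ) y y := by
    intro y
    show Qf (so (Fin N) ℝ) (B' y - (2 * c / n) • y) y = _
    rw [map_sub, LinearMap.sub_apply, map_smul, LinearMap.smul_apply, smul_eq_mul]
  have hBq : ∀ y, Qf (so (Fin N) ℝ) (B y) y =
      Qf (so (Fin N) ℝ) (T y) y - 2 * TH T y y := by
    intro y
    have h2 := hTH y
    rw [hBB, hB'q]
    have h3 : TH T y y = (c * Qf (so (Fin N) ℝ) y y + Qf (so (Fin N) ℝ) (J y) y) / n := by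
      rw [eq_div_iff hn0]
      linarith
    rw [h3]
    field_simp
    ring
  -- the Ricci contraction of `B`
  have hρB' : ∀ a b, ∑ j, tn B' a j b j = if a = b then c + 2 * c / n else 0 := by
    intro a b
    have h1 : ∀ j, tn B' a j b j = tn T a j b j - (2 / n) * tn J a j b j := fun j =>
      SoGap_tn_sub T J (2 / n) a j b j
    simp only [h1, Finset.sum_sub_distrib, ← Finset.mul_sum, hρ, hρJ]
    split_ifs
    · ring
    · ring
  have hρB : ∀ a b, ∑ j, tn B a j b j = if a = b then -c else 0 := by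
    intro a b
    have h1 : ∀ j, tn B a j b j = tn B' a j b j -
        (2 * c / n) * tn (LinearMap.id : so (Fin N) ℝ →ₗ[ℝ] so (Fin N) ℝ) a j b j := fun j =>
      SoGap_tn_sub B' LinearMap.id (2 * c / n) a j b j
    simp only [h1, Finset.sum_sub_distrib, ← Finset.mul_sum, hρB', SoGap_rho_id]
    split_ifs
    · have h2 : (N : ℝ) - 1 = n + 1 := by rw [hn]; ring
      rw [h2]
      field_simp
      ring
    · ring
  have hc : |c| ≤ (n + 1) * s := by
    have h1 := SoGap_rho hN3 hρB (s := s) (fun y => by rw [hBq]; exact hs y)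
    rw [abs_neg] at h1
    have h2 : (N : ℝ) - 1 = n + 1 := by rw [hn]; ring
    rwa [h2] at h1
  obtain ⟨s', hs'⟩ : ∃ s' : ℝ, s' = s * (3 + 2 / n) := ⟨_, rfl⟩
  have hB'le : ∀ y, |Qf (so (Fin N) ℝ) (B' y) y| ≤ s' * Qf (so (Fin N) ℝ) y y := by
    intro y
    have h1 : Qf (so (Fin N) ℝ) (B' y) y =
        Qf (so (Fin N) ℝ) (B y) y + (2 * c / n) * Qf (so (Fin N) ℝ) y y := by
      rw [hBB]
      ring
    rw [h1]
    refine (abs_add_le _ _).trans ?_
    have h2 := hs y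
    rw [← hBq] at h2
    have h3 : |2 * c / n * Qf (so (Fin N) ℝ) y y| ≤
        (2 * (n + 1) * s / n) * Qf (so (Fin N) ℝ) y y := by
      rw [abs_mul, abs_of_nonneg (hQ0 y)]
      refine mul_le_mul_of_nonneg_right ?_ (hQ0 y)
      rw [abs_div, abs_mul, abs_of_pos (by norm_num : (0 : ℝ) < 2),
        abs_of_pos (by linarith : (0 : ℝ) < n)]
      refine div_le_div_of_nonneg_right ?_ (by linarith)
      nlinarith
    refine (add_le_add h2 h3).trans (le_of_eq ?_)
    rw [hs']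
    field_simp
    ring
  have hρB'le : |c + 2 * c / n| ≤ (n + 1) * s' := by
    have h1 := SoGap_rho hN3 hρB' hB'le
    have h2 : (N : ℝ) - 1 = n + 1 := by rw [hn]; ring
    rwa [h2] at h1
  -- the operator `J B'`
  have hB's : QSym B' := SoGap_sym_sub hT hJ _
  set K : so (Fin N) ℝ →ₗ[ℝ] so (Fin N) ℝ := (J - (2 / n) • (J - (-2 : ℝ) • T)) with hK
  have hKt : ∀ a b c d, tn K a b c d = tn B' a c d b - tn B' a d c b := by
    intro a b c d
    have h1 : tn K a b c d = tn J a b c d - (2 / n) * (tn J a b c d - (-2) * tn T a b c d) := by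
      rw [← SoGap_tn_sub J T (-2), ← SoGap_tn_sub J (J - (-2 : ℝ) • T) (2 / n)]
    have h2 : ∀ a b c d, tn B' a b c d = tn T a b c d - (2 / n) * tn J a b c d := fun a b c d =>
      SoGap_tn_sub T J (2 / n) a b c d
    rw [h1, h2, h2]
    simp only [hJt]
    have e1 : tn T a b d c = -tn T a b c d := s2 a b c d
    have e2 : tn T a d b c = -tn T a d c b := s2 a d c b
    have e3 : tn T a c b d = -tn T a c d b := s2 a c d b
    rw [e1, e2, e3]
    ring
  have hKq : ∀ y, Qf (so (Fin N) ℝ) (K y) y = (1 - 2 / n) * Qf (so (Fin N) ℝ) (J y) y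
      - (4 / n) * Qf (so (Fin N) ℝ) (T y) y := by
    intro y
    show Qf (so (Fin N) ℝ) (J y - (2 / n) • (J y - (-2 : ℝ) • T y)) y = _
    rw [map_sub, LinearMap.sub_apply, map_smul, LinearMap.smul_apply, map_sub,
      LinearMap.sub_apply, map_smul, LinearMap.smul_apply, smul_eq_mul, smul_eq_mul]
    ring
  have hKle : |Qf (so (Fin N) ℝ) (K x) x| ≤ (2 * n + 1) * s' * Qf (so (Fin N) ℝ) x x := by
    have h1 := SoGap_TH hN3 hB's hρB' hKt x
    rw [← hn] at h1
    have h2 : Qf (so (Fin N) ℝ) (K x) x =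
        n * TH B' x x - (c + 2 * c / n) * Qf (so (Fin N) ℝ) x x := by linarith
    rw [h2]
    refine (abs_sub _ _).trans ?_
    rw [abs_mul, abs_mul, abs_of_nonneg (hQ0 x), abs_of_pos (by linarith : (0 : ℝ) < n)]
    have h3 := SoGap_TH_le hN3 hB'le x
    have h4 : n * |TH B' x x| ≤ n * (s' * Qf (so (Fin N) ℝ) x x) :=
      mul_le_mul_of_nonneg_left h3 (by linarith)
    have h5 : |c + 2 * c / n| * Qf (so (Fin N) ℝ) x x ≤
        (n + 1) * s' * Qf (so (Fin N) ℝ) x x := mul_le_mul_of_nonneg_right hρB'le (hQ0 x)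
    linarith
  -- conclusion
  have hT' : (n + 2) * (n - 4) * Qf (so (Fin N) ℝ) (T x) x =
      (n - 2) * n * Qf (so (Fin N) ℝ) (B' x) x + 2 * n * Qf (so (Fin N) ℝ) (K x) x := by
    rw [hB'q, hKq]
    field_simp
    ring
  have hq := hQ0 x
  have h1 := hB'le x
  set q := Qf (so (Fin N) ℝ) x x with hqd
  set t := Qf (so (Fin N) ℝ) (T x) x with htd
  have hden : 0 < (n + 2) * (n - 4) := mul_pos (by linarith) (by linarith)
  have h2 : (n + 2) * (n - 4) * |t| ≤ 5 * n ^ 2 * s' * q := by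
    have h3 : (n + 2) * (n - 4) * |t| = |(n + 2) * (n - 4) * t| := by
      rw [abs_mul, abs_of_pos hden]
    rw [h3, hT']
    refine (abs_add_le _ _).trans ?_
    rw [abs_mul, abs_mul (2 * n), abs_of_nonneg (mul_nonneg (by linarith) (by linarith) :
      0 ≤ (n - 2) * n), abs_of_nonneg (by linarith : 0 ≤ 2 * n)]
    have h4 : (n - 2) * n * |Qf (so (Fin N) ℝ) (B' x) x| ≤ (n - 2) * n * (s' * q) :=
      mul_le_mul_of_nonneg_left h1 (mul_nonneg (by linarith) (by linarith))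
    have h5 : 2 * n * |Qf (so (Fin N) ℝ) (K x) x| ≤ 2 * n * ((2 * n + 1) * s' * q) :=
      mul_le_mul_of_nonneg_left hKle (by linarith)
    refine (add_le_add h4 h5).trans (le_of_eq ?_)
    ring
  have h6 : |t| ≤ 5 * n ^ 2 * s' * q / ((n + 2) * (n - 4)) := by
    rw [le_div_iff₀ hden]
    linarith
  refine h6.trans (le_of_eq ?_)
  have e1 : (N : ℝ) = n + 2 := by rw [hn]; ring
  rw [e1, hs']
  have e2 : n + 2 - 6 = n - 4 := by ring
  have e3 : n + 2 - 2 = n := by ring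
  rw [e2, e3]
  have hd1 : n + 2 ≠ 0 := by linarith
  have hd2 : n - 4 ≠ 0 := by linarith
  field_simp

end Pool.Agent.SmIso
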