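import Pool.Agent.SmIso.Asm
import Pool.Agent.SmIso.RigGap
import Pool.Agent.SmIso.PiGap
import Pool.Agent.SmIso.Rho
import Pool.Agent.SmIso.SoGap
import Pool.Agent.SmIso.SoCas
import Pool.Agent.SmIso.Diag

/-!
# Main theorems
-/

namespace Pool.Agent.SmIso

open Matrix Pool.Agent.EStab Pool.Agent.EinS LieAlgebra.Orthogonal

/-- Products of copies of finitely many rigid algebras. -/
theorem einstein_products {r : ℕ} (L : Fin r → Type) [∀ j, LieRing (L j)]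
    [∀ j, LieAlgebra ℝ (L j)] [∀ j, Module.Finite ℝ (L j)]
    (hL : ∀ j, CompactSemisimple (L j) ∧ Rigid (L j)) :
    ∃ δ : ℝ, 0 < δ ∧ ∀ (n : ℕ) (s : Fin n → Fin r) (h : LieSubalgebra ℝ (∀ i, L (s i))),
      CasimirSmall h δ → HasEinsteinMetric (∀ i, L (s i)) h.toSubmodule (stabAuts h) := by
  classical
  have h1 : ∀ j, ∃ K : ℝ, 1 ≤ K ∧ Gap0 (L j) K := fun j => gap0_of_rigid (hL j).1 (hL j).2
  choose K hK hgap using h1
  obtain ⟨K₀, hK₀, hK₁⟩ : ∃ K₀ : ℝ, 1 ≤ K₀ ∧ ∀ j, K j ≤ K₀ := by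
    refine ⟨1 + ∑ j, |K j|, ?_, fun j => ?_⟩
    · have : 0 ≤ ∑ j, |K j| := Finset.sum_nonneg fun j _ => abs_nonneg _
      linarith
    · have h2 : |K j| ≤ ∑ j, |K j| :=
        Finset.single_le_sum (f := fun j => |K j|) (fun j _ => abs_nonneg _) (Finset.mem_univ j)
      have := le_abs_self (K j)
      linarith
  have hgap' : ∀ j, Gap0 (L j) K₀ := by
    intro j T hT s hs x
    refine (hgap j T hT s hs x).trans ?_
    have h3 : 0 ≤ s * Qf (L j) x x := (abs_nonneg _).trans (hs x)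
    rw [mul_assoc, mul_assoc]
    exact mul_le_mul_of_nonneg_right (hK₁ j) h3
  have hpos : (0 : ℝ) < 1250 * (K₀ + 2) ^ 2 := by positivity
  refine ⟨1 / (1250 * (K₀ + 2) ^ 2), by positivity, fun n s h hcas => ?_⟩
  refine small_isotropy (K := K₀ + 2) (δ := 1 / (1250 * (K₀ + 2) ^ 2))
    (compact_pi fun i => (hL (s i)).1) (by linarith) (by positivity) ?_ ?_ hcas
  · rw [mul_one_div_cancel hpos.ne']
  · exact (gap0_pi (fun i => (hL (s i)).1) (by linarith) fun i => hgap' (s i)).gap h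

private theorem Fin_mono {L : Type*} [LieRing L] [LieAlgebra ℝ L] {h : LieSubalgebra ℝ L}
    {δ δ' : ℝ} (hg : CompactSemisimple L) (hd : δ ≤ δ') (hc : CasimirSmall h δ) :
    CasimirSmall h δ' := by
  intro n a ha hab x
  refine (hc n a ha hab x).trans (mul_le_mul_of_nonneg_right hd ?_)
  exact Qf_nonneg hg x

/-- Subgroups of `SO(N)` with irreducible normaliser. -/
theorem einstein_so {N : ℕ} (hN : 7 ≤ N) (h : LieSubalgebra ℝ (so (Fin N) ℝ))
    (hirr : NormalizerIrreducible h) (hdim : 2 * 10 ^ 6 * Module.finrank ℝ h ≤ N ^ 2) :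
    HasEinsteinMetric (so (Fin N) ℝ) h.toSubmodule (stabAuts h) := by
  have hN' : (7 : ℝ) ≤ N := by exact_mod_cast hN
  have hg : CompactSemisimple (so (Fin N) ℝ) := so_compact (by omega)
  have hgap : Gap h (5 * ((N : ℝ) - 2) * (3 * ((N : ℝ) - 2) + 2) / ((N : ℝ) * ((N : ℝ) - 6))) := by
    intro T hT hc s hs x
    obtain ⟨c, hρ⟩ := rho_scalar (by omega) hirr hT hc
    exact so_gap hN hT hρ hs x
  have hcas := so_casimir (by omega) hirr
  have hden : (0 : ℝ) < (N : ℝ) * ((N : ℝ) - 6) := by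
    have : (0 : ℝ) < (N : ℝ) - 6 := by linarith
    positivity
  have hden2 : (0 : ℝ) < (N : ℝ) * ((N : ℝ) - 2) := by
    have : (0 : ℝ) < (N : ℝ) - 2 := by linarith
    positivity
  have hK : 1 ≤ 5 * ((N : ℝ) - 2) * (3 * ((N : ℝ) - 2) + 2) / ((N : ℝ) * ((N : ℝ) - 6)) := by
    rw [le_div_iff₀ hden]
    nlinarith
  obtain ⟨r, hr⟩ : ∃ r : ℕ, r = Module.finrank ℝ h := ⟨_, rfl⟩
  rw [← hr] at hdim hcas
  refine small_isotropy hg hK (δ := 4 * (r : ℝ) / ((N : ℝ) * ((N : ℝ) - 2))) (by positivity) ?_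
    hgap hcas
  rcases Nat.eq_zero_or_pos r with h0 | hpos
  · rw [h0]
    simp
  · have hd : (2000000 : ℝ) * r ≤ (N : ℝ) ^ 2 := by
      have : (2 * 10 ^ 6 * r : ℕ) ≤ N ^ 2 := hdim
      have h2 : ((2 * 10 ^ 6 * r : ℕ) : ℝ) ≤ ((N ^ 2 : ℕ) : ℝ) := by exact_mod_cast this
      push_cast at h2
      linarith
    have hr1 : (1 : ℝ) ≤ r := by exact_mod_cast hpos
    have hN1 : (1414 : ℝ) ≤ N := by
      by_contra hcon
      push Not at hcon
      nlinarith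
    have hK' : 5 * ((N : ℝ) - 2) * (3 * ((N : ℝ) - 2) + 2) / ((N : ℝ) * ((N : ℝ) - 6)) ≤ 16 := by
      rw [div_le_iff₀ hden]
      nlinarith
    have hδ : 4 * (r : ℝ) / ((N : ℝ) * ((N : ℝ) - 2)) ≤ 1 / 400000 := by
      rw [div_le_div_iff₀ hden2 (by norm_num)]
      nlinarith
    have hδ0 : 0 ≤ 4 * (r : ℝ) / ((N : ℝ) * ((N : ℝ) - 2)) := by positivity
    calc 1250 * (5 * ((N : ℝ) - 2) * (3 * ((N : ℝ) - 2) + 2) / ((N : ℝ) * ((N : ℝ) - 6))) ^ 2
          * (4 * (r : ℝ) / ((N : ℝ) * ((N : ℝ) - 2)))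
        ≤ 1250 * (16 : ℝ) ^ 2 * (1 / 400000) := by
          gcongr
      _ ≤ 1 := by norm_num

end Pool.Agent.SmIso
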