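import Pool.Agent.SmIso.RigGap

/-!
# The gap constant on the complement of the infinitesimal deformations

For any compact semisimple `L`.  `CasimirOne R` means: `R` is symmetric and `Qf (R x) y = 2 TH R x y` for all `x, y`.
The `R` with `CasimirOne R` form a subspace `𝒦` of the symmetric endomorphisms; `tr (T R)` is positive definite on the
symmetric endomorphisms (`tr (T T) = ∑ Qf (T e_i) (T e_i)` in a frame).  On `V = {T symmetric, tr (T R) = 0 for R ∈ 𝒦}`
the map `T ↦ (Qf (T x) y - 2 TH T x y)` is injective (if it vanishes then `T ∈ 𝒦 ∩ V`, so `tr (T T) = 0`, `T = 0`).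
The rest is the proof of `gap0_of_rigid` in `RigGap.lean` with `V` in place of the space `rigGapSym` of all symmetric
endomorphisms (copy it; you may also factor out a general lemma from `RigGap.lean` into this file).
-/

namespace Pool.Agent.SmIso

open Matrix Pool.Agent.EStab Pool.Agent.EinS

section PerpGap

variable {L : Type*} [LieRing L] [LieAlgebra ℝ L]

/-- The symmetric endomorphisms orthogonal to the solutions of `CasimirOne`. -/
private def perpGapSym (L : Type*) [LieRing L] [LieAlgebra ℝ L] : Submodule ℝ (L →ₗ[ℝ] L) where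
  carrier := {T | QSym T ∧ ∀ R : L →ₗ[ℝ] L, CasimirOne R → LinearMap.trace ℝ L (T ∘ₗ R) = 0}
  add_mem' := fun {a b} ha hb => by
    refine ⟨fun x y => ?_, fun R hR => ?_⟩
    · rw [LinearMap.add_apply, LinearMap.add_apply, map_add, LinearMap.add_apply, map_add,
        ha.1 x y, hb.1 x y]
    · rw [LinearMap.add_comp, map_add, ha.2 R hR, hb.2 R hR, add_zero]
  zero_mem' := by
    refine ⟨fun x y => ?_, fun R hR => ?_⟩
    · rw [LinearMap.zero_apply, LinearMap.zero_apply, map_zero, map_zero, LinearMap.zero_apply]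
    · rw [LinearMap.zero_comp, map_zero]
  smul_mem' := fun c T h => by
    refine ⟨fun x y => ?_, fun R hR => ?_⟩
    · rw [LinearMap.smul_apply, LinearMap.smul_apply, map_smul, LinearMap.smul_apply, map_smul,
        h.1 x y]
    · rw [LinearMap.smul_comp, map_smul, h.2 R hR, smul_zero]

/-- The form `2 TH` subtracted from the form of `T`. -/
private noncomputable def perpGapB (T : L →ₗ[ℝ] L) (x y : L) : ℝ := Qf L (T x) y - 2 * TH T x y

private theorem perpGap_TH_add (S T : L →ₗ[ℝ] L) (x y : L) : TH (S + T) x y = TH S x y + TH T x y := by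
  unfold TH
  rw [LinearMap.add_comp, LinearMap.comp_add, map_add]
  ring

private theorem perpGap_TH_smul (c : ℝ) (T : L →ₗ[ℝ] L) (x y : L) : TH (c • T) x y = c * TH T x y := by
  unfold TH
  rw [LinearMap.smul_comp, LinearMap.comp_smul, map_smul, smul_eq_mul]
  ring

private theorem perpGap_TH_left (T : L →ₗ[ℝ] L) (x x' y : L) : TH T (x + x') y = TH T x y + TH T x' y := by
  unfold TH
  rw [map_add]
  change -LinearMap.trace ℝ L (((LieAlgebra.ad ℝ L x : L →ₗ[ℝ] L) + (LieAlgebra.ad ℝ L x' : L →ₗ[ℝ] L)) ∘ₗ T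
    ∘ₗ (LieAlgebra.ad ℝ L y : L →ₗ[ℝ] L)) = _
  rw [LinearMap.add_comp, map_add]
  ring

private theorem perpGap_TH_lsmul (T : L →ₗ[ℝ] L) (c : ℝ) (x y : L) : TH T (c • x) y = c * TH T x y := by
  unfold TH
  rw [map_smul]
  change -LinearMap.trace ℝ L ((c • (LieAlgebra.ad ℝ L x : L →ₗ[ℝ] L)) ∘ₗ T
    ∘ₗ (LieAlgebra.ad ℝ L y : L →ₗ[ℝ] L)) = _
  rw [LinearMap.smul_comp, map_smul, smul_eq_mul]
  ring

private theorem perpGap_TH_right (T : L →ₗ[ℝ] L) (x y y' : L) : TH T x (y + y') = TH T x y + TH T x y' := by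
  unfold TH
  rw [map_add]
  change -LinearMap.trace ℝ L ((LieAlgebra.ad ℝ L x : L →ₗ[ℝ] L) ∘ₗ T
    ∘ₗ ((LieAlgebra.ad ℝ L y : L →ₗ[ℝ] L) + (LieAlgebra.ad ℝ L y' : L →ₗ[ℝ] L))) = _
  rw [LinearMap.comp_add, LinearMap.comp_add, map_add]
  ring

private theorem perpGap_TH_rsmul (T : L →ₗ[ℝ] L) (c : ℝ) (x y : L) : TH T x (c • y) = c * TH T x y := by
  unfold TH
  rw [map_smul]
  change -LinearMap.trace ℝ L ((LieAlgebra.ad ℝ L x : L →ₗ[ℝ] L) ∘ₗ T
    ∘ₗ (c • (LieAlgebra.ad ℝ L y : L →ₗ[ℝ] L))) = _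
  rw [LinearMap.comp_smul, LinearMap.comp_smul, map_smul, smul_eq_mul]
  ring

/-- The form `TH T` as a bilinear form. -/
private noncomputable def perpGapTH (T : L →ₗ[ℝ] L) : L →ₗ[ℝ] L →ₗ[ℝ] ℝ :=
  LinearMap.mk₂ ℝ (TH T) (perpGap_TH_left T) (perpGap_TH_lsmul T) (perpGap_TH_right T) (perpGap_TH_rsmul T)

private theorem perpGap_symm {ι : Type*} [Fintype ι] [DecidableEq ι] {e : ι → L}
    (he : IsFrame (⊤ : Submodule ℝ L) e) {T : L →ₗ[ℝ] L} (hT : QSym T) (x y : L) :
    TH T x y = TH T y x := by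
  rw [TH_frame he, TH_frame he]
  refine Finset.sum_congr rfl fun i _ => ?_
  rw [hT, Qf_symm]

private theorem perpGap_pos {ι : Type*} [Fintype ι] [DecidableEq ι] {e : ι → L}
    (hg : CompactSemisimple L) (he : IsFrame (⊤ : Submodule ℝ L) e) {T : L →ₗ[ℝ] L} (hT : QSym T)
    (h : LinearMap.trace ℝ L (T ∘ₗ T) = 0) : T = 0 := by
  have h1 : LinearMap.trace ℝ L (T ∘ₗ T) = ∑ i, Qf L (T (e i)) (T (e i)) := by
    rw [he.trace_eq]
    refine Finset.sum_congr rfl fun i _ => ?_
    rw [LinearMap.comp_apply, hT]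
  rw [h] at h1
  have h2 : ∀ i, Qf L (T (e i)) (T (e i)) = 0 := by
    intro i
    have h3 : ∀ i ∈ Finset.univ, 0 ≤ Qf L (T (e i)) (T (e i)) := by
      intro i _
      rcases eq_or_ne (T (e i)) 0 with h0 | h0
      · rw [h0, map_zero]
      · exact (Qf_pos hg h0).le
    exact (Finset.sum_eq_zero_iff_of_nonneg h3).1 h1.symm i (Finset.mem_univ i)
  refine he.basis.ext fun i => ?_
  rw [he.basis_apply, LinearMap.zero_apply]
  by_contra h0
  exact (Qf_pos hg h0).ne' (h2 i)

private theorem perpGap_inj {ι : Type*} [Fintype ι] [DecidableEq ι] {e : ι → L}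
    (hg : CompactSemisimple L) (he : IsFrame (⊤ : Submodule ℝ L) e) {T : L →ₗ[ℝ] L}
    (hT : T ∈ perpGapSym L)
    (h : ∀ i j, perpGapB T (e i) (e j) = 0) : T = 0 := by
  have h1 : (Qf L ∘ₗ T : L →ₗ[ℝ] L →ₗ[ℝ] ℝ) = (2 : ℝ) • perpGapTH T := by
    refine he.basis.ext fun i => he.basis.ext fun j => ?_
    rw [he.basis_apply, he.basis_apply]
    have := h i j
    unfold perpGapB at this
    change Qf L (T (e i)) (e j) = 2 * TH T (e i) (e j)
    linarith
  refine perpGap_pos hg he hT.1 (hT.2 T ⟨fun x y => ?_, fun x y => ?_⟩)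
  · have := hT.1 x y
    rw [Qf_apply, Qf_apply] at this
    linarith
  · have h2 : Qf L (T x) y = 2 * TH T x y := by
      have := congrArg (fun f : L →ₗ[ℝ] L →ₗ[ℝ] ℝ => f x y) h1
      exact this
    rw [Qf_apply] at h2
    unfold TH at h2
    linarith

/-- The entries of the form of `T - 2 Θ T`. -/
private noncomputable def perpGapF {n : ℕ} (e : Fin n → L) : perpGapSym L →ₗ[ℝ] (Fin n → Fin n → ℝ) where
  toFun := fun T i j => perpGapB T.1 (e i) (e j)
  map_add' := fun S T => by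
    funext i j
    change perpGapB (S.1 + T.1) (e i) (e j) = perpGapB S.1 (e i) (e j) + perpGapB T.1 (e i) (e j)
    unfold perpGapB
    rw [perpGap_TH_add, LinearMap.add_apply, map_add, LinearMap.add_apply]
    ring
  map_smul' := fun c T => by
    funext i j
    change perpGapB (c • T.1) (e i) (e j) = c * perpGapB T.1 (e i) (e j)
    unfold perpGapB
    rw [perpGap_TH_smul, LinearMap.smul_apply, map_smul, LinearMap.smul_apply, smul_eq_mul]
    ring

/-- The entries of the form of `T`. -/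
private noncomputable def perpGapG {n : ℕ} (e : Fin n → L) : perpGapSym L →ₗ[ℝ] (Fin n → Fin n → ℝ) where
  toFun := fun T i j => Qf L (T.1 (e i)) (e j)
  map_add' := fun S T => by
    funext i j
    change Qf L ((S.1 + T.1) (e i)) (e j) = Qf L (S.1 (e i)) (e j) + Qf L (T.1 (e i)) (e j)
    rw [LinearMap.add_apply, map_add, LinearMap.add_apply]
  map_smul' := fun c T => by
    funext i j
    change Qf L ((c • T.1) (e i)) (e j) = c * Qf L (T.1 (e i)) (e j)
    rw [LinearMap.smul_apply, map_smul, LinearMap.smul_apply, smul_eq_mul]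

private theorem perpGap_bound {n : ℕ} {e : Fin n → L} (hg : CompactSemisimple L)
    (he : IsFrame (⊤ : Submodule ℝ L) e) :
    ∃ C : ℝ, 0 ≤ C ∧ ∀ T : L →ₗ[ℝ] L, T ∈ perpGapSym L → ∀ s : ℝ, 0 ≤ s →
      (∀ i j, |perpGapB T (e i) (e j)| ≤ s) → ∀ i j, |Qf L (T (e i)) (e j)| ≤ C * s := by
  have hker : LinearMap.ker (perpGapF e) = ⊥ := by
    rw [LinearMap.ker_eq_bot']
    intro T hT
    apply Subtype.ext
    exact perpGap_inj hg he T.2 fun i j => congrFun (congrFun hT i) j
  obtain ⟨g, hg⟩ := LinearMap.exists_leftInverse_of_injective (perpGapF e) hker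
  set k : (Fin n → Fin n → ℝ) →L[ℝ] (Fin n → Fin n → ℝ) :=
    LinearMap.toContinuousLinearMap (perpGapG e ∘ₗ g) with hk
  refine ⟨‖k‖, norm_nonneg _, fun T hT s hs hB i j => ?_⟩
  set T' : perpGapSym L := ⟨T, hT⟩ with hT'
  have h1 : k (perpGapF e T') = perpGapG e T' := by
    change perpGapG e (g (perpGapF e T')) = _
    have := congrArg (fun f : perpGapSym L →ₗ[ℝ] perpGapSym L => f T') hg
    change g (perpGapF e T') = T' at this
    rw [this]
  have h2 : ‖perpGapF e T'‖ ≤ s := by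
    rw [pi_norm_le_iff_of_nonneg hs]
    intro i
    rw [pi_norm_le_iff_of_nonneg hs]
    intro j
    exact hB i j
  have h3 : ‖perpGapG e T'‖ ≤ ‖k‖ * s := by
    rw [← h1]
    exact (k.le_opNorm _).trans (mul_le_mul_of_nonneg_left h2 (norm_nonneg _))
  have h4 : ‖perpGapG e T' i j‖ ≤ ‖perpGapG e T'‖ :=
    (norm_le_pi_norm (perpGapG e T' i) j).trans (norm_le_pi_norm (perpGapG e T') i)
  exact h4.trans h3

private theorem perpGap_polar {n : ℕ} {e : Fin n → L} (he : IsFrame (⊤ : Submodule ℝ L) e)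
    {T : L →ₗ[ℝ] L} (hT : QSym T) {s : ℝ}
    (hs : ∀ x, |Qf L (T x) x - 2 * TH T x x| ≤ s * Qf L x x) (i j : Fin n) :
    |perpGapB T (e i) (e j)| ≤ s := by
  have h1 := hs (e i + e j)
  have h2 := hs (e i - e j)
  have hTs := perpGap_symm he hT (e i) (e j)
  have hQs : Qf L (T (e i)) (e j) = Qf L (T (e j)) (e i) := by rw [hT, Qf_symm]
  have hb : ∀ x y : L, TH T (x - y) (x - y) = TH T x x - TH T x y - TH T y x + TH T y y := by
    intro x y
    have := congrArg (fun r : ℝ => r) (show perpGapTH T (x - y) (x - y) =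
      perpGapTH T x x - perpGapTH T x y - perpGapTH T y x + perpGapTH T y y by
        rw [map_sub, map_sub, LinearMap.sub_apply, LinearMap.sub_apply]
        ring)
    exact this
  have ha : ∀ x y : L, TH T (x + y) (x + y) = TH T x x + TH T x y + TH T y x + TH T y y := by
    intro x y
    rw [perpGap_TH_left, perpGap_TH_right, perpGap_TH_right]
    ring
  have hqa : ∀ x y : L, Qf L (T (x + y)) (x + y) =
      Qf L (T x) x + Qf L (T x) y + Qf L (T y) x + Qf L (T y) y := by
    intro x y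
    rw [map_add, map_add, map_add, LinearMap.add_apply, LinearMap.add_apply]
    ring
  have hqb : ∀ x y : L, Qf L (T (x - y)) (x - y) =
      Qf L (T x) x - Qf L (T x) y - Qf L (T y) x + Qf L (T y) y := by
    intro x y
    rw [map_sub, map_sub, map_sub, LinearMap.sub_apply, LinearMap.sub_apply]
    ring
  have hca : Qf L (e i + e j) (e i + e j) =
      Qf L (e i) (e i) + Qf L (e i) (e j) + Qf L (e j) (e i) + Qf L (e j) (e j) := by
    rw [map_add, map_add, LinearMap.add_apply, LinearMap.add_apply]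
    ring
  have hcb : Qf L (e i - e j) (e i - e j) =
      Qf L (e i) (e i) - Qf L (e i) (e j) - Qf L (e j) (e i) + Qf L (e j) (e j) := by
    rw [map_sub, map_sub, LinearMap.sub_apply, LinearMap.sub_apply]
    ring
  have hii : Qf L (e i) (e i) = 1 := by rw [he.orth, if_pos rfl]
  have hjj : Qf L (e j) (e j) = 1 := by rw [he.orth, if_pos rfl]
  rw [hqa, ha, hca, hii, hjj, ← hTs, ← hQs, Qf_symm (e j) (e i)] at h1
  rw [hqb, hb, hcb, hii, hjj, ← hTs, ← hQs, Qf_symm (e j) (e i)] at h2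
  rw [abs_le] at h1 h2 ⊢
  unfold perpGapB
  constructor
  · linarith [h1.1, h1.2, h2.1, h2.2]
  · linarith [h1.1, h1.2, h2.1, h2.2]

end PerpGap

theorem gap_perp {L : Type*} [LieRing L] [LieAlgebra ℝ L] [Module.Finite ℝ L]
    (hg : CompactSemisimple L) :
    ∃ K : ℝ, 1 ≤ K ∧ ∀ T : L →ₗ[ℝ] L, QSym T →
      (∀ R : L →ₗ[ℝ] L, CasimirOne R → LinearMap.trace ℝ L (T ∘ₗ R) = 0) →
      ∀ s : ℝ, (∀ x, |Qf L (T x) x - 2 * TH T x x| ≤ s * Qf L x x) →
      ∀ x, |Qf L (T x) x| ≤ K * s * Qf L x x := by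
  obtain ⟨n, e, he⟩ := exists_frame hg (⊤ : Submodule ℝ L)
  obtain ⟨C, hC, hb⟩ := perpGap_bound hg he
  refine ⟨max 1 (C * n), le_max_left _ _, fun T hT hR s hs x => ?_⟩
  rcases eq_or_ne x 0 with rfl | hx
  · rw [map_zero, map_zero, abs_zero, mul_zero]
  have hxp := Qf_pos hg hx
  have hs0 : 0 ≤ s := by
    have := (abs_nonneg _).trans (hs x)
    by_contra hneg
    push Not at hneg
    nlinarith
  have h1 := hb T ⟨hT, hR⟩ s hs0 (fun i j => perpGap_polar he hT hs i j)
  have h2 : Qf L (T x) x = ∑ i, ∑ j, Qf L x (e i) * Qf L x (e j) * Qf L (T (e i)) (e j) := by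
    have hx' := he.exp x Submodule.mem_top
    have h3 : T x = ∑ i, Qf L x (e i) • T (e i) := by
      conv_lhs => rw [hx']
      rw [map_sum]
      exact Finset.sum_congr rfl fun i _ => map_smul _ _ _
    rw [h3, Qf_sum]
    refine Finset.sum_congr rfl fun i _ => ?_
    have h3' : Qf L (T (e i)) x = ∑ j, Qf L x (e j) * Qf L (T (e i)) (e j) := by
      conv_lhs => rw [hx']
      rw [Qf_sum']
    rw [h3', Finset.mul_sum]
    refine Finset.sum_congr rfl fun j _ => ?_
    ring
  have h4 : Qf L x x = ∑ i, Qf L x (e i) ^ 2 := by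
    rw [he.parseval Submodule.mem_top x]
    exact Finset.sum_congr rfl fun i _ => (pow_two _).symm
  have h5 : |Qf L (T x) x| ≤ (∑ i, |Qf L x (e i)|) ^ 2 * (C * s) := by
    rw [h2, pow_two, Finset.sum_mul_sum, Finset.sum_mul]
    refine (Finset.abs_sum_le_sum_abs _ _).trans (Finset.sum_le_sum fun i _ => ?_)
    rw [Finset.sum_mul]
    refine (Finset.abs_sum_le_sum_abs _ _).trans (Finset.sum_le_sum fun j _ => ?_)
    rw [abs_mul, abs_mul]
    exact mul_le_mul_of_nonneg_left (h1 i j) (mul_nonneg (abs_nonneg _) (abs_nonneg _))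
  have h6 : (∑ i, |Qf L x (e i)|) ^ 2 ≤ n * Qf L x x := by
    have := sq_sum_le_card_mul_sum_sq (s := Finset.univ) (f := fun i : Fin n => |Qf L x (e i)|)
    rw [Finset.card_univ, Fintype.card_fin] at this
    rw [h4]
    refine this.trans (le_of_eq ?_)
    congr 1
    exact Finset.sum_congr rfl fun i _ => sq_abs _
  have h7 : |Qf L (T x) x| ≤ (C * n) * s * Qf L x x := by
    refine h5.trans ((mul_le_mul_of_nonneg_right h6 (mul_nonneg hC hs0)).trans (le_of_eq ?_))
    ring
  refine h7.trans ?_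
  exact mul_le_mul_of_nonneg_right (mul_le_mul_of_nonneg_right (le_max_right _ _) hs0) hxp.le

end Pool.Agent.SmIso
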