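import Pool.Agent.SmIso.Base

/-!
# Invariant endomorphisms are orthogonal to the infinitesimal deformations

`𝒦` = the space of all `R` with `CasimirOne R` (a subspace of the symmetric endomorphisms: `CasimirOne` is linear).
`R ↦ tr (R ·)` is an injective linear map from `𝒦` to its dual (`tr (R R) = ∑ Qf (R e_i) (R e_i) > 0` for symmetric
`R ≠ 0` in a frame `e`), so bijective; let `R₀ ∈ 𝒦` with `tr (R₀ R) = tr (T R)` for all `R ∈ 𝒦`.  For an automorphism `δ`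
with `δ h = h`: `δ R δ⁻¹ ∈ 𝒦` for `R ∈ 𝒦` (the Killing form and the trace are invariant) and
`tr (δ⁻¹ R₀ δ R) = tr (R₀ δ R δ⁻¹) = tr (T δ R δ⁻¹) = tr (δ⁻¹ T δ R) = tr (T R) = tr (R₀ R)`, so `δ⁻¹ R₀ δ = R₀`.
By `RigidAt h`, `R₀ = 0`.
-/

set_option linter.all false

namespace Pool.Agent.SmIso

open Matrix Pool.Agent.EStab Pool.Agent.EinS

section PerpAt

variable {L : Type*} [LieRing L] [LieAlgebra ℝ L]

/-- the space of the infinitesimal deformations -/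
private def perpAtK (L : Type*) [LieRing L] [LieAlgebra ℝ L] : Submodule ℝ (L →ₗ[ℝ] L) where
  carrier := {R | CasimirOne R}
  add_mem' := fun {a b} ha hb => by
    refine ⟨fun x y => ?_, fun x y => ?_⟩
    · rw [LinearMap.add_apply, LinearMap.add_apply, map_add, LinearMap.add_apply, map_add,
        ha.1 x y, hb.1 x y]
    · rw [LinearMap.add_comp, LinearMap.comp_add, map_add, ha.2, hb.2, LinearMap.add_apply,
        map_add, LinearMap.add_apply]
      ring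
  zero_mem' := by
    refine ⟨fun x y => ?_, fun x y => ?_⟩
    · rw [LinearMap.zero_apply, LinearMap.zero_apply, map_zero, map_zero, LinearMap.zero_apply]
    · rw [LinearMap.zero_comp, LinearMap.comp_zero, map_zero, LinearMap.zero_apply, map_zero,
        LinearMap.zero_apply, mul_zero]
  smul_mem' := fun c T h => by
    refine ⟨fun x y => ?_, fun x y => ?_⟩
    · rw [LinearMap.smul_apply, LinearMap.smul_apply, map_smul, LinearMap.smul_apply, map_smul,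
        h.1 x y]
    · rw [LinearMap.smul_comp, LinearMap.comp_smul, map_smul, h.2, LinearMap.smul_apply,
        map_smul, LinearMap.smul_apply, smul_eq_mul, smul_eq_mul]
      ring

private theorem perpAt_mem {R : L →ₗ[ℝ] L} : R ∈ perpAtK L ↔ CasimirOne R := Iff.rfl

/-- the trace form -/
private noncomputable def perpAtB (L : Type*) [LieRing L] [LieAlgebra ℝ L] :
    (L →ₗ[ℝ] L) →ₗ[ℝ] (L →ₗ[ℝ] L) →ₗ[ℝ] ℝ :=
  LinearMap.mk₂ ℝ (fun R R' => LinearMap.trace ℝ L (R ∘ₗ R'))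
    (fun a b c => by rw [LinearMap.add_comp, map_add])
    (fun c a b => by rw [LinearMap.smul_comp, map_smul])
    (fun a b c => by rw [LinearMap.comp_add, map_add])
    (fun c a b => by rw [LinearMap.comp_smul, map_smul])

private theorem perpAtB_apply (R R' : L →ₗ[ℝ] L) :
    perpAtB L R R' = LinearMap.trace ℝ L (R ∘ₗ R') := rfl

private theorem perpAt_comm (f g : L →ₗ[ℝ] L) :
    LinearMap.trace ℝ L (f ∘ₗ g) = LinearMap.trace ℝ L (g ∘ₗ f) :=
  LinearMap.trace_mul_comm ℝ f g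

/-- conjugation by an automorphism -/
private noncomputable def perpAtC (δ : L ≃ₗ⁅ℝ⁆ L) (R : L →ₗ[ℝ] L) : L →ₗ[ℝ] L :=
  (δ.toLinearEquiv : L →ₗ[ℝ] L) ∘ₗ R ∘ₗ (δ.symm.toLinearEquiv : L →ₗ[ℝ] L)

private theorem perpAtC_apply (δ : L ≃ₗ⁅ℝ⁆ L) (R : L →ₗ[ℝ] L) (x : L) :
    perpAtC δ R x = δ (R (δ.symm x)) := rfl

private theorem perpAt_trace (δ : L ≃ₗ⁅ℝ⁆ L) (R : L →ₗ[ℝ] L) :
    LinearMap.trace ℝ L (perpAtC δ R) = LinearMap.trace ℝ L R := by
  unfold perpAtC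
  rw [perpAt_comm]
  congr 1
  ext x
  simp

private theorem perpAt_mul (δ : L ≃ₗ⁅ℝ⁆ L) (R R' : L →ₗ[ℝ] L) :
    perpAtC δ R ∘ₗ perpAtC δ R' = perpAtC δ (R ∘ₗ R') := by
  ext x
  simp [perpAtC_apply]

private theorem perpAt_ad (δ : L ≃ₗ⁅ℝ⁆ L) (x : L) :
    (LieAlgebra.ad ℝ L x : L →ₗ[ℝ] L) = perpAtC δ (LieAlgebra.ad ℝ L (δ.symm x) : L →ₗ[ℝ] L) := by
  ext y
  rw [perpAtC_apply]
  show ⁅x, y⁆ = δ ⁅δ.symm x, δ.symm y⁆
  rw [LieEquiv.map_lie, LieEquiv.apply_symm_apply, LieEquiv.apply_symm_apply]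

private theorem perpAt_killing (δ : L ≃ₗ⁅ℝ⁆ L) (x y : L) :
    killingForm ℝ L (δ x) (δ y) = killingForm ℝ L x y :=
  LieAlgebra.killingForm_of_equiv_apply δ x y

private theorem perpAt_conj (δ : L ≃ₗ⁅ℝ⁆ L) {R : L →ₗ[ℝ] L} (h : CasimirOne R) :
    CasimirOne (perpAtC δ R) := by
  refine ⟨fun x y => ?_, fun x y => ?_⟩
  · have h1 : killingForm ℝ L (δ (R (δ.symm x))) y = killingForm ℝ L (R (δ.symm x)) (δ.symm y) := by
      rw [← perpAt_killing δ (R (δ.symm x)) (δ.symm y), LieEquiv.apply_symm_apply]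
    have h2 : killingForm ℝ L x (δ (R (δ.symm y))) = killingForm ℝ L (δ.symm x) (R (δ.symm y)) := by
      rw [← perpAt_killing δ (δ.symm x) (R (δ.symm y)), LieEquiv.apply_symm_apply]
    rw [perpAtC_apply, perpAtC_apply, h1, h2, h.1]
  · have h1 : killingForm ℝ L (δ (R (δ.symm x))) y = killingForm ℝ L (R (δ.symm x)) (δ.symm y) := by
      rw [← perpAt_killing δ (R (δ.symm x)) (δ.symm y), LieEquiv.apply_symm_apply]
    rw [perpAt_ad δ x, perpAt_ad δ y, perpAt_mul, perpAt_mul, perpAt_trace, h.2, perpAtC_apply, h1]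

end PerpAt

theorem perp_of_rigidAt {L : Type*} [LieRing L] [LieAlgebra ℝ L] [Module.Finite ℝ L]
    (hg : CompactSemisimple L) {h : LieSubalgebra ℝ L} (hr : RigidAt h) {T : L →ₗ[ℝ] L}
    (hT : QSym T)
    (hc : ∀ δ : L ≃ₗ⁅ℝ⁆ L, h.map (δ : L →ₗ⁅ℝ⁆ L) = h → ∀ x, T (δ x) = δ (T x))
    {R : L →ₗ[ℝ] L} (hR : CasimirOne R) : LinearMap.trace ℝ L (T ∘ₗ R) = 0 := by
  obtain ⟨n, e, he⟩ := exists_frame hg (⊤ : Submodule ℝ L)
  -- the trace form on the deformations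
  let B : perpAtK L →ₗ[ℝ] Module.Dual ℝ (perpAtK L) :=
    (perpAtB L).domRestrict₁₂ (perpAtK L) (perpAtK L)
  have hB : ∀ R R' : perpAtK L, B R R' = LinearMap.trace ℝ L (R.1 ∘ₗ R'.1) := fun R R' => rfl
  have hinj : Function.Injective B := by
    rw [← LinearMap.ker_eq_bot, LinearMap.ker_eq_bot']
    intro R hR0
    have h1 : LinearMap.trace ℝ L (R.1 ∘ₗ R.1) = 0 := by
      rw [← hB, hR0]
      rfl
    rw [he.trace_eq] at h1
    have hs : ∀ x y, Qf L (R.1 x) y = Qf L x (R.1 y) := by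
      intro x y
      rw [Qf_apply, Qf_apply, (perpAt_mem.mp R.2).1]
    have h2 : ∀ i, Qf L ((R.1 ∘ₗ R.1) (e i)) (e i) = Qf L (R.1 (e i)) (R.1 (e i)) := by
      intro i
      rw [LinearMap.comp_apply, hs]
    simp only [h2] at h1
    rw [Finset.sum_eq_zero_iff_of_nonneg (fun i _ => Qf_nonneg hg _)] at h1
    apply Subtype.ext
    refine he.basis.ext fun i => ?_
    rw [he.basis_apply]
    exact Qf_eq_zero hg (h1 i (Finset.mem_univ i))
  have hsurj : Function.Surjective B :=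
    (LinearMap.injective_iff_surjective_of_finrank_eq_finrank
      (Subspace.dual_finrank_eq (K := ℝ) (V := perpAtK L)).symm).mp hinj
  obtain ⟨R₀, hR₀⟩ := hsurj ((perpAtB L T).domRestrict (perpAtK L))
  have h0 : ∀ R' : L →ₗ[ℝ] L, CasimirOne R' →
      LinearMap.trace ℝ L (R₀.1 ∘ₗ R') = LinearMap.trace ℝ L (T ∘ₗ R') := by
    intro R' hR'
    exact congrArg (fun f : Module.Dual ℝ (perpAtK L) => f ⟨R', hR'⟩) hR₀
  have hcom : ∀ δ : L ≃ₗ⁅ℝ⁆ L, h.map (δ : L →ₗ⁅ℝ⁆ L) = h → ∀ x, R₀.1 (δ x) = δ (R₀.1 x) := by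
    intro δ hδ x
    have hTc : T = perpAtC δ T := by
      ext y
      rw [perpAtC_apply, ← hc δ hδ, LieEquiv.apply_symm_apply]
    have h1 : B ⟨perpAtC δ R₀.1, perpAt_conj δ R₀.2⟩ = B R₀ := by
      ext R'
      rw [hB, hB]
      show LinearMap.trace ℝ L (perpAtC δ R₀.1 ∘ₗ R'.1) = _
      have e1 : R'.1 = perpAtC δ (perpAtC δ.symm R'.1) := by
        ext y
        simp [perpAtC_apply]
      rw [h0 R'.1 R'.2]
      rw [e1, perpAt_mul, perpAt_trace, h0 _ (perpAt_conj δ.symm R'.2)]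
      conv_rhs => rw [hTc, perpAt_mul, perpAt_trace]
    have h2 : perpAtC δ R₀.1 = R₀.1 := congrArg Subtype.val (hinj h1)
    have h3 : perpAtC δ R₀.1 (δ x) = R₀.1 (δ x) := by rw [h2]
    rw [← h3, perpAtC_apply, LieEquiv.symm_apply_apply]
  have hz := hr R₀.1 (perpAt_mem.mp R₀.2) hcom
  rw [← h0 R hR, hz, LinearMap.zero_comp, map_zero]

end Pool.Agent.SmIso
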