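import Pool.Agent.SmIso.PiGap

/-!
# Blocks of an endomorphism orthogonal to the infinitesimal deformations

For `R : L i → L i` with `CasimirOne R` the endomorphism `ι_i R π_i` of the product satisfies `CasimirOne` (`killing_pi`,
`piLie_trace` in `EStab/PiLie.lean`: `ad x ι_i R π_i ad y` has the trace `tr (ad x_i R ad y_i)`), and
`tr (T ι_i R π_i) = tr (π_i T ι_i R) = tr (B R)`.
-/

namespace Pool.Agent.SmIso

open Matrix Pool.Agent.EStab Pool.Agent.EinS

theorem perp_pi {n : ℕ} {L : Fin n → Type} [∀ i, LieRing (L i)] [∀ i, LieAlgebra ℝ (L i)]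
    [∀ i, Module.Finite ℝ (L i)] {T : (∀ i, L i) →ₗ[ℝ] (∀ i, L i)}
    (hT : ∀ R : (∀ i, L i) →ₗ[ℝ] (∀ i, L i), CasimirOne R →
      LinearMap.trace ℝ (∀ i, L i) (T ∘ₗ R) = 0) {i : Fin n} {B : L i →ₗ[ℝ] L i}
    (hB : ∀ x, B x = T (Pi.single i x) i) {R : L i →ₗ[ℝ] L i} (hR : CasimirOne R) :
    LinearMap.trace ℝ (L i) (B ∘ₗ R) = 0 := by
  obtain ⟨hR1, hR2⟩ := hR
  have hK : ∀ (a : ∀ i, L i) (v : L i),
      killingForm ℝ (∀ i, L i) a (LinearMap.single ℝ L i v) = killingForm ℝ (L i) (a i) v := by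
    intro a v
    rw [killing_pi, Finset.sum_eq_single i]
    · rw [LinearMap.single_apply, Pi.single_eq_same]
    · intro j _ hj
      rw [LinearMap.single_apply, Pi.single_eq_of_ne hj, map_zero]
    · intro hi
      exact absurd (Finset.mem_univ i) hi
  have hK' : ∀ (a : ∀ i, L i) (v : L i),
      killingForm ℝ (∀ i, L i) (LinearMap.single ℝ L i v) a = killingForm ℝ (L i) v (a i) := by
    intro a v
    rw [killing_pi, Finset.sum_eq_single i]
    · rw [LinearMap.single_apply, Pi.single_eq_same]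
    · intro j _ hj
      rw [LinearMap.single_apply, Pi.single_eq_of_ne hj, map_zero, LinearMap.zero_apply]
    · intro hi
      exact absurd (Finset.mem_univ i) hi
  have h0 := hT (LinearMap.single ℝ L i ∘ₗ R ∘ₗ LinearMap.proj i) ⟨fun x y => ?_, fun x y => ?_⟩
  · rw [← LinearMap.comp_assoc, ← LinearMap.comp_assoc,
      LinearMap.trace_comp_comm' (LinearMap.proj i) ((T ∘ₗ LinearMap.single ℝ L i) ∘ₗ R)] at h0
    rw [← h0]
    congr 1
    refine LinearMap.ext fun x => ?_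
    exact hB (R x)
  · change killingForm ℝ (∀ i, L i) (LinearMap.single ℝ L i (R (x i))) y =
      killingForm ℝ (∀ i, L i) x (LinearMap.single ℝ L i (R (y i)))
    rw [hK, hK']
    exact hR1 (x i) (y i)
  · change _ = _ * killingForm ℝ (∀ i, L i) (LinearMap.single ℝ L i (R (x i))) y
    rw [hK', ← hR2, piLie_trace, Finset.sum_eq_single i]
    · congr 1
      refine LinearMap.ext fun u => ?_
      change ⁅x i, (LinearMap.single ℝ L i (R ⁅y i, (LinearMap.single ℝ L i u) i⁆)) i⁆ =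
        ⁅x i, R ⁅y i, u⁆⁆
      simp only [LinearMap.single_apply, Pi.single_eq_same]
    · intro k _ hk
      have h2 : ∀ u : L k, ⁅x k, (LinearMap.single ℝ L i
          (R ⁅y i, (LinearMap.single ℝ L k u) i⁆)) k⁆ = 0 := by
        intro u
        simp only [LinearMap.single_apply, Pi.single_eq_of_ne hk, lie_zero]
      rw [show LinearMap.proj k ∘ₗ ((LieAlgebra.ad ℝ (∀ i, L i) x : (∀ i, L i) →ₗ[ℝ] (∀ i, L i)) ∘ₗ
        (LinearMap.single ℝ L i ∘ₗ R ∘ₗ LinearMap.proj i) ∘ₗ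
        (LieAlgebra.ad ℝ (∀ i, L i) y : (∀ i, L i) →ₗ[ℝ] (∀ i, L i))) ∘ₗ
          LinearMap.single ℝ L k = (0 : L k →ₗ[ℝ] L k) from LinearMap.ext fun u => h2 u, map_zero]
    · intro hi
      exact absurd (Finset.mem_univ i) hi

end Pool.Agent.SmIso
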