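import Pool.Agent.SmIso.Asm
import Pool.Agent.SmIso.Perp
import Pool.Agent.SmIso.PerpAt
import Pool.Agent.SmIso.PerpPi

/-!
# Products of copies of finitely many compact semisimple Lie algebras
-/

namespace Pool.Agent.SmIso

open Matrix Pool.Agent.EStab Pool.Agent.EinS

theorem gap_rigidAt {r : ℕ} (L : Fin r → Type) [∀ j, LieRing (L j)]
    [∀ j, LieAlgebra ℝ (L j)] [∀ j, Module.Finite ℝ (L j)]
    (hL : ∀ j, CompactSemisimple (L j)) :
    ∃ K : ℝ, 1 ≤ K ∧ ∀ (n : ℕ) (s : Fin n → Fin r) (h : LieSubalgebra ℝ (∀ i, L (s i))),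
      RigidAt h → Gap h K := by
  classical
  choose K hK hgap using fun j => gap_perp (hL j)
  obtain ⟨K₀, hK₀, hK₁⟩ : ∃ K₀ : ℝ, 1 ≤ K₀ ∧ ∀ j, K j ≤ K₀ := by
    refine ⟨1 + ∑ j, |K j|, ?_, fun j => ?_⟩
    · have : 0 ≤ ∑ j, |K j| := Finset.sum_nonneg fun j _ => abs_nonneg _
      linarith
    · have h2 : |K j| ≤ ∑ j, |K j| :=
        Finset.single_le_sum (f := fun j => |K j|) (fun j _ => abs_nonneg _) (Finset.mem_univ j)
      have := le_abs_self (K j)
      linarith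
  refine ⟨K₀ + 2, by linarith, fun n s h hr T hT hc t ht => ?_⟩
  have hg : CompactSemisimple (∀ i, L (s i)) := compact_pi fun i => hL (s i)
  obtain ⟨B, hB1, hB2, hB3, hB4⟩ := pi_block (fun i => hL (s i)) hT ht
  refine hB4 K₀ (by linarith) fun i x => ?_
  have h1 : ∀ R : L (s i) →ₗ[ℝ] L (s i), CasimirOne R →
      LinearMap.trace ℝ (L (s i)) (B i ∘ₗ R) = 0 := fun R hR =>
    perp_pi (fun R hR => perp_of_rigidAt hg hr hT hc hR) (hB2 i) hR
  refine (hgap (s i) (B i) (hB1 i) h1 t (hB3 i) x).trans ?_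
  have h3 : 0 ≤ t * Qf (L (s i)) x x := (abs_nonneg _).trans (hB3 i x)
  rw [mul_assoc, mul_assoc]
  exact mul_le_mul_of_nonneg_right (hK₁ _) h3

/-- Products of copies of finitely many compact semisimple Lie algebras. -/
theorem einstein_products_at {r : ℕ} (L : Fin r → Type) [∀ j, LieRing (L j)]
    [∀ j, LieAlgebra ℝ (L j)] [∀ j, Module.Finite ℝ (L j)]
    (hL : ∀ j, CompactSemisimple (L j)) :
    ∃ δ : ℝ, 0 < δ ∧ ∀ (n : ℕ) (s : Fin n → Fin r) (h : LieSubalgebra ℝ (∀ i, L (s i))),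
      CasimirSmall h δ → RigidAt h →
        HasEinsteinMetric (∀ i, L (s i)) h.toSubmodule (stabAuts h) := by
  obtain ⟨K, hK, hgap⟩ := gap_rigidAt L hL
  have hpos : (0 : ℝ) < 1250 * K ^ 2 := by positivity
  refine ⟨1 / (1250 * K ^ 2), by positivity, fun n s h hcas hr => ?_⟩
  refine small_isotropy (K := K) (δ := 1 / (1250 * K ^ 2))
    (compact_pi fun i => hL (s i)) hK (by positivity) ?_ (hgap n s h hr) hcas
  rw [mul_one_div_cancel hpos.ne']

/-- If all factors are rigid, then `RigidAt` holds for all subalgebras. -/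
theorem rigidAt_of_rigid {r : ℕ} (L : Fin r → Type) [∀ j, LieRing (L j)]
    [∀ j, LieAlgebra ℝ (L j)] [∀ j, Module.Finite ℝ (L j)]
    (hL : ∀ j, CompactSemisimple (L j) ∧ Rigid (L j)) {n : ℕ} (s : Fin n → Fin r)
    (h : LieSubalgebra ℝ (∀ i, L (s i))) : RigidAt h := by
  intro T hT _
  exact rigid_pi (fun i => (hL (s i)).1) (fun i => (hL (s i)).2) T hT

end Pool.Agent.SmIso
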