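import Pool.Agent.SmIso.IrrP
import Pool.Agent.SmIso.PiGap
import Pool.Agent.SmIso.RigGap
import Pool.Agent.SmIso.Rho
import Pool.Agent.SmIso.SoGap
import Pool.Agent.EStab.Final

/-!
# The gap constant of products of orthogonal algebras
-/

namespace Pool.Agent.SmIso

open Matrix Pool.Agent.EStab Pool.Agent.EinS LieAlgebra.Orthogonal

variable {n : ℕ} {N : Fin n → ℕ}

/-- The Ricci contraction of the block at `i` is scalar. -/
theorem rho_scalarAt {i : Fin n} (hN : 3 ≤ N i) {h : LieSubalgebra ℝ (∀ j, so (Fin (N j)) ℝ)}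
    (hirr : NormalizerIrreducibleAt h i)
    {T : (∀ j, so (Fin (N j)) ℝ) →ₗ[ℝ] (∀ j, so (Fin (N j)) ℝ)}
    (hc : ∀ δ : (∀ j, so (Fin (N j)) ℝ) ≃ₗ⁅ℝ⁆ (∀ j, so (Fin (N j)) ℝ),
      h.map (δ : (∀ j, so (Fin (N j)) ℝ) →ₗ⁅ℝ⁆ (∀ j, so (Fin (N j)) ℝ)) = h →
        ∀ x, T (δ x) = δ (T x))
    {B : so (Fin (N i)) ℝ →ₗ[ℝ] so (Fin (N i)) ℝ} (hB : QSym B)
    (hBT : ∀ x, B x = T (Pi.single i x) i) :
    ∃ c : ℝ, ∀ a b, ∑ j, tn B a j b j = if a = b then c else 0 := by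
  have hsym := tn_sym hN hB
  obtain ⟨M, hM'⟩ : ∃ M : Matrix (Fin (N i)) (Fin (N i)) ℝ,
      M = Matrix.of fun a b => ∑ j, tn B a j b j := ⟨_, rfl⟩
  have hM : ∀ a c, M a c = ∑ j, tn B a j c j := by
    intro a c
    rw [hM']
    rfl
  have hMs : M.IsSymm := by
    ext a c
    rw [Matrix.transpose_apply, hM, hM]
    exact Finset.sum_congr rfl fun j _ => hsym.s3 a j c j
  have hcomm : ∀ Q : ∀ j, Matrix (Fin (N j)) (Fin (N j)) ℝ, (∀ j, Q j * (Q j)ᵀ = 1) →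
      (∀ u ∈ h, ∃ u' ∈ h, ∀ j, Q j * (u j).1 * (Q j)ᵀ = (u' j).1) → Q i * M = M * Q i := by
    intro Q hQ hh
    obtain ⟨δ, hδ, hδx⟩ := exists_conjP hQ hh
    rw [hM']
    refine rho_comm hB (hQ i) fun x y hxy => ?_
    have h1 : (Pi.single i y : ∀ j, so (Fin (N j)) ℝ) = δ (Pi.single i x) := by
      funext j
      apply Subtype.ext
      rw [hδx]
      by_cases hj : j = i
      · subst hj
        rw [Pi.single_eq_same, Pi.single_eq_same]
        exact hxy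
      · rw [Pi.single_eq_of_ne hj, Pi.single_eq_of_ne hj]
        change (0 : Matrix _ _ ℝ) = Q j * 0 * (Q j)ᵀ
        rw [Matrix.mul_zero, Matrix.zero_mul]
    rw [hBT, hBT, h1, hc δ hδ]
    exact hδx (T (Pi.single i x)) i
  obtain ⟨c, hc'⟩ := scalar_of_commAt (by omega) hirr hMs hcomm
  refine ⟨c, fun a b => ?_⟩
  rw [← hM, hc', Matrix.smul_apply, Matrix.one_apply, smul_eq_mul]
  split_ifs
  · rw [mul_one]
  · rw [mul_zero]

/-- The constant of `so_gap` is at most `61`. -/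
theorem so_const_le {M : ℕ} (hM : 7 ≤ M) :
    5 * ((M : ℝ) - 2) * (3 * ((M : ℝ) - 2) + 2) / ((M : ℝ) * ((M : ℝ) - 6)) ≤ 61 := by
  have h7 : (7 : ℝ) ≤ M := by exact_mod_cast hM
  have : (0 : ℝ) < (M : ℝ) * ((M : ℝ) - 6) := mul_pos (by linarith) (by linarith)
  rw [div_le_iff₀ this]
  nlinarith

/-- Gap constant of a product with large factors with irreducible normaliser and small rigid factors. -/
theorem gap_prod {K : ℝ} (hK : 0 ≤ K) {h : LieSubalgebra ℝ (∀ j, so (Fin (N j)) ℝ)}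
    (hN : ∀ i, 3 ≤ N i)
    (hf : ∀ i, Gap0 (so (Fin (N i)) ℝ) K ∨ (7 ≤ N i ∧ NormalizerIrreducibleAt h i ∧
      5 * ((N i : ℝ) - 2) * (3 * ((N i : ℝ) - 2) + 2) / ((N i : ℝ) * ((N i : ℝ) - 6)) ≤ K)) :
    Gap h (K + 2) := by
  intro T hT hc s hs
  obtain ⟨B, hB1, hB2, hB3, hB4⟩ := pi_block (fun i => so_compact (hN i)) hT hs
  refine hB4 K hK fun i x => ?_
  rcases hf i with h0 | ⟨h7, hirr, hle⟩
  · exact h0 (B i) (hB1 i) s (hB3 i) x
  · obtain ⟨c, hρ⟩ := rho_scalarAt (hN i) hirr hc (hB1 i) (hB2 i)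
    have h3 : 0 ≤ s * Qf (so (Fin (N i)) ℝ) x x := (abs_nonneg _).trans (hB3 i x)
    calc |Qf (so (Fin (N i)) ℝ) (B i x) x| ≤ _ := so_gap h7 (hB1 i) hρ (hB3 i) x
      _ = 5 * ((N i : ℝ) - 2) * (3 * ((N i : ℝ) - 2) + 2) / ((N i : ℝ) * ((N i : ℝ) - 6)) *
          (s * Qf (so (Fin (N i)) ℝ) x x) := mul_assoc _ _ _
      _ ≤ K * (s * Qf (so (Fin (N i)) ℝ) x x) := mul_le_mul_of_nonneg_right hle h3
      _ = _ := (mul_assoc _ _ _).symm

/-- One constant for `so(3)`, `so(4)`, `so(5)`. -/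
theorem exists_small : ∃ K : ℝ, 1 ≤ K ∧ ∀ M : ℕ, 3 ≤ M → M ≤ 5 → Gap0 (so (Fin M) ℝ) K := by
  obtain ⟨K3, h3, g3⟩ := gap0_of_rigid (so_compact (N := 3) le_rfl)
    (so_rigid (N := 3) le_rfl (by norm_num))
  obtain ⟨K4, h4, g4⟩ := gap0_of_rigid (so_compact (N := 4) (by norm_num))
    (so_rigid (N := 4) (by norm_num) (by norm_num))
  obtain ⟨K5, h5, g5⟩ := gap0_of_rigid (so_compact (N := 5) (by norm_num))
    (so_rigid (N := 5) (by norm_num) (by norm_num))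
  have key : ∀ {L : Type} [LieRing L] [LieAlgebra ℝ L] {K K' : ℝ}, Gap0 L K → K ≤ K' →
      Gap0 L K' := by
    intro L _ _ K K' hK hle T hT s hs x
    refine (hK T hT s hs x).trans ?_
    have h3 : 0 ≤ s * Qf L x x := (abs_nonneg _).trans (hs x)
    rw [mul_assoc, mul_assoc]
    exact mul_le_mul_of_nonneg_right hle h3
  refine ⟨K3 + K4 + K5, by linarith, fun M hM1 hM2 => ?_⟩
  interval_cases M
  · exact key g3 (by linarith)
  · exact key g4 (by linarith)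
  · exact key g5 (by linarith)

end Pool.Agent.SmIso
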