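import Pool.Agent.SmIso.Asm
import Pool.Agent.SmIso.GapP
import Pool.Agent.SmIso.CasP

/-!
# Main theorems for products of orthogonal groups
-/

namespace Pool.Agent.SmIso

open Matrix Pool.Agent.EStab Pool.Agent.EinS LieAlgebra.Orthogonal

/-- An absolute constant for all products of orthogonal groups. -/
theorem einstein_so_prod : ∃ ε : ℝ, 0 < ε ∧ ∀ (n : ℕ) (N : Fin n → ℕ),
    (∀ i, 3 ≤ N i ∧ N i ≠ 6) → ∀ h : LieSubalgebra ℝ (∀ i, so (Fin (N i)) ℝ),
      (∀ i, 7 ≤ N i → NormalizerIrreducibleAt h i) → CasimirSmall h ε →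
        HasEinsteinMetric (∀ i, so (Fin (N i)) ℝ) h.toSubmodule (stabAuts h) := by
  obtain ⟨K, hK, hsm⟩ := exists_small
  have hpos : (0 : ℝ) < 1250 * (K + 61 + 2) ^ 2 := by positivity
  refine ⟨1 / (1250 * (K + 61 + 2) ^ 2), by positivity, fun n N hN h hirr hcas => ?_⟩
  refine small_isotropy (K := K + 61 + 2) (δ := 1 / (1250 * (K + 61 + 2) ^ 2))
    (compact_pi fun i => so_compact (hN i).1) (by linarith) (by positivity)
    (by rw [mul_one_div_cancel hpos.ne']) ?_ hcas
  refine gap_prod (by linarith) (fun i => (hN i).1) fun i => ?_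
  rcases Nat.lt_or_ge (N i) 7 with h7 | h7
  · left
    have h5 : N i ≤ 5 := by
      have := (hN i).2
      omega
    intro T hT s hs x
    refine (hsm (N i) (hN i).1 h5 T hT s hs x).trans ?_
    have h3 : 0 ≤ s * Qf (so (Fin (N i)) ℝ) x x := (abs_nonneg _).trans (hs x)
    rw [mul_assoc, mul_assoc]
    exact mul_le_mul_of_nonneg_right (by linarith) h3
  · right
    exact ⟨h7, hirr i h7, (so_const_le h7).trans (by linarith)⟩

/-- Products of large orthogonal groups, small dimension. -/
theorem einstein_so_dim (n : ℕ) (N : Fin n → ℕ) (h : LieSubalgebra ℝ (∀ i, so (Fin (N i)) ℝ))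
    (hN : ∀ i, 7 ≤ N i) (hirr : ∀ i, NormalizerIrreducibleAt h i)
    (hdim : ∀ i, 2 * 10 ^ 6 * Module.finrank ℝ h ≤ N i ^ 2) :
    HasEinsteinMetric (∀ i, so (Fin (N i)) ℝ) h.toSubmodule (stabAuts h) := by
  have hg : CompactSemisimple (∀ i, so (Fin (N i)) ℝ) :=
    compact_pi fun i => so_compact (by have := hN i; omega)
  obtain ⟨r, hr⟩ : ∃ r : ℕ, r = Module.finrank ℝ h := ⟨_, rfl⟩
  rcases Nat.eq_zero_or_pos r with h0 | hpos
  · refine small_isotropy (K := 61 + 2) (δ := 0) hg (by norm_num) le_rfl (by norm_num) ?_ ?_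
    · exact gap_prod (by norm_num) (fun i => by have := hN i; omega) fun i =>
        Or.inr ⟨hN i, hirr i, so_const_le (hN i)⟩
    · refine so_casimirP (fun i => by have := hN i; omega) hirr fun i => ?_
      rw [← hr, h0]
      simp
  · have hr1 : (1 : ℝ) ≤ r := by exact_mod_cast hpos
    have hd : ∀ i, (2000000 : ℝ) * r ≤ (N i : ℝ) ^ 2 := by
      intro i
      have h1 := hdim i
      rw [← hr] at h1
      have h2 : ((2 * 10 ^ 6 * r : ℕ) : ℝ) ≤ ((N i ^ 2 : ℕ) : ℝ) := by exact_mod_cast h1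
      push_cast at h2
      linarith
    have hN1 : ∀ i, (1414 : ℝ) ≤ N i := by
      intro i
      by_contra hcon
      push Not at hcon
      have h0 : (0 : ℝ) ≤ N i := Nat.cast_nonneg _
      have := hd i
      nlinarith
    refine small_isotropy (K := 152 / 10 + 2) (δ := 1 / 400000) hg (by norm_num) (by norm_num)
      (by norm_num) ?_ ?_
    · refine gap_prod (by norm_num) (fun i => by have := hN i; omega) fun i =>
        Or.inr ⟨hN i, hirr i, ?_⟩
      have h1 := hN1 i
      have h2 : (0 : ℝ) < (N i : ℝ) * ((N i : ℝ) - 6) := mul_pos (by linarith) (by linarith)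
      rw [div_le_iff₀ h2]
      nlinarith
    · refine so_casimirP (fun i => by have := hN i; omega) hirr fun i => ?_
      have h1 := hN1 i
      have h2 : (0 : ℝ) < (N i : ℝ) * ((N i : ℝ) - 2) := mul_pos (by linarith) (by linarith)
      rw [← hr, div_le_div_iff₀ h2 (by norm_num)]
      have := hd i
      nlinarith

end Pool.Agent.SmIso
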