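import Pool.Agent.SmIso.DefsP
import Pool.Agent.SmIso.Irr

/-!
# Irreducible normaliser in a product

Same proofs as `scalar_of_comm` and `exists_conj` in `Irr.lean` (the automorphism is `x ↦ (Q j x_j (Q j)ᵀ)_j`).
-/

namespace Pool.Agent.SmIso

open Matrix Pool.Agent.EStab Pool.Agent.EinS LieAlgebra.Orthogonal

variable {n : ℕ} {N : Fin n → ℕ}

theorem scalar_of_commAt {i : Fin n} (hN : 0 < N i)
    {h : LieSubalgebra ℝ (∀ j, so (Fin (N j)) ℝ)} (hirr : NormalizerIrreducibleAt h i)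
    {M : Matrix (Fin (N i)) (Fin (N i)) ℝ} (hM : M.IsSymm)
    (hc : ∀ Q : ∀ j, Matrix (Fin (N j)) (Fin (N j)) ℝ, (∀ j, Q j * (Q j)ᵀ = 1) →
      (∀ u ∈ h, ∃ u' ∈ h, ∀ j, Q j * (u j).1 * (Q j)ᵀ = (u' j).1) → Q i * M = M * Q i) :
    ∃ c : ℝ, M = c • (1 : Matrix (Fin (N i)) (Fin (N i)) ℝ) := by
  have hH : M.IsHermitian := by
    rw [Matrix.IsHermitian, Matrix.conjTranspose_eq_transpose_of_trivial]
    exact hM
  let i0 : Fin (N i) := ⟨0, hN⟩
  have he := hH.mulVec_eigenvectorBasis i0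
  set c : ℝ := hH.eigenvalues i0 with hcdef
  set v : Fin (N i) → ℝ := (hH.eigenvectorBasis i0).ofLp with hvdef
  have hv0 : v ≠ 0 := by
    intro h0
    have h1 : hH.eigenvectorBasis i0 = 0 := by
      ext j
      exact congrFun h0 j
    have h2 := hH.eigenvectorBasis.norm_eq_one i0
    rw [h1, norm_zero] at h2
    exact zero_ne_one h2
  refine ⟨c, ?_⟩
  let U : Submodule ℝ (Fin (N i) → ℝ) := LinearMap.ker (M.mulVecLin - c • LinearMap.id)
  have hmem : ∀ w, w ∈ U ↔ M *ᵥ w = c • w := by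
    intro w
    simp only [U, LinearMap.mem_ker, LinearMap.sub_apply, Matrix.mulVecLin_apply,
      LinearMap.smul_apply, LinearMap.id_apply, sub_eq_zero]
  rcases hirr U (fun Q hQ hQh w hw => by
    rw [hmem] at hw ⊢
    rw [Matrix.mulVec_mulVec, ← hc Q hQ hQh, ← Matrix.mulVec_mulVec, hw, Matrix.mulVec_smul])
    with hU | hU
  · exfalso
    have : v ∈ U := (hmem v).2 he
    rw [hU, Submodule.mem_bot] at this
    exact hv0 this
  · ext a b
    have h1 : (Pi.single b 1 : Fin (N i) → ℝ) ∈ U := by rw [hU]; exact Submodule.mem_top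
    rw [hmem] at h1
    have h2 := congrFun h1 a
    rw [Matrix.mulVec_single_one] at h2
    simp only [Matrix.col_apply, Pi.smul_apply, smul_eq_mul] at h2
    rw [h2, Matrix.smul_apply, smul_eq_mul, Matrix.one_apply, Pi.single_apply]

private theorem irrP_mem {m : ℕ} {Q : Matrix (Fin m) (Fin m) ℝ} (x : so (Fin m) ℝ) :
    Q * (x : Matrix (Fin m) (Fin m) ℝ) * Qᵀ ∈ so (Fin m) ℝ := by
  have hx := (LieAlgebra.Orthogonal.mem_so (Fin m) ℝ _).1 x.2
  rw [LieAlgebra.Orthogonal.mem_so, Matrix.transpose_mul, Matrix.transpose_mul,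
    Matrix.transpose_transpose, hx]
  simp only [Matrix.mul_neg, Matrix.neg_mul, Matrix.mul_assoc]

theorem exists_conjP {h : LieSubalgebra ℝ (∀ j, so (Fin (N j)) ℝ)}
    {Q : ∀ j, Matrix (Fin (N j)) (Fin (N j)) ℝ} (hQ : ∀ j, Q j * (Q j)ᵀ = 1)
    (hh : ∀ u ∈ h, ∃ u' ∈ h, ∀ j, Q j * (u j).1 * (Q j)ᵀ = (u' j).1) :
    ∃ δ : (∀ j, so (Fin (N j)) ℝ) ≃ₗ⁅ℝ⁆ (∀ j, so (Fin (N j)) ℝ),
      h.map (δ : (∀ j, so (Fin (N j)) ℝ) →ₗ⁅ℝ⁆ (∀ j, so (Fin (N j)) ℝ)) = h ∧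
      ∀ x j, (δ x j).1 = Q j * (x j).1 * (Q j)ᵀ := by
  have hQ' : ∀ j, (Q j)ᵀ * Q j = 1 := fun j => mul_eq_one_comm.1 (hQ j)
  let δ : (∀ j, so (Fin (N j)) ℝ) ≃ₗ⁅ℝ⁆ (∀ j, so (Fin (N j)) ℝ) :=
    { toFun := fun x j => ⟨Q j * (x j : Matrix (Fin (N j)) (Fin (N j)) ℝ) * (Q j)ᵀ,
        irrP_mem (x j)⟩
      invFun := fun x j => ⟨(Q j)ᵀ * (x j : Matrix (Fin (N j)) (Fin (N j)) ℝ) * Q j, by
        have := irrP_mem (Q := (Q j)ᵀ) (x j)
        rwa [Matrix.transpose_transpose] at this⟩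
      map_add' := fun x y => by
        funext j
        apply Subtype.ext
        change Q j * ((x j : Matrix (Fin (N j)) (Fin (N j)) ℝ) + y j) * (Q j)ᵀ =
          Q j * (x j : Matrix (Fin (N j)) (Fin (N j)) ℝ) * (Q j)ᵀ +
            Q j * (y j : Matrix (Fin (N j)) (Fin (N j)) ℝ) * (Q j)ᵀ
        rw [Matrix.mul_add, Matrix.add_mul]
      map_smul' := fun r x => by
        funext j
        apply Subtype.ext
        change Q j * (r • (x j : Matrix (Fin (N j)) (Fin (N j)) ℝ)) * (Q j)ᵀ =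
          r • (Q j * (x j : Matrix (Fin (N j)) (Fin (N j)) ℝ) * (Q j)ᵀ)
        rw [Matrix.mul_smul, Matrix.smul_mul]
      map_lie' := fun {x y} => by
        funext j
        apply Subtype.ext
        change Q j * (⁅(x j : Matrix (Fin (N j)) (Fin (N j)) ℝ),
            (y j : Matrix (Fin (N j)) (Fin (N j)) ℝ)⁆) * (Q j)ᵀ =
          ⁅Q j * (x j : Matrix (Fin (N j)) (Fin (N j)) ℝ) * (Q j)ᵀ,
            Q j * (y j : Matrix (Fin (N j)) (Fin (N j)) ℝ) * (Q j)ᵀ⁆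
        have h1 : ∀ a b : Matrix (Fin (N j)) (Fin (N j)) ℝ,
            Q j * a * (Q j)ᵀ * (Q j * b * (Q j)ᵀ) = Q j * (a * b) * (Q j)ᵀ := by
          intro a b
          calc Q j * a * (Q j)ᵀ * (Q j * b * (Q j)ᵀ)
              = Q j * a * ((Q j)ᵀ * Q j) * b * (Q j)ᵀ := by
                simp only [Matrix.mul_assoc]
            _ = Q j * (a * b) * (Q j)ᵀ := by
                rw [hQ' j, Matrix.mul_one]; simp only [Matrix.mul_assoc]
        rw [Ring.lie_def, Ring.lie_def, h1, h1, Matrix.mul_sub, Matrix.sub_mul]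
      left_inv := fun x => by
        funext j
        apply Subtype.ext
        change (Q j)ᵀ * (Q j * (x j : Matrix (Fin (N j)) (Fin (N j)) ℝ) * (Q j)ᵀ) * Q j = x j
        calc (Q j)ᵀ * (Q j * (x j : Matrix (Fin (N j)) (Fin (N j)) ℝ) * (Q j)ᵀ) * Q j
            = ((Q j)ᵀ * Q j) * x j * ((Q j)ᵀ * Q j) := by simp only [Matrix.mul_assoc]
          _ = x j := by rw [hQ' j, Matrix.one_mul, Matrix.mul_one]
      right_inv := fun x => by
        funext j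
        apply Subtype.ext
        change Q j * ((Q j)ᵀ * (x j : Matrix (Fin (N j)) (Fin (N j)) ℝ) * Q j) * (Q j)ᵀ = x j
        calc Q j * ((Q j)ᵀ * (x j : Matrix (Fin (N j)) (Fin (N j)) ℝ) * Q j) * (Q j)ᵀ
            = (Q j * (Q j)ᵀ) * x j * (Q j * (Q j)ᵀ) := by simp only [Matrix.mul_assoc]
          _ = x j := by rw [hQ j, Matrix.one_mul, Matrix.mul_one] }
  have hδ : ∀ x j, (δ x j).1 = Q j * (x j).1 * (Q j)ᵀ := fun x j => rfl
  refine ⟨δ, ?_, hδ⟩
  have hle : (h.map (δ : (∀ j, so (Fin (N j)) ℝ) →ₗ⁅ℝ⁆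
      (∀ j, so (Fin (N j)) ℝ))).toSubmodule ≤ h.toSubmodule := by
    intro y hy
    obtain ⟨u, hu, rfl⟩ := hy
    obtain ⟨u', hu', he⟩ := hh u hu
    have : δ u = u' := funext fun j => Subtype.ext (he j)
    change δ u ∈ h
    rw [this]
    exact hu'
  have heq : (h.map (δ : (∀ j, so (Fin (N j)) ℝ) →ₗ⁅ℝ⁆
      (∀ j, so (Fin (N j)) ℝ))).toSubmodule = h.toSubmodule := by
    apply Submodule.eq_of_le_of_finrank_eq hle
    exact LinearEquiv.finrank_map_eq δ.toLinearEquiv h.toSubmodule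
  exact LieSubalgebra.toSubmodule_injective heq

end Pool.Agent.SmIso
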