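import Pool.Agent.SmIso.Base

/-!
# The `L²` operator norm and quadratic forms

Euclidean norms: `(toLp 2 x)` has norm squared `x ⬝ᵥ x`; `Matrix.l2_opNorm_mulVec`, `Matrix.l2_opNorm_def`.

* `quad_le_norm`: Cauchy-Schwarz.
* `norm_le_of_quad`: polarisation: for symmetric `A`,
  `4 y ⬝ A x = (x+y) ⬝ A (x+y) - (x-y) ⬝ A (x-y) ≤ s (|x+y|² + |x-y|²) = 2 s (|x|² + |y|²)`; take
  `y = c A x` with `|y| = |x|` (or: `2 c |A x|² ≤ s (|x|² + c² |A x|²)` for all `c > 0`, and `c = 1/s`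
  gives `|A x|² ≤ s² |x|²` if `s > 0`; `s = 0` by letting `s → 0` or directly).
  Then `ContinuousLinearMap.opNorm_le_bound`.
* `UU_comm`: transpose the trace.
* `norm_UU_le`: by `UU_quad` the form is `trace (B * (M * A * Mᵀ))`, `M = lc C v`.  With `a = ‖A‖`,
  `b = ‖B‖`: `a + A, a - A, b + B, b - B` are positive semidefinite, so
  `trace ((b ± B) * (M * (a ± A) * Mᵀ)) ≥ 0` (`EinS.trace_mul_nonneg`), and adding two of these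
  `|trace (B * (M * A * Mᵀ))| ≤ a b trace (M * Mᵀ) = a b (v ⬝ᵥ (UU C 1 1 *ᵥ v)) ≤ a b (v ⬝ᵥ v)`.
-/

namespace Pool.Agent.SmIso

open Matrix Pool.Agent.EStab Pool.Agent.EinS
open scoped Matrix.Norms.L2Operator

variable {ι : Type*} [Fintype ι] [DecidableEq ι]

private theorem Nrm_toLp_sq (x : ι → ℝ) : ‖(WithLp.toLp 2 x : EuclideanSpace ℝ ι)‖ ^ 2 = x ⬝ᵥ x := by
  rw [EuclideanSpace.real_norm_sq_eq]
  unfold dotProduct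
  refine Finset.sum_congr rfl fun i _ => ?_
  change x i ^ 2 = x i * x i
  ring

private theorem Nrm_mulVec (A : Matrix ι ι ℝ) (x : ι → ℝ) :
    ‖(WithLp.toLp 2 (A *ᵥ x) : EuclideanSpace ℝ ι)‖ ≤
      ‖A‖ * ‖(WithLp.toLp 2 x : EuclideanSpace ℝ ι)‖ :=
  Matrix.l2_opNorm_mulVec A (WithLp.toLp 2 x)

theorem norm_mulVec_sq (A : Matrix ι ι ℝ) (x : ι → ℝ) :
    (A *ᵥ x) ⬝ᵥ (A *ᵥ x) ≤ ‖A‖ ^ 2 * (x ⬝ᵥ x) := by
  rw [← Nrm_toLp_sq, ← Nrm_toLp_sq x, ← mul_pow]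
  exact pow_le_pow_left₀ (norm_nonneg _) (Nrm_mulVec A x) 2

theorem quad_le_norm (A : Matrix ι ι ℝ) (x : ι → ℝ) : |x ⬝ᵥ (A *ᵥ x)| ≤ ‖A‖ * (x ⬝ᵥ x) := by
  have h1 : x ⬝ᵥ (A *ᵥ x) =
      inner ℝ (WithLp.toLp 2 (A *ᵥ x) : EuclideanSpace ℝ ι) (WithLp.toLp 2 x) := by
    rw [EuclideanSpace.inner_toLp_toLp, star_trivial]
  rw [h1]
  refine (abs_real_inner_le_norm _ _).trans ?_
  rw [← Nrm_toLp_sq x, pow_two, ← mul_assoc]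
  exact mul_le_mul_of_nonneg_right (Nrm_mulVec A x) (norm_nonneg _)

private theorem Nrm_polar {A : Matrix ι ι ℝ} (hA : A.IsSymm) {s : ℝ}
    (h : ∀ x, |x ⬝ᵥ (A *ᵥ x)| ≤ s * (x ⬝ᵥ x)) (x y : ι → ℝ) :
    4 * (y ⬝ᵥ (A *ᵥ x)) ≤ 2 * s * (x ⬝ᵥ x + y ⬝ᵥ y) := by
  have h1 := (abs_le.1 (h (x + y))).2
  have h2 := (abs_le.1 (h (x - y))).1
  have h3 : x ⬝ᵥ (A *ᵥ y) = y ⬝ᵥ (A *ᵥ x) := by
    rw [Matrix.dotProduct_mulVec, ← Matrix.mulVec_transpose, hA.eq, dotProduct_comm]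
  simp only [Matrix.mulVec_add, Matrix.mulVec_sub, dotProduct_add, dotProduct_sub, add_dotProduct,
    sub_dotProduct, h3, dotProduct_comm y x] at h1 h2
  linarith

private theorem Nrm_sq_le {A : Matrix ι ι ℝ} (hA : A.IsSymm) {s : ℝ} (hs : 0 < s)
    (h : ∀ x, |x ⬝ᵥ (A *ᵥ x)| ≤ s * (x ⬝ᵥ x)) (x : ι → ℝ) :
    (A *ᵥ x) ⬝ᵥ (A *ᵥ x) ≤ s ^ 2 * (x ⬝ᵥ x) := by
  have h1 := Nrm_polar hA h x (s⁻¹ • (A *ᵥ x))
  simp only [smul_dotProduct, dotProduct_smul, smul_eq_mul] at h1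
  set q := (A *ᵥ x) ⬝ᵥ (A *ᵥ x) with hq
  set r := x ⬝ᵥ x with hr
  have h2 : 4 * (s⁻¹ * q) * s ≤ 2 * s * (r + s⁻¹ * (s⁻¹ * q)) * s :=
    mul_le_mul_of_nonneg_right h1 hs.le
  have h3 : 4 * (s⁻¹ * q) * s = 4 * q := by
    field_simp
  have h4 : 2 * s * (r + s⁻¹ * (s⁻¹ * q)) * s = 2 * s ^ 2 * r + 2 * q := by
    field_simp
  rw [h3, h4] at h2
  linarith

theorem norm_le_of_quad {A : Matrix ι ι ℝ} (hA : A.IsSymm) {s : ℝ} (hs : 0 ≤ s)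
    (h : ∀ x, |x ⬝ᵥ (A *ᵥ x)| ≤ s * (x ⬝ᵥ x)) : ‖A‖ ≤ s := by
  refine le_of_forall_pos_le_add fun ε hε => ?_
  have hs' : 0 < s + ε := by linarith
  have h' : ∀ x, |x ⬝ᵥ (A *ᵥ x)| ≤ (s + ε) * (x ⬝ᵥ x) := fun x =>
    (h x).trans (mul_le_mul_of_nonneg_right (by linarith) (dot_self_nonneg x))
  rw [Matrix.l2_opNorm_def]
  refine ContinuousLinearMap.opNorm_le_bound _ hs'.le fun x => ?_
  have h1 := Nrm_sq_le hA hs' h' x.ofLp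
  rw [← Nrm_toLp_sq, ← Nrm_toLp_sq x.ofLp, ← mul_pow] at h1
  exact (pow_le_pow_iff_left₀ (norm_nonneg _) (mul_nonneg hs'.le (norm_nonneg _)) two_ne_zero).1 h1

theorem UU_comm {C : ι → Matrix ι ι ℝ} (hC : CSym C) {A B : Matrix ι ι ℝ} (hA : A.IsSymm)
    (hB : B.IsSymm) : UU C A B = UU C B A := by
  ext x y
  unfold UU
  rw [Matrix.of_apply, Matrix.of_apply, ← Matrix.trace_transpose, Matrix.transpose_mul,
    Matrix.transpose_mul, Matrix.transpose_mul, Matrix.transpose_transpose, hA.eq, hB.eq,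
    hC.anti x, hC.anti y, Matrix.mul_neg, Matrix.mul_neg, Matrix.mul_neg, Matrix.mul_neg,
    Matrix.neg_mul, ← Matrix.mul_assoc, ← Matrix.mul_assoc, Matrix.trace_neg, Matrix.trace_neg,
    Matrix.trace_mul_comm _ (C x), ← Matrix.mul_assoc, ← Matrix.mul_assoc]

private theorem Nrm_pos {A : Matrix ι ι ℝ} {a : ℝ}
    (h : ∀ x, |x ⬝ᵥ (A *ᵥ x)| ≤ a * (x ⬝ᵥ x)) (x : ι → ℝ) :
    0 ≤ x ⬝ᵥ ((a • (1 : Matrix ι ι ℝ) + A) *ᵥ x) := by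
  have h1 := (abs_le.1 (h x)).1
  rw [Matrix.add_mulVec, Matrix.smul_mulVec, Matrix.one_mulVec, dotProduct_add, dotProduct_smul,
    smul_eq_mul]
  linarith

private theorem Nrm_neg {A : Matrix ι ι ℝ} {a : ℝ}
    (h : ∀ x, |x ⬝ᵥ (A *ᵥ x)| ≤ a * (x ⬝ᵥ x)) (x : ι → ℝ) :
    |x ⬝ᵥ ((-A) *ᵥ x)| ≤ a * (x ⬝ᵥ x) := by
  rw [Matrix.neg_mulVec, dotProduct_neg, abs_neg]
  exact h x

private theorem Nrm_pair {A B M : Matrix ι ι ℝ} (hA : A.IsSymm) (hB : B.IsSymm) {a b : ℝ}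
    (ha : ∀ x, |x ⬝ᵥ (A *ᵥ x)| ≤ a * (x ⬝ᵥ x)) (hb : ∀ x, |x ⬝ᵥ (B *ᵥ x)| ≤ b * (x ⬝ᵥ x)) :
    0 ≤ trace ((b • (1 : Matrix ι ι ℝ) + B) * (M * (a • (1 : Matrix ι ι ℝ) + A) * Mᵀ)) := by
  refine trace_mul_nonneg ?_ (Nrm_pos hb) ?_ fun x => ?_
  · unfold Matrix.IsSymm
    rw [Matrix.transpose_add, Matrix.transpose_smul, Matrix.transpose_one, hB.eq]
  · unfold Matrix.IsSymm
    rw [Matrix.transpose_mul, Matrix.transpose_mul, Matrix.transpose_transpose,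
      Matrix.transpose_add, Matrix.transpose_smul, Matrix.transpose_one, hA.eq, Matrix.mul_assoc]
  · have h1 := Nrm_pos ha (Mᵀ *ᵥ x)
    rw [← Matrix.mulVec_mulVec, ← Matrix.mulVec_mulVec, Matrix.dotProduct_mulVec,
      ← Matrix.mulVec_transpose]
    exact h1

private theorem Nrm_trace_le {A B M : Matrix ι ι ℝ} (hA : A.IsSymm) (hB : B.IsSymm) {a b : ℝ}
    (ha : ∀ x, |x ⬝ᵥ (A *ᵥ x)| ≤ a * (x ⬝ᵥ x)) (hb : ∀ x, |x ⬝ᵥ (B *ᵥ x)| ≤ b * (x ⬝ᵥ x)) :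
    |trace (B * (M * A * Mᵀ))| ≤ a * b * trace (M * Mᵀ) := by
  have hA' : (-A).IsSymm := by
    unfold Matrix.IsSymm
    rw [Matrix.transpose_neg, hA.eq]
  have hB' : (-B).IsSymm := by
    unfold Matrix.IsSymm
    rw [Matrix.transpose_neg, hB.eq]
  have h1 := Nrm_pair (M := M) hA hB ha hb
  have h2 := Nrm_pair (M := M) hA' hB' (Nrm_neg ha) (Nrm_neg hb)
  have h3 := Nrm_pair (M := M) hA' hB (Nrm_neg ha) hb
  have h4 := Nrm_pair (M := M) hA hB' ha (Nrm_neg hb)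
  simp only [Matrix.add_mul, Matrix.mul_add, Matrix.smul_mul, Matrix.mul_smul, Matrix.one_mul,
    Matrix.mul_one, Matrix.trace_add, Matrix.trace_smul, smul_eq_mul, Matrix.neg_mul,
    Matrix.mul_neg, Matrix.trace_neg, neg_neg, smul_neg] at h1 h2 h3 h4
  rw [abs_le]
  constructor <;> nlinarith

theorem norm_UU_le {C : ι → Matrix ι ι ℝ} (h1 : ∀ v, v ⬝ᵥ (UU C 1 1 *ᵥ v) ≤ v ⬝ᵥ v)
    {A B : Matrix ι ι ℝ} (hA : A.IsSymm) (hB : B.IsSymm) : ‖UU C A B‖ ≤ ‖A‖ * ‖B‖ := by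
  have h0 : 0 ≤ ‖A‖ * ‖B‖ := mul_nonneg (norm_nonneg _) (norm_nonneg _)
  refine norm_le_of_quad (UU_symm C hA hB) h0 fun v => ?_
  rw [UU_quad]
  refine (Nrm_trace_le hA hB (quad_le_norm A) (quad_le_norm B)).trans ?_
  refine mul_le_mul_of_nonneg_left ?_ h0
  have h2 := h1 v
  rw [UU_quad, Matrix.one_mul, Matrix.mul_one] at h2
  exact h2

end Pool.Agent.SmIso
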