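import Pool.Agent.SmIso.FinP

/-!
# Products of orthogonal groups: the statements
-/

namespace Pool.Agent.SmIso

open Matrix Pool.Agent.EStab LieAlgebra.Orthogonal

/-- The Lie algebra of `∏ SO(N i)`. -/
def SoPi {n : ℕ} (N : Fin n → ℕ) : Type := ∀ i, so (Fin (N i)) ℝ

instance soPiLieRing {n : ℕ} (N : Fin n → ℕ) : LieRing (SoPi N) :=
  piLieRing fun i => so (Fin (N i)) ℝ

instance soPiLieAlgebra {n : ℕ} (N : Fin n → ℕ) : LieAlgebra ℝ (SoPi N) :=
  piLieAlgebra fun i => so (Fin (N i)) ℝ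

/-- The matrix of the `i`-th component. -/
def SoPi.mat {n : ℕ} {N : Fin n → ℕ} (x : SoPi N) (i : Fin n) :
    Matrix (Fin (N i)) (Fin (N i)) ℝ := (x i).1

/-- The elements of `∏ O(N j)` which normalise `h`. -/
def normSet {n : ℕ} {N : Fin n → ℕ} (h : LieSubalgebra ℝ (SoPi N)) :
    Set (∀ j, Matrix (Fin (N j)) (Fin (N j)) ℝ) :=
  {Q | (∀ j, Q j * (Q j)ᵀ = 1) ∧ ∀ u ∈ h, ∃ u' ∈ h, ∀ j, Q j * u.mat j * (Q j)ᵀ = u'.mat j}

/-- The projection to the factor `O(N i)` of the normaliser of `h` acts irreducibly on `ℝ^(N i)`. -/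
def IrrAt {n : ℕ} {N : Fin n → ℕ} (h : LieSubalgebra ℝ (SoPi N)) (i : Fin n) : Prop :=
  ∀ U : Submodule ℝ (Fin (N i) → ℝ), (∀ Q ∈ normSet h, ∀ v ∈ U, Q i *ᵥ v ∈ U) → U = ⊥ ∨ U = ⊤

/-- The homogeneous space with isotropy algebra `h` has an invariant Einstein metric of positive scalar
curvature, which is also invariant under the automorphisms preserving `h`. -/
def QuotEinstein {n : ℕ} {N : Fin n → ℕ} (h : LieSubalgebra ℝ (SoPi N)) : Prop :=
  HasEinsteinMetric (SoPi N) h.toSubmodule (stabAuts h)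

theorem irrAt_iff {n : ℕ} {N : Fin n → ℕ} {h : LieSubalgebra ℝ (SoPi N)} {i : Fin n}
    (H : IrrAt h i) :
    NormalizerIrreducibleAt (N := N) (show LieSubalgebra ℝ (∀ i, so (Fin (N i)) ℝ) from h) i := by
  intro U hU
  exact H U fun Q hQ v hv => hU Q hQ.1 hQ.2 v hv

end Pool.Agent.SmIso
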